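import Pool.Agent.Work.MP_3fbbd3_adj.Def2

/-!
# Block AS: groups of units closed under unipotent elements, the reduction
-/

namespace Pool.Agent.Work.MP_3fbbd3_adj

open Submodule

open scoped commutatorElement

universe u v

namespace AS

/-- a homomorphism of a perfect group whose image is metabelian is trivial -/
lemma triv {G : Type u} [Group G] (hperf : commutator G = ⊤) {Q : Type v} [Group Q] (f : G →* Q)
    (h : ∀ a b c d : G, f ⁅⁅a, b⁆, ⁅c, d⁆⁆ = 1) (g : G) : f g = 1 := by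
  have key : ∀ K : Subgroup G, (∀ a b : G, ⁅a, b⁆ ∈ K) → ∀ x, x ∈ K := by
    intro K hK x
    have h1 : commutator G ≤ K := by
      rw [commutator_def, Subgroup.commutator_le]
      intro a _ b _
      exact hK a b
    rw [hperf] at h1
    exact h1 (Subgroup.mem_top x)
  have h1 : ∀ a b x : G, f x * f ⁅a, b⁆ = f ⁅a, b⁆ * f x := by
    intro a b x
    have := key ((Subgroup.centralizer {f ⁅a, b⁆}).comap f) (by
      intro c d
      rw [Subgroup.mem_comap, Subgroup.mem_centralizer_singleton_iff]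
      have h2 := h c d a b
      rw [map_commutatorElement, commutatorElement_eq_one_iff_mul_comm] at h2
      exact h2) x
    rw [Subgroup.mem_comap, Subgroup.mem_centralizer_singleton_iff] at this
    exact this
  have h2 : ∀ x y : G, f x * f y = f y * f x := by
    intro x y
    have := key ((Subgroup.centralizer {f y}).comap f) (by
      intro c d
      rw [Subgroup.mem_comap, Subgroup.mem_centralizer_singleton_iff]
      exact (h1 c d y).symm) x
    rw [Subgroup.mem_comap, Subgroup.mem_centralizer_singleton_iff] at this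
    exact this
  exact key f.ker (by
    intro a b
    rw [MonoidHom.mem_ker, map_commutatorElement, commutatorElement_eq_one_iff_mul_comm]
    exact h2 a b) g

variable {p : ℕ} {A : Type u} [Ring A]

/-- the ideal of the elements of `p`-power additive order -/
def t (p : ℕ) (A : Type u) [Ring A] : Ideal A where
  carrier := {x | ∃ n : ℕ, p ^ n • x = 0}
  zero_mem' := ⟨0, by simp⟩
  add_mem' := by
    rintro x y ⟨n, hn⟩ ⟨m, hm⟩
    refine ⟨n + m, ?_⟩
    rw [smul_add, pow_add, mul_smul, mul_smul, hm, smul_zero, add_zero, ← mul_smul, mul_comm,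
      mul_smul, hn, smul_zero]
  smul_mem' := by
    rintro c x ⟨n, hn⟩
    exact ⟨n, by rw [smul_eq_mul, ← mul_smul_comm, hn, mul_zero]⟩

lemma mem_t {x : A} : x ∈ t p A ↔ ∃ n : ℕ, p ^ n • x = 0 := Iff.rfl

instance : (t p A).IsTwoSided := ⟨by
  rintro x b ⟨n, hn⟩
  exact ⟨n, by rw [← smul_mul_assoc, hn, zero_mul]⟩⟩

lemma notors (x : A ⧸ t p A) (hx : p • x = 0) : x = 0 := by
  obtain ⟨a, rfl⟩ := Ideal.Quotient.mk_surjective x
  rw [← map_nsmul, Ideal.Quotient.eq_zero_iff_mem] at hx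
  rw [Ideal.Quotient.eq_zero_iff_mem]
  obtain ⟨n, hn⟩ := hx
  exact ⟨n + 1, by rw [pow_succ, mul_smul]; exact hn⟩

variable {G : Type u} [Group G] (φ : G →* A)

/-- the additive span of the elements `φ g - 1` -/
def M' : Submodule ℤ A := span ℤ (Set.range fun g => φ g - 1)

variable {φ}

lemma sub_mem (g h : G) : φ g - φ h ∈ M' φ := by
  have e : φ g - φ h = (φ g - 1) - (φ h - 1) := by abel
  rw [e]
  exact (M' φ).sub_mem (subset_span ⟨g, rfl⟩) (subset_span ⟨h, rfl⟩)

lemma one_add_pow {y : A} (hy : y * y = 0) (n : ℕ) : (1 + y) ^ n = 1 + n • y := by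
  induction n with
  | zero => simp
  | succ n ih =>
    rw [pow_succ, ih, add_mul, one_mul, mul_add, mul_one, smul_mul_assoc, hy, smul_zero, add_zero,
      succ_nsmul]
    abel

lemma sq_zero (hG : IsPGroup p G)
    (hnil : ∀ x ∈ M' φ, IsNilpotent x → ∃ g, φ g = 1 + x) {y : A} (hy : y ∈ M' φ)
    (hy2 : y * y = 0) : y ∈ t p A := by
  obtain ⟨k, hk⟩ := hnil y hy ⟨2, by rw [pow_two, hy2]⟩
  obtain ⟨n, hn⟩ := hG k
  refine ⟨n, ?_⟩
  have h1 : φ (k ^ p ^ n) = 1 := by rw [hn, map_one]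
  rw [map_pow, hk, one_add_pow hy2] at h1
  exact add_eq_left.1 h1

lemma tors1 (hG : IsPGroup p G)
    (hnil : ∀ x ∈ M' φ, IsNilpotent x → ∃ g, φ g = 1 + x) (g h : G) (n : ℕ) (hn : g ^ n = 1) :
    (φ g - 1) * φ h * (∑ i ∈ Finset.range n, φ g ^ i) ∈ t p A := by
  have hgn : φ g ^ n = 1 := by rw [← map_pow, hn, map_one]
  apply sq_zero hG hnil
  · rw [Finset.mul_sum]
    refine Submodule.sum_mem _ fun i _ => ?_
    have e : (φ g - 1) * φ h * φ g ^ i = φ (g * h * g ^ i) - φ (h * g ^ i) := by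
      simp only [map_mul, map_pow]
      noncomm_ring
    rw [e]
    exact sub_mem _ _
  · set S := ∑ i ∈ Finset.range n, φ g ^ i with hS
    have h0 : S * (φ g - 1) = 0 := by rw [hS, geom_sum_mul, hgn, sub_self]
    calc (φ g - 1) * φ h * S * ((φ g - 1) * φ h * S)
        = (φ g - 1) * φ h * (S * (φ g - 1)) * φ h * S := by simp only [mul_assoc]
      _ = 0 := by rw [h0]; simp

lemma tors2 (hG : IsPGroup p G)
    (hnil : ∀ x ∈ M' φ, IsNilpotent x → ∃ g, φ g = 1 + x) (g h : G) (n : ℕ) (hn : g ^ n = 1) :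
    (∑ i ∈ Finset.range n, φ g ^ i) * φ h * (φ g - 1) ∈ t p A := by
  have hgn : φ g ^ n = 1 := by rw [← map_pow, hn, map_one]
  apply sq_zero hG hnil
  · rw [Finset.sum_mul, Finset.sum_mul]
    refine Submodule.sum_mem _ fun i _ => ?_
    have e : φ g ^ i * φ h * (φ g - 1) = φ (g ^ i * h * g) - φ (g ^ i * h) := by
      simp only [map_mul, map_pow]
      noncomm_ring
    rw [e]
    exact sub_mem _ _
  · set S := ∑ i ∈ Finset.range n, φ g ^ i with hS
    have h0 : (φ g - 1) * S = 0 := by rw [hS, mul_geom_sum, hgn, sub_self]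
    calc S * φ h * (φ g - 1) * (S * φ h * (φ g - 1))
        = S * φ h * ((φ g - 1) * S) * φ h * (φ g - 1) := by simp only [mul_assoc]
      _ = 0 := by rw [h0]; simp

/-- all the elements `φ g - 1` are `p`-torsion -/
lemma all_tors (hRP : S_RP.{u}) (hp : p.Prime) (hG : IsPGroup p G) (hperf : commutator G = ⊤)
    (hlf : ∀ s : Set G, s.Finite → ((Subgroup.closure s : Subgroup G) : Set G).Finite)
    (hnil : ∀ x ∈ M' φ, IsNilpotent x → ∃ g, φ g = 1 + x) (g : G) : φ g - 1 ∈ t p A := by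
  let ψ : G →* A ⧸ t p A := (Ideal.Quotient.mk (t p A) : A →* A ⧸ t p A).comp φ
  have hψ : ∀ g, ψ g = Ideal.Quotient.mk (t p A) (φ g) := fun _ => rfl
  have h1 : ∀ a b c d : G, ψ ⁅⁅a, b⁆, ⁅c, d⁆⁆ = 1 := by
    intro a b c d
    have hfin : (({a, b, c, d} : Set G)).Finite := Set.toFinite _
    set P : Subgroup G := Subgroup.closure {a, b, c, d} with hP
    have hPf : Finite P := hlf _ hfin
    have hPp : IsPGroup p P := hG.to_subgroup P
    have hsub : ({a, b, c, d} : Set G) ⊆ P := Subgroup.subset_closure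
    have hcard : ∀ g : P, (g : G) ^ Nat.card P = 1 := by
      intro g
      have : g ^ Nat.card P = 1 := pow_card_eq_one'
      exact_mod_cast congrArg Subtype.val this
    have := hRP p hp P hPp (A ⧸ t p A) notors (ψ.comp P.subtype) (by
      intro g h
      have h3 := tors1 hG hnil (g : G) (h : G) _ (hcard g)
      rw [← Ideal.Quotient.eq_zero_iff_mem] at h3
      rw [map_mul, map_mul, map_sub, map_sum, map_one] at h3
      simp only [map_pow] at h3
      exact h3) (by
      intro g h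
      have h3 := tors2 hG hnil (g : G) (h : G) _ (hcard g)
      rw [← Ideal.Quotient.eq_zero_iff_mem] at h3
      rw [map_mul, map_mul, map_sub, map_sum, map_one] at h3
      simp only [map_pow] at h3
      exact h3)
      ⟨a, hsub (by simp)⟩ ⟨b, hsub (by simp)⟩ ⟨c, hsub (by simp)⟩ ⟨d, hsub (by simp)⟩
    exact this
  have h2 := triv hperf ψ.toHomUnits (by
    intro a b c d
    apply Units.ext
    exact h1 a b c d) g
  have h3 : ψ g = 1 := by
    have := congrArg Units.val h2
    exact this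
  rw [← Ideal.Quotient.eq_zero_iff_mem, map_sub, map_one, sub_eq_zero]
  exact h3

lemma mul_le : M' φ * M' φ ≤ M' φ := by
  unfold M'
  rw [Submodule.span_mul_span, span_le]
  rintro _ ⟨_, ⟨g, rfl⟩, _, ⟨h, rfl⟩, rfl⟩
  have e : (fun g => φ g - 1) g * (fun g => φ g - 1) h = (φ (g * h) - φ g) - (φ h - φ 1) := by
    simp only [map_mul, map_one]
    noncomm_ring
  show (fun g => φ g - 1) g * (fun g => φ g - 1) h ∈ _
  rw [e]
  exact (M' φ).sub_mem (sub_mem _ _) (sub_mem _ _)

/-- local nilpotency -/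
lemma loc_nil (hNP : S_NP.{u}) (hp : p.Prime) (hG : IsPGroup p G)
    (hlf : ∀ s : Set G, s.Finite → ((Subgroup.closure s : Subgroup G) : Set G).Finite)
    (ht : ∀ g, φ g - 1 ∈ t p A) (S : Set A) (hS : S.Finite) (hSM : S ⊆ M' φ) :
    ∃ n : ℕ, (span ℤ S) ^ n = ⊥ := by
  classical
  obtain ⟨T, hT1, hT2⟩ := subset_span_finite_of_subset_span (t := hS.toFinset)
    (s := Set.range fun g => φ g - 1) (R := ℤ) (by rw [Set.Finite.coe_toFinset]; exact hSM)
  obtain ⟨F, hF⟩ : ∃ F : Finset G, F.image (fun g => φ g - 1) = T := by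
    have := Finset.subset_set_image_iff (s := Set.univ) (t := T) (f := fun g : G => φ g - 1)
    obtain ⟨F, _, hF⟩ := this.1 (by rwa [Set.image_univ])
    exact ⟨F, hF⟩
  set P : Subgroup G := Subgroup.closure (F : Set G) with hP
  have hPf : Finite P := hlf _ (Finset.finite_toSet F)
  have hPp : IsPGroup p P := hG.to_subgroup P
  obtain ⟨n, hn⟩ := hNP p hp P hPp A (φ.comp P.subtype) (fun g => ht g)
  refine ⟨n, ?_⟩
  rw [eq_bot_iff, ← hn]
  refine pow_le_pow_left' ?_ n
  rw [span_le]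
  intro x hx
  have h1 : x ∈ span ℤ (T : Set A) := hT2 (by simpa using hx)
  refine span_mono ?_ h1
  intro y hy
  rw [← hF] at hy
  obtain ⟨g, hg, rfl⟩ := Finset.mem_image.1 (Finset.mem_coe.1 hy)
  exact ⟨⟨g, Subgroup.subset_closure hg⟩, rfl⟩

/-- passage to a subring in which the span is an ideal -/
lemma core {B : Type u} [Ring B] (ι : B →+* A) (hι : Function.Injective ι)
    (hB : ∀ b : B, ∃ k : ℤ, ι b - k ∈ M' φ)
    (hnil : ∀ x ∈ M' φ, IsNilpotent x → ∃ g, φ g = 1 + x)
    (ht : ∀ g, φ g - 1 ∈ t p A)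
    (hloc : ∀ S : Set A, S.Finite → S ⊆ M' φ → ∃ n : ℕ, (span ℤ S) ^ n = ⊥)
    {K : Type u} [Group K] (χ : K →* B) (π : G →* K) (hχ : Function.Injective χ)
    (hπ : Function.Surjective π) (hc : ∀ g, ι (χ (π g)) = φ g) :
    Adj p ((M' φ).comap ι.toIntAlgHom.toLinearMap) χ := by
  have hmem : ∀ b : B, b ∈ (M' φ).comap ι.toIntAlgHom.toLinearMap ↔ ι b ∈ M' φ :=
    fun b => Iff.rfl
  have htor : ∀ x ∈ M' φ, x ∈ t p A := by
    intro x hx
    refine Submodule.span_induction ?_ (Ideal.zero_mem _) (fun x y _ _ hx hy => Ideal.add_mem _ hx hy)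
      (fun a x _ hx => ?_) hx
    · rintro _ ⟨g, rfl⟩
      exact ht g
    · exact zsmul_mem hx a
  constructor
  · rw [Submodule.mul_le]
    intro b _ m hm
    rw [hmem] at hm ⊢
    obtain ⟨k, hk⟩ := hB b
    have e : ι (b * m) = k • ι m + (ι b - k) * ι m := by
      rw [map_mul, zsmul_eq_mul]; noncomm_ring
    rw [e]
    exact (M' φ).add_mem ((M' φ).smul_mem _ hm) (mul_le (Submodule.mul_mem_mul hk hm))
  · rw [Submodule.mul_le]
    intro m hm b _
    rw [hmem] at hm ⊢
    obtain ⟨k, hk⟩ := hB b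
    have e : ι (m * b) = k • ι m + ι m * (ι b - k) := by
      rw [map_mul, zsmul_eq_mul, mul_sub, ← Int.cast_comm k (ι m)]; abel
    rw [e]
    exact (M' φ).add_mem ((M' φ).smul_mem _ hm) (mul_le (Submodule.mul_mem_mul hm hk))
  · exact hχ
  · intro g
    obtain ⟨g, rfl⟩ := hπ g
    rw [hmem, map_sub, map_one, hc]
    exact subset_span ⟨g, rfl⟩
  · intro x hx
    rw [hmem] at hx
    obtain ⟨n, hn⟩ := hloc {ι x} (Set.finite_singleton _) (by simpa using hx)
    have h1 : IsNilpotent (ι x) := by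
      refine ⟨n, ?_⟩
      have := Submodule.pow_mem_pow (span ℤ {ι x}) (Submodule.mem_span_singleton_self (ι x)) n
      rwa [hn, Submodule.mem_bot] at this
    obtain ⟨g, hg⟩ := hnil _ hx h1
    refine ⟨π g, hι ?_⟩
    rw [hc, hg, map_add, map_one]
  · intro S hS hSM
    obtain ⟨n, hn⟩ := hloc (ι '' S) (hS.image _) (by
      rintro _ ⟨x, hx, rfl⟩
      exact hSM hx)
    refine ⟨n, ?_⟩
    have e : Submodule.map ι.toIntAlgHom.toLinearMap ((span ℤ S) ^ n) = ⊥ := by
      rw [Submodule.map_pow, Submodule.map_span]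
      exact hn
    rw [eq_bot_iff]
    intro x hx
    have h2 : ι x ∈ Submodule.map ι.toIntAlgHom.toLinearMap ((span ℤ S) ^ n) := ⟨x, hx, rfl⟩
    rw [e, Submodule.mem_bot] at h2
    rw [Submodule.mem_bot]
    exact hι (by rw [h2, map_zero])
  · intro x hx
    obtain ⟨n, hn⟩ := htor _ hx
    refine ⟨n, hι ?_⟩
    rw [map_nsmul, map_zero]
    exact hn

/-- the subring `ℤ + M'` -/
def B (φ : G →* A) : Subring A where
  carrier := {a | ∃ k : ℤ, a - k ∈ M' φ}
  mul_mem' := by
    rintro a b ⟨k, hk⟩ ⟨l, hl⟩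
    refine ⟨k * l, ?_⟩
    have e : a * b - ((k * l : ℤ) : A) = (a - k) * (b - l) + k • (b - l) + l • (a - k) := by
      rw [zsmul_eq_mul, zsmul_eq_mul, Int.cast_mul, mul_sub, mul_sub, mul_sub, sub_mul, sub_mul,
        Int.cast_comm l a, Int.cast_comm l (k : A)]
      abel
    rw [e]
    exact (M' φ).add_mem ((M' φ).add_mem (mul_le (Submodule.mul_mem_mul hk hl))
      ((M' φ).smul_mem _ hl)) ((M' φ).smul_mem _ hk)
  one_mem' := ⟨1, by simp⟩
  add_mem' := by
    rintro a b ⟨k, hk⟩ ⟨l, hl⟩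
    refine ⟨k + l, ?_⟩
    have e : a + b - ((k + l : ℤ) : A) = (a - k) + (b - l) := by
      rw [Int.cast_add]; abel
    rw [e]
    exact (M' φ).add_mem hk hl
  zero_mem' := ⟨0, by simp⟩
  neg_mem' := by
    rintro a ⟨k, hk⟩
    refine ⟨-k, ?_⟩
    have e : -a - ((-k : ℤ) : A) = -(a - k) := by
      rw [Int.cast_neg]; abel
    rw [e]
    exact (M' φ).neg_mem hk

lemma mem_B (g : G) : φ g ∈ B φ := ⟨1, by rw [Int.cast_one]; exact subset_span ⟨g, rfl⟩⟩

end AS

theorem blk_AS (hRP : S_RP.{u}) (hNP : S_NP.{u}) : S_AS.{u} := by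
  intro p hp G _ hG hperf hlf A _ φ hφ hnil
  have ht : ∀ g, φ g - 1 ∈ AS.t p A := fun g => AS.all_tors hRP hp hG hperf hlf hnil g
  have hloc := AS.loc_nil hNP hp hG hlf ht
  let K : Subgroup Aˣ := φ.toHomUnits.range
  have hK : ∀ k : K, ((k : Aˣ) : A) ∈ AS.B φ := by
    rintro ⟨_, g, rfl⟩
    exact AS.mem_B g
  let χ : K →* AS.B φ :=
    { toFun := fun k => ⟨((k : Aˣ) : A), hK k⟩
      map_one' := by apply Subtype.ext; simp
      map_mul' := by intro a b; apply Subtype.ext; simp }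
  let π : G →* K := φ.toHomUnits.rangeRestrict
  have hπ : Function.Surjective π := φ.toHomUnits.rangeRestrict_surjective
  refine ⟨AS.B φ, inferInstance, (AS.M' φ).comap (AS.B φ).subtype.toIntAlgHom.toLinearMap, K,
    inferInstance, χ, π, ?_, ?_, hπ⟩
  · refine AS.core (AS.B φ).subtype Subtype.val_injective (fun b => b.2) hnil ht hloc χ π ?_ hπ
      (fun g => rfl)
    intro a b hab
    apply Subtype.ext
    apply Units.ext
    exact congrArg Subtype.val hab
  · intro hbot
    obtain ⟨g, hg⟩ := hφ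
    apply hg
    have h1 : (⟨φ g - 1, (AS.B φ).sub_mem (AS.mem_B g) (AS.B φ).one_mem⟩ : AS.B φ) ∈
        (AS.M' φ).comap (AS.B φ).subtype.toIntAlgHom.toLinearMap := by
      show φ g - 1 ∈ AS.M' φ
      exact subset_span ⟨g, rfl⟩
    rw [hbot, Submodule.mem_bot] at h1
    exact sub_eq_zero.1 (congrArg Subtype.val h1)

end Pool.Agent.Work.MP_3fbbd3_adj
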