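import Pool.Agent.Work.MP_3fbbd3_adj.Def2

/-!
# Block RP: finite `p`-groups of units whose cyclic subgroups have central sums
-/

namespace Pool.Agent.Work.MP_3fbbd3_adj

open scoped commutatorElement

universe u v

namespace RP

variable {P : Type u} [Group P] {R : Type v} [Ring R] (ψ : P →* R) {p : ℕ}

/-- the sum of the powers of an element -/
noncomputable def s (g : P) : R := ∑ i ∈ Finset.range (Nat.card P), ψ g ^ i

lemma notors (hR : ∀ x : R, p • x = 0 → x = 0) (k : ℕ) : ∀ x : R, p ^ k • x = 0 → x = 0 := by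
  induction k with
  | zero => intro x hx; simpa using hx
  | succ k ih =>
    intro x hx
    apply hR
    apply ih
    rw [← mul_smul, ← pow_succ]
    exact hx

variable {ψ}

lemma mul_s (h1 : ∀ g h : P, (ψ g - 1) * ψ h * s ψ g = 0) (g h : P) :
    ψ g * (ψ h * s ψ g) = ψ h * s ψ g := by
  have := h1 g h
  rw [sub_mul, sub_mul, one_mul, sub_eq_zero, mul_assoc] at this
  exact this

lemma pow_mul_s (h1 : ∀ g h : P, (ψ g - 1) * ψ h * s ψ g = 0) (g h : P) (i : ℕ) :
    ψ g ^ i * (ψ h * s ψ g) = ψ h * s ψ g := by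
  induction i with
  | zero => simp
  | succ i ih => rw [pow_succ, mul_assoc, mul_s h1, ih]

lemma s_mul_mul_s (h1 : ∀ g h : P, (ψ g - 1) * ψ h * s ψ g = 0) (g h : P) :
    s ψ g * (ψ h * s ψ g) = Nat.card P • (ψ h * s ψ g) := by
  have key : ∀ y : R, s ψ g * y = ∑ i ∈ Finset.range (Nat.card P), ψ g ^ i * y :=
    fun y => by rw [s, Finset.sum_mul]
  rw [key, Finset.sum_congr rfl fun i _ => pow_mul_s h1 g h i]
  simp

lemma s_mul (h2 : ∀ g h : P, s ψ g * ψ h * (ψ g - 1) = 0) (g h : P) :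
    s ψ g * ψ h * ψ g = s ψ g * ψ h := by
  have := h2 g h
  rw [mul_sub, mul_one, sub_eq_zero] at this
  exact this

lemma s_mul_pow (h2 : ∀ g h : P, s ψ g * ψ h * (ψ g - 1) = 0) (g h : P) (i : ℕ) :
    s ψ g * ψ h * ψ g ^ i = s ψ g * ψ h := by
  induction i with
  | zero => simp
  | succ i ih => rw [pow_succ, ← mul_assoc, ih, s_mul h2]

lemma s_mul_mul_s' (h2 : ∀ g h : P, s ψ g * ψ h * (ψ g - 1) = 0) (g h : P) :
    s ψ g * ψ h * s ψ g = Nat.card P • (s ψ g * ψ h) := by
  have key : ∀ y : R, y * s ψ g = ∑ i ∈ Finset.range (Nat.card P), y * ψ g ^ i :=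
    fun y => by rw [s, Finset.mul_sum]
  rw [key, Finset.sum_congr rfl fun i _ => s_mul_pow h2 g h i]
  simp

lemma s_comm (h1 : ∀ g h : P, (ψ g - 1) * ψ h * s ψ g = 0)
    (h2 : ∀ g h : P, s ψ g * ψ h * (ψ g - 1) = 0)
    (hn : ∀ x : R, Nat.card P • x = 0 → x = 0) (g h : P) :
    s ψ g * ψ h = ψ h * s ψ g := by
  rw [← sub_eq_zero]
  apply hn
  rw [smul_sub, ← s_mul_mul_s h1, ← s_mul_mul_s' h2, mul_assoc, sub_self]

lemma s_comm_s (h1 : ∀ g h : P, (ψ g - 1) * ψ h * s ψ g = 0)
    (h2 : ∀ g h : P, s ψ g * ψ h * (ψ g - 1) = 0)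
    (hn : ∀ x : R, Nat.card P • x = 0 → x = 0) (g h : P) :
    s ψ g * s ψ h = s ψ h * s ψ g := by
  have h3 : ∀ i : ℕ, s ψ g * ψ h ^ i = ψ h ^ i * s ψ g := by
    intro i
    rw [← map_pow]
    exact s_comm h1 h2 hn g _
  conv_lhs => rw [s.eq_def ψ h, Finset.mul_sum]
  rw [Finset.sum_congr rfl fun i _ => h3 i, ← Finset.sum_mul]
  rfl

lemma s_sq (h1 : ∀ g h : P, (ψ g - 1) * ψ h * s ψ g = 0) (g : P) :
    s ψ g * s ψ g = Nat.card P • s ψ g := by
  have := s_mul_mul_s h1 g 1
  simpa using this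

lemma exists_f [Finite P] (h1 : ∀ g h : P, (ψ g - 1) * ψ h * s ψ g = 0)
    (h2 : ∀ g h : P, s ψ g * ψ h * (ψ g - 1) = 0)
    (hn : ∀ x : R, Nat.card P • x = 0 → x = 0) (x : R) (hx : x ≠ 0) (S : Finset P) :
    ∃ f : R, f * x ≠ 0 ∧ (∀ h, f * ψ h = ψ h * f) ∧
      ∀ g ∈ S, (ψ g * f = f) ∨ (s ψ g * f = 0) := by
  classical
  induction S using Finset.induction_on with
  | empty => exact ⟨1, by simpa using hx, by simp, by simp⟩
  | insert g S _ ih =>
    obtain ⟨f, hf, hc, hS⟩ := ih
    by_cases h0 : s ψ g * f * x = 0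
    · refine ⟨Nat.card P • f - s ψ g * f, ?_, ?_, ?_⟩
      · rw [sub_mul, h0, sub_zero, smul_mul_assoc]
        intro h
        exact hf (hn _ h)
      · intro h
        rw [sub_mul, mul_sub, smul_mul_assoc, mul_smul_comm, hc, mul_assoc, hc, ← mul_assoc,
          s_comm h1 h2 hn, mul_assoc]
      · intro g' hg'
        rcases Finset.mem_insert.1 hg' with rfl | hg'
        · right
          rw [mul_sub, mul_smul_comm, ← mul_assoc, s_sq h1, smul_mul_assoc, sub_self]
        · rcases hS g' hg' with h | h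
          · left
            rw [mul_sub, mul_smul_comm, h, ← mul_assoc, ← s_comm h1 h2 hn, mul_assoc, h]
          · right
            rw [mul_sub, mul_smul_comm, h, ← mul_assoc, s_comm_s h1 h2 hn, mul_assoc, h]
            simp
    · refine ⟨s ψ g * f, h0, ?_, ?_⟩
      · intro h
        rw [mul_assoc, hc, ← mul_assoc, s_comm h1 h2 hn, mul_assoc]
      · intro g' hg'
        rcases Finset.mem_insert.1 hg' with rfl | hg'
        · left
          have := mul_s h1 g' 1
          rw [map_one, one_mul] at this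
          rw [← mul_assoc, this]
        · rcases hS g' hg' with h | h
          · left
            rw [← mul_assoc, ← s_comm h1 h2 hn, mul_assoc, h]
          · right
            rw [← mul_assoc, s_comm_s h1 h2 hn, mul_assoc, h, mul_zero]

/-- the elements acting trivially on `f` -/
def N (ψ : P →* R) (f : R) : Subgroup P where
  carrier := {g | ψ g * f = f}
  one_mem' := by simp
  mul_mem' := by
    intro a b ha hb
    have ha' : ψ a * f = f := ha
    have hb' : ψ b * f = f := hb
    show ψ (a * b) * f = f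
    rw [map_mul, mul_assoc, hb', ha']
  inv_mem' := by
    intro a ha
    have ha' : ψ a * f = f := ha
    show ψ a⁻¹ * f = f
    have h : ψ a⁻¹ * (ψ a * f) = f := by
      rw [← mul_assoc, ← map_mul, inv_mul_cancel, map_one, one_mul]
    rwa [ha'] at h

lemma mem_N (ψ : P →* R) (f : R) (g : P) : g ∈ N ψ f ↔ ψ g * f = f := Iff.rfl

lemma N_normal (f : R) (hc : ∀ h, f * ψ h = ψ h * f) : (N ψ f).Normal := by
  constructor
  intro g hg h
  have hg' : ψ g * f = f := hg
  show ψ (h * g * h⁻¹) * f = f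
  rw [map_mul, mul_assoc, ← hc, map_mul, ← mul_assoc, mul_assoc (ψ h), hg', ← hc, mul_assoc,
    ← map_mul, mul_inv_cancel, map_one, mul_one]

lemma sum_range_mul_add (F : ℕ → R) (q : ℕ) (hF : ∀ i, F (q + i) = F i) (m : ℕ) :
    ∑ i ∈ Finset.range (q * m), F i = m • ∑ i ∈ Finset.range q, F i := by
  have hF2 : ∀ m i : ℕ, F (q * m + i) = F i := by
    intro m
    induction m with
    | zero => simp
    | succ m ih =>
      intro i
      rw [mul_add, mul_one, add_assoc, ih, hF]
  induction m with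
  | zero => simp
  | succ m ih =>
    rw [mul_add, mul_one, Finset.sum_range_add, ih, Finset.sum_congr rfl fun i _ => hF2 m i,
      succ_nsmul]

end RP

theorem blk_RP (hGT : S_GT.{u}) : S_RP.{u} := by
  intro p hp P _ _ hP R _ hR ψ h1 h2 a b c d
  classical
  have := Fact.mk hp
  obtain ⟨k, hk⟩ := IsPGroup.iff_card.1 hP
  have hn : ∀ x : R, Nat.card P • x = 0 → x = 0 := by
    rw [hk]; exact RP.notors hR k
  by_contra hx
  have hx' : ψ ⁅⁅a, b⁆, ⁅c, d⁆⁆ - 1 ≠ 0 := sub_ne_zero.2 hx
  have := Fintype.ofFinite P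
  obtain ⟨f, hf, hc, hS⟩ := RP.exists_f (ψ := ψ) h1 h2 hn _ hx' Finset.univ
  have hf0 : f ≠ 0 := by rintro rfl; simp at hf
  set N := RP.N ψ f with hN
  have hNn : N.Normal := RP.N_normal f hc
  have hQ : IsPGroup p (P ⧸ N) := hP.to_quotient N
  -- the function on the quotient
  have hwd : ∀ x y : P, (QuotientGroup.mk x : P ⧸ N) = QuotientGroup.mk y → ψ x * f = ψ y * f := by
    intro x y hxy
    rw [QuotientGroup.eq] at hxy
    have h3 : ψ (x⁻¹ * y) * f = f := hxy
    calc ψ x * f = ψ x * (ψ (x⁻¹ * y) * f) := by rw [h3]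
      _ = ψ y * f := by rw [← mul_assoc, ← map_mul, mul_inv_cancel_left]
  let F : P ⧸ N → R := fun q => ψ q.out * f
  have hF : ∀ x : P, F (QuotientGroup.mk x) = ψ x * f := fun x => hwd _ _ (by simp)
  have hF1 : F 1 = f := by
    have := hF 1
    rw [map_one, one_mul] at this
    exact this
  have hFmul : ∀ (q : P ⧸ N) (y : P), F (q * QuotientGroup.mk y) = F q * ψ y := by
    intro q y
    obtain ⟨x, rfl⟩ := QuotientGroup.mk_surjective q
    rw [← QuotientGroup.mk_mul, hF, hF, map_mul, mul_assoc, ← hc, mul_assoc]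
  have hsum : ∀ q : P ⧸ N, q ≠ 1 → q ^ p = 1 → ∑ i ∈ Finset.range p, F (q ^ i) = 0 := by
    intro q hq hqp
    obtain ⟨g, rfl⟩ := QuotientGroup.mk_surjective q
    have hgN : ¬ ψ g * f = f := by
      intro h
      apply hq
      rw [QuotientGroup.eq_one_iff]
      exact h
    have hs : RP.s ψ g * f = 0 := by
      rcases hS g (Finset.mem_univ g) with h | h
      · exact absurd h hgN
      · exact h
    have hs2 : ∑ i ∈ Finset.range (Nat.card P), F ((QuotientGroup.mk g : P ⧸ N) ^ i) = 0 := by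
      rw [← hs, RP.s, Finset.sum_mul]
      refine Finset.sum_congr rfl fun i _ => ?_
      rw [← QuotientGroup.mk_pow, hF, map_pow]
    rcases k with _ | k
    · exfalso
      rw [hk, pow_zero, Finset.sum_range_one, pow_zero, hF1] at hs2
      exact hf0 hs2
    · have e : Nat.card P = p * p ^ k := by rw [hk, pow_succ']
      rw [e, RP.sum_range_mul_add (fun i => F ((QuotientGroup.mk g : P ⧸ N) ^ i)) p (by
        intro i
        show F _ = F _
        rw [pow_add, hqp, one_mul])] at hs2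
      exact RP.notors hR k _ hs2
  have key := hGT p hp (P ⧸ N) hQ (by
    intro u v huv hu hv hu1
    by_contra hno
    push Not at hno
    obtain ⟨b', rfl⟩ := QuotientGroup.mk_surjective v
    have hsum2 : ∀ i ∈ Finset.range p, ∑ j ∈ Finset.range p,
        F ((u ^ i * (QuotientGroup.mk b' : P ⧸ N)) ^ j) = 0 := by
      intro i _
      apply hsum _ (hno i)
      rw [(huv.pow_left i).mul_pow, hv, ← pow_mul, mul_comm i p, pow_mul, hu, one_pow, one_mul]
    have h0 : ∑ j ∈ Finset.range p, ∑ i ∈ Finset.range p,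
        F ((u ^ i * (QuotientGroup.mk b' : P ⧸ N)) ^ j) = 0 := by
      rw [Finset.sum_comm]
      exact Finset.sum_eq_zero hsum2
    have hj : ∀ j ∈ Finset.range p, j ≠ 0 → ∑ i ∈ Finset.range p,
        F ((u ^ i * (QuotientGroup.mk b' : P ⧸ N)) ^ j) = 0 := by
      intro j hj hj0
      have hjp : j < p := Finset.mem_range.1 hj
      have e : ∀ i : ℕ, (u ^ i * (QuotientGroup.mk b' : P ⧸ N)) ^ j
          = (u ^ j) ^ i * (QuotientGroup.mk (b' ^ j) : P ⧸ N) := by
        intro i
        rw [(huv.pow_left i).mul_pow, ← pow_mul, ← pow_mul, mul_comm i j, QuotientGroup.mk_pow]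
      rw [Finset.sum_congr rfl fun i _ => by rw [e i, hFmul], ← Finset.sum_mul,
        hsum (u ^ j), zero_mul]
      · intro h
        have hord : orderOf u = p := orderOf_eq_prime hu hu1
        have := orderOf_dvd_of_pow_eq_one h
        rw [hord] at this
        exact absurd (Nat.le_of_dvd (Nat.pos_of_ne_zero hj0) this) (not_le.2 hjp)
      · rw [← pow_mul, mul_comm, pow_mul, hu, one_pow]
    rw [Finset.sum_eq_single 0 (fun j hj' h => hj j hj' h)
      (fun h => absurd (Finset.mem_range.2 hp.pos) h)] at h0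
    simp only [pow_zero, hF1, Finset.sum_const, Finset.card_range] at h0
    exact hf0 (hR _ h0))
  have h4 := key (QuotientGroup.mk a) (QuotientGroup.mk b) (QuotientGroup.mk c)
    (QuotientGroup.mk d)
  have h5 : (QuotientGroup.mk ⁅⁅a, b⁆, ⁅c, d⁆⁆ : P ⧸ N) = 1 := by
    rw [← h4]
    simp only [commutatorElement_def, QuotientGroup.mk_mul, QuotientGroup.mk_inv]
  rw [QuotientGroup.eq_one_iff] at h5
  have h6 : ψ ⁅⁅a, b⁆, ⁅c, d⁆⁆ * f = f := h5
  apply hf
  rw [mul_sub, mul_one, hc, h6, sub_self]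

end Pool.Agent.Work.MP_3fbbd3_adj
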