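import Pool.Agent.Work.MP_3fbbd3_adj.Def3
import Pool.Agent.Work.MP_3fbbd3_adj.AS
import Pool.Agent.Work.MP_3fbbd3_adj.RP

/-!
# Block TOR: subnormal subgroups of unit groups, the torsion step
-/

namespace Pool.Agent.Work.MP_3fbbd3_adj

open Submodule

open scoped commutatorElement

universe u v

namespace TOR

/-- iterated commutators go down a subnormal chain -/
lemma sub_chain {Γ : Type u} [Group Γ] {H : Subgroup Γ} (hH : H.IsSubnormal) :
    ∃ n : ℕ, ∀ g ∈ H, ∀ c : Γ, (fun x => ⁅x, g⁆)^[n] c ∈ H := by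
  induction hH with
  | top => exact ⟨0, fun g _ c => Subgroup.mem_top _⟩
  | step H K hle _ hN ih =>
    obtain ⟨n, hn⟩ := ih
    refine ⟨n + 1, ?_⟩
    intro g hg c
    rw [Function.iterate_succ_apply']
    have h1 := hn g (hle hg) c
    set z := (fun x => ⁅x, g⁆)^[n] c with hz
    have h2 := hN.conj_mem ⟨g, hle hg⟩ (by rw [Subgroup.mem_subgroupOf]; exact hg) ⟨z, h1⟩
    rw [Subgroup.mem_subgroupOf] at h2
    have h3 : z * g * z⁻¹ ∈ H := by simpa using h2
    show ⁅z, g⁆ ∈ H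
    rw [commutatorElement_def]
    exact H.mul_mem h3 (H.inv_mem hg)

variable {A : Type v} [Ring A]

/-- the commutator of `1 + y` and `g` if `y g = y` -/
lemma comm_r (c g : Aˣ) (y : A) (hc : (c : A) = 1 + y) (hy : y * y = 0) (hg : y * g = y) :
    ((⁅c, g⁆ : Aˣ) : A) = 1 + (1 - (g : A)) * y := by
  have e : ⁅c, g⁆ * (g * c) = c * g := by rw [commutatorElement_def]; group
  have e2 : ((⁅c, g⁆ : Aˣ) : A) * ((g * c : Aˣ) : A) = (c : A) * g := by
    rw [← Units.val_mul, e, Units.val_mul]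
  have e3 : (1 + (1 - (g : A)) * y) * ((g * c : Aˣ) : A) = (c : A) * g := by
    rw [Units.val_mul, hc]
    have h1 : (1 - (g : A)) * y * g = (1 - (g : A)) * y := by rw [mul_assoc, hg]
    calc (1 + (1 - (g : A)) * y) * ((g : A) * (1 + y))
        = (g + (1 - (g : A)) * y * g) * (1 + y) := by rw [← mul_assoc, add_mul, one_mul]
      _ = (g + (1 - (g : A)) * y) * (1 + y) := by rw [h1]
      _ = g + y + (1 - (g : A)) * (y * y) := by noncomm_ring
      _ = (1 + y) * g := by rw [hy, mul_zero, add_zero, add_mul, one_mul, hg]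
  exact (Units.mul_left_inj (g * c)).1 (e2.trans e3.symm)

/-- the commutator of `1 + y` and `g` if `g y = y` -/
lemma comm_l (c g : Aˣ) (y : A) (hc : (c : A) = 1 + y) (hy : y * y = 0) (hg : g * y = y) :
    ((⁅c, g⁆ : Aˣ) : A) = 1 + y * (1 - ((g⁻¹ : Aˣ) : A)) := by
  have e : ⁅c, g⁆ * (g * c) = c * g := by rw [commutatorElement_def]; group
  have e2 : ((⁅c, g⁆ : Aˣ) : A) * ((g * c : Aˣ) : A) = (c : A) * g := by
    rw [← Units.val_mul, e, Units.val_mul]
  have hgi : ((g⁻¹ : Aˣ) : A) * g = 1 := Units.inv_mul g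
  have e3 : (1 + y * (1 - ((g⁻¹ : Aˣ) : A))) * ((g * c : Aˣ) : A) = (c : A) * g := by
    rw [Units.val_mul, hc]
    calc (1 + y * (1 - ((g⁻¹ : Aˣ) : A))) * ((g : A) * (1 + y))
        = (g + y * g - y * (((g⁻¹ : Aˣ) : A) * g)) * (1 + y) := by noncomm_ring
      _ = (g + y * g - y) * (1 + y) := by rw [hgi, mul_one]
      _ = g + g * y + y * g + y * (g * y) - y - y * y := by noncomm_ring
      _ = (1 + y) * g := by rw [hg, hy]; noncomm_ring
  exact (Units.mul_left_inj (g * c)).1 (e2.trans e3.symm)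

lemma iter_r (c g : Aˣ) (y : A) (hc : (c : A) = 1 + y) (hy : y * y = 0) (hg : y * g = y)
    (j : ℕ) : (((fun x : Aˣ => ⁅x, g⁆)^[j] c : Aˣ) : A) = 1 + (1 - (g : A)) ^ j * y := by
  induction j with
  | zero => simpa using hc
  | succ j ih =>
    rw [Function.iterate_succ_apply']
    have h1 : (1 - (g : A)) ^ j * y * g = (1 - (g : A)) ^ j * y := by rw [mul_assoc, hg]
    have h0 : ∀ i : ℕ, y * (1 - (g : A)) ^ i * y = 0 := by
      intro i
      cases i with
      | zero => simpa using hy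
      | succ i => rw [pow_succ', ← mul_assoc, mul_sub, mul_one, hg, sub_self, zero_mul, zero_mul]
    have h2 : (1 - (g : A)) ^ j * y * ((1 - (g : A)) ^ j * y) = 0 := by
      rw [mul_assoc, ← mul_assoc y, h0, mul_zero]
    rw [comm_r _ g _ ih h2 h1, pow_succ', mul_assoc]

lemma iter_l (c g : Aˣ) (y : A) (hc : (c : A) = 1 + y) (hy : y * y = 0) (hg : g * y = y)
    (j : ℕ) : (((fun x : Aˣ => ⁅x, g⁆)^[j] c : Aˣ) : A)
      = 1 + y * (1 - ((g⁻¹ : Aˣ) : A)) ^ j := by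
  have hg' : ((g⁻¹ : Aˣ) : A) * y = y := by
    conv_lhs => rw [← hg]
    rw [← mul_assoc, Units.inv_mul, one_mul]
  induction j with
  | zero => simpa using hc
  | succ j ih =>
    rw [Function.iterate_succ_apply']
    have h1 : g * (y * (1 - ((g⁻¹ : Aˣ) : A)) ^ j) = y * (1 - ((g⁻¹ : Aˣ) : A)) ^ j := by
      rw [← mul_assoc, hg]
    have h0 : ∀ i : ℕ, y * (1 - ((g⁻¹ : Aˣ) : A)) ^ i * y = 0 := by
      intro i
      cases i with
      | zero => simpa using hy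
      | succ i => rw [pow_succ, mul_assoc, mul_assoc, sub_mul, one_mul, hg', sub_self, mul_zero,
          mul_zero]
    have h2 : y * (1 - ((g⁻¹ : Aˣ) : A)) ^ j * (y * (1 - ((g⁻¹ : Aˣ) : A)) ^ j) = 0 := by
      rw [← mul_assoc, h0, zero_mul]
    rw [comm_l _ g _ ih h2 h1, pow_succ, mul_assoc]

/-- descent in a ring without torsion -/
lemma desc_l {R : Type v} [Ring R] {n : ℕ} (hn : ∀ x : R, n • x = 0 → x = 0) (a v : R)
    (ha : a ^ n = 1) (j : ℕ) (h : (a - 1) ^ (j + 1) * v = 0) : (a - 1) * v = 0 := by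
  induction j with
  | zero => simpa using h
  | succ j ih =>
    apply ih
    set w := (a - 1) ^ j * v with hw
    set z := (a - 1) * w with hz
    have hz0 : (a - 1) * z = 0 := by
      rw [hz, hw, ← mul_assoc, ← mul_assoc, ← pow_two, ← pow_add, add_comm 2 j]
      exact h
    have haz : a * z = z := by
      rw [sub_mul, one_mul, sub_eq_zero] at hz0
      exact hz0
    have haw : a * w = w + z := by rw [hz]; noncomm_ring
    have hi : ∀ i : ℕ, a ^ i * w = w + i • z := by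
      intro i
      induction i with
      | zero => simp
      | succ i ih2 =>
        rw [pow_succ', mul_assoc, ih2, mul_add, mul_smul_comm, haz, haw, succ_nsmul]
        abel
    have h1 := hi n
    rw [ha, one_mul] at h1
    have h2 : z = 0 := hn z (left_eq_add.1 h1)
    rw [pow_succ', mul_assoc, ← hw, ← hz, h2]

lemma desc_r {R : Type v} [Ring R] {n : ℕ} (hn : ∀ x : R, n • x = 0 → x = 0) (a v : R)
    (ha : a ^ n = 1) (j : ℕ) (h : v * (a - 1) ^ (j + 1) = 0) : v * (a - 1) = 0 := by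
  have h1 := desc_l (R := Rᵐᵒᵖ) (n := n) (fun x hx => by
    apply MulOpposite.unop_injective
    rw [MulOpposite.unop_zero]
    apply hn
    rw [← MulOpposite.unop_smul, hx, MulOpposite.unop_zero]) (MulOpposite.op a) (MulOpposite.op v)
    (by rw [← MulOpposite.op_pow, ha, MulOpposite.op_one]) j (by
    rw [← MulOpposite.op_one, ← MulOpposite.op_sub, ← MulOpposite.op_pow, ← MulOpposite.op_mul, h,
      MulOpposite.op_zero])
  rw [← MulOpposite.op_one, ← MulOpposite.op_sub, ← MulOpposite.op_mul] at h1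
  exact MulOpposite.op_injective (by rw [h1, MulOpposite.op_zero])

variable {p : ℕ} {B : Type u} [Ring B] {G : Type u} [Group G] (φ : G →* Bˣ) (U : Subgroup Bˣ)

/-- the homomorphism to the ring -/
def φ0 : G →* B := (Units.coeHom B).comp φ

lemma φ0_apply (g : G) : φ0 φ g = ((φ g : Bˣ) : B) := rfl

/-- iterated commutators with an element of the subnormal subgroup -/
lemma chain (hU : φ.range ≤ U) (hS : (φ.range.subgroupOf U).IsSubnormal) :
    ∃ n : ℕ, ∀ (g : G), ∀ c ∈ U, (fun x : Bˣ => ⁅x, φ g⁆)^[n] c ∈ φ.range := by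
  obtain ⟨n, hn⟩ := sub_chain hS
  refine ⟨n, ?_⟩
  intro g c hc
  have hgU : φ g ∈ U := hU ⟨g, rfl⟩
  have h1 := hn ⟨φ g, hgU⟩ (by rw [Subgroup.mem_subgroupOf]; exact ⟨g, rfl⟩) ⟨c, hc⟩
  rw [Subgroup.mem_subgroupOf] at h1
  have h2 : ∀ (j : ℕ), (((fun x : U => ⁅x, (⟨φ g, hgU⟩ : U)⁆)^[j] ⟨c, hc⟩ : U) : Bˣ)
      = (fun x : Bˣ => ⁅x, φ g⁆)^[j] c := by
    intro j
    induction j with
    | zero => rfl
    | succ j ih =>
      rw [Function.iterate_succ_apply', Function.iterate_succ_apply', ← ih]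
      rfl
  rw [h2] at h1
  exact h1

lemma tor_one_add (hG : IsPGroup p G) {y : B} (hy : y * y = 0) (g : G)
    (hg : ((φ g : Bˣ) : B) = 1 + y) : y ∈ AS.t p B := by
  obtain ⟨n, hn⟩ := hG g
  refine ⟨n, ?_⟩
  have h1 : ((φ (g ^ p ^ n) : Bˣ) : B) = 1 := by rw [hn, map_one, Units.val_one]
  rw [map_pow, Units.val_pow_eq_pow_val, hg, AS.one_add_pow hy] at h1
  exact add_eq_left.1 h1

lemma tors1 (hG : IsPGroup p G) (hU : φ.range ≤ U) (hS : (φ.range.subgroupOf U).IsSubnormal)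
    (hnil : ∀ x ∈ AS.M' (φ0 φ), IsNilpotent x → ∃ w ∈ U, ((w : Bˣ) : B) = 1 + x)
    (g h : G) (k : ℕ) (hn : g ^ p ^ k = 1) :
    (φ0 φ g - 1) * φ0 φ h * (∑ i ∈ Finset.range (p ^ k), φ0 φ g ^ i) ∈ AS.t p B := by
  have hgn : φ0 φ g ^ p ^ k = 1 := by rw [← map_pow, hn, map_one]
  obtain ⟨N, hN⟩ := chain φ U hU hS
  set S := ∑ i ∈ Finset.range (p ^ k), φ0 φ g ^ i with hSdef
  have h0 : S * (φ0 φ g - 1) = 0 := by rw [hSdef, geom_sum_mul, hgn, sub_self]
  obtain ⟨y, hy⟩ : ∃ y, y = (φ0 φ g - 1) * φ0 φ h * S := ⟨_, rfl⟩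
  have hyM : y ∈ AS.M' (φ0 φ) := by
    rw [hy, hSdef, Finset.mul_sum]
    refine Submodule.sum_mem _ fun i _ => ?_
    have e : (φ0 φ g - 1) * φ0 φ h * φ0 φ g ^ i = φ0 φ (g * h * g ^ i) - φ0 φ (h * g ^ i) := by
      simp only [map_mul, map_pow]
      noncomm_ring
    rw [e]
    exact AS.sub_mem _ _
  have hy2 : y * y = 0 := by
    calc y * y = (φ0 φ g - 1) * φ0 φ h * S * ((φ0 φ g - 1) * φ0 φ h * S) := by rw [hy]
      _ = (φ0 φ g - 1) * φ0 φ h * (S * (φ0 φ g - 1)) * φ0 φ h * S := by simp only [mul_assoc]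
      _ = 0 := by rw [h0]; simp
  have hyg : y * ((φ g : Bˣ) : B) = y := by
    have h1 : S * φ0 φ g = S := by
      rw [mul_sub, mul_one, sub_eq_zero] at h0
      exact h0
    rw [← φ0_apply, hy, mul_assoc, h1]
  obtain ⟨w, hwU, hw⟩ := hnil y hyM ⟨2, by rw [pow_two, hy2]⟩
  obtain ⟨c, hc⟩ := hN g w hwU
  have h1 := iter_r w (φ g) y hw hy2 hyg N
  rw [← hc] at h1
  have hyz : ∀ i : ℕ, y * (1 - ((φ g : Bˣ) : B)) ^ i * y = 0 := by
    intro i
    cases i with
    | zero => simpa using hy2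
    | succ i => rw [pow_succ', ← mul_assoc, mul_sub, mul_one, hyg, sub_self, zero_mul, zero_mul]
  have h2 : (1 - ((φ g : Bˣ) : B)) ^ N * y ∈ AS.t p B := by
    refine tor_one_add φ hG ?_ c h1
    rw [mul_assoc, ← mul_assoc y, hyz, mul_zero]
  -- pass to the quotient
  have h3 : (φ0 φ g - 1) ^ N * y ∈ AS.t p B := by
    have e : (φ0 φ g - 1) ^ N * y = (-1) ^ N * ((1 - ((φ g : Bˣ) : B)) ^ N * y) := by
      rw [← φ0_apply, ← neg_sub (1 : B) (φ0 φ g), neg_pow, mul_assoc]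
    rw [e]
    exact (AS.t p B).mul_mem_left _ h2
  set q := Ideal.Quotient.mk (AS.t p B) with hq
  rw [← Ideal.Quotient.eq_zero_iff_mem]
  have h4 : q ((φ0 φ g - 1) ^ N * y) = 0 := Ideal.Quotient.eq_zero_iff_mem.2 h3
  have h5 : (q (φ0 φ g) - 1) ^ (N + 1) * (q (φ0 φ h) * q S) = 0 := by
    rw [pow_succ, mul_assoc, ← mul_assoc (q (φ0 φ g) - 1)]
    rw [hy, map_mul, map_pow, map_mul, map_mul, map_sub, map_one] at h4
    exact h4
  have h6 := desc_l (n := p ^ k) (RP.notors (R := B ⧸ AS.t p B) (p := p) AS.notors k) (q (φ0 φ g)) _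
    (by rw [← map_pow, hgn, map_one]) N h5
  rw [map_mul, map_mul, map_sub, map_one, mul_assoc]
  exact h6

lemma tors2 (hG : IsPGroup p G) (hU : φ.range ≤ U) (hS : (φ.range.subgroupOf U).IsSubnormal)
    (hnil : ∀ x ∈ AS.M' (φ0 φ), IsNilpotent x → ∃ w ∈ U, ((w : Bˣ) : B) = 1 + x)
    (g h : G) (k : ℕ) (hn : g ^ p ^ k = 1) :
    (∑ i ∈ Finset.range (p ^ k), φ0 φ g ^ i) * φ0 φ h * (φ0 φ g - 1) ∈ AS.t p B := by
  have hgn : φ0 φ g ^ p ^ k = 1 := by rw [← map_pow, hn, map_one]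
  obtain ⟨N, hN⟩ := chain φ U hU hS
  set S := ∑ i ∈ Finset.range (p ^ k), φ0 φ g ^ i with hSdef
  have h0 : (φ0 φ g - 1) * S = 0 := by rw [hSdef, mul_geom_sum, hgn, sub_self]
  obtain ⟨y, hy⟩ : ∃ y, y = S * φ0 φ h * (φ0 φ g - 1) := ⟨_, rfl⟩
  have hyM : y ∈ AS.M' (φ0 φ) := by
    rw [hy, hSdef, Finset.sum_mul, Finset.sum_mul]
    refine Submodule.sum_mem _ fun i _ => ?_
    have e : φ0 φ g ^ i * φ0 φ h * (φ0 φ g - 1) = φ0 φ (g ^ i * h * g) - φ0 φ (g ^ i * h) := by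
      simp only [map_mul, map_pow]
      noncomm_ring
    rw [e]
    exact AS.sub_mem _ _
  have hy2 : y * y = 0 := by
    calc y * y = S * φ0 φ h * (φ0 φ g - 1) * (S * φ0 φ h * (φ0 φ g - 1)) := by rw [hy]
      _ = S * φ0 φ h * ((φ0 φ g - 1) * S) * φ0 φ h * (φ0 φ g - 1) := by simp only [mul_assoc]
      _ = 0 := by rw [h0]; simp
  have hgS : φ0 φ g * S = S := by
    rw [sub_mul, one_mul, sub_eq_zero] at h0
    exact h0
  have hyg : ((φ g : Bˣ) : B) * y = y := by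
    rw [← φ0_apply, hy, ← mul_assoc, ← mul_assoc, hgS]
  have hyg' : ((φ g)⁻¹ : Bˣ) * y = y := by
    conv_lhs => rw [← hyg]
    rw [← mul_assoc, Units.inv_mul, one_mul]
  obtain ⟨w, hwU, hw⟩ := hnil y hyM ⟨2, by rw [pow_two, hy2]⟩
  obtain ⟨c, hc⟩ := hN g w hwU
  have h1 := iter_l w (φ g) y hw hy2 hyg N
  rw [← hc] at h1
  have hyz : ∀ i : ℕ, y * (1 - (((φ g)⁻¹ : Bˣ) : B)) ^ i * y = 0 := by
    intro i
    cases i with
    | zero => simpa using hy2
    | succ i => rw [pow_succ, mul_assoc, mul_assoc, sub_mul, one_mul, hyg', sub_self, mul_zero,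
        mul_zero]
  have h2 : y * (1 - (((φ g)⁻¹ : Bˣ) : B)) ^ N ∈ AS.t p B := by
    refine tor_one_add φ hG ?_ c h1
    rw [← mul_assoc, hyz, zero_mul]
  -- `1 - g⁻¹ = (g - 1) g⁻¹`
  have hcomm : Commute ((φ0 φ g) - 1) (((φ g)⁻¹ : Bˣ) : B) := by
    rw [φ0_apply]
    have h7 : Commute (((φ g : Bˣ) : B)) (((φ g)⁻¹ : Bˣ) : B) := by
      show ((φ g : Bˣ) : B) * (((φ g)⁻¹ : Bˣ) : B) = (((φ g)⁻¹ : Bˣ) : B) * ((φ g : Bˣ) : B)
      rw [Units.mul_inv, Units.inv_mul]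
    exact h7.sub_left (Commute.one_left _)
  have hinv : (1 - (((φ g)⁻¹ : Bˣ) : B)) = (φ0 φ g - 1) * (((φ g)⁻¹ : Bˣ) : B) := by
    rw [φ0_apply, sub_mul, Units.mul_inv, one_mul]
  have h3 : y * (φ0 φ g - 1) ^ N ∈ AS.t p B := by
    have e : y * (φ0 φ g - 1) ^ N
        = y * (1 - (((φ g)⁻¹ : Bˣ) : B)) ^ N * ((φ g : Bˣ) : B) ^ N := by
      have e2 : (((φ g)⁻¹ : Bˣ) : B) ^ N * ((φ g : Bˣ) : B) ^ N = 1 := by
        rw [← Units.val_pow_eq_pow_val, ← Units.val_pow_eq_pow_val, ← Units.val_mul, inv_pow,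
          inv_mul_cancel, Units.val_one]
      rw [hinv, hcomm.mul_pow, mul_assoc y, mul_assoc ((φ0 φ g - 1) ^ N), e2, mul_one]
    rw [e]
    exact Ideal.mul_mem_right _ _ h2
  set q := Ideal.Quotient.mk (AS.t p B) with hq
  rw [← Ideal.Quotient.eq_zero_iff_mem]
  have h4 : q (y * (φ0 φ g - 1) ^ N) = 0 := Ideal.Quotient.eq_zero_iff_mem.2 h3
  have h5 : (q S * q (φ0 φ h)) * (q (φ0 φ g) - 1) ^ (N + 1) = 0 := by
    rw [pow_succ', ← mul_assoc]
    rw [hy, map_mul, map_pow, map_mul, map_mul, map_sub, map_one] at h4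
    exact h4
  have h6 := desc_r (n := p ^ k) (RP.notors (R := B ⧸ AS.t p B) (p := p) AS.notors k) (q (φ0 φ g)) _
    (by rw [← map_pow, hgn, map_one]) N h5
  rw [map_mul, map_mul, map_sub, map_one]
  exact h6

end TOR

theorem blk_TOR (hRP : S_RP.{u}) : S_TOR.{u} := by
  intro p hp G _ hG hperf hlf A _ φ U hU hS hnil g
  let ψ : G →* A ⧸ AS.t p A :=
    (Ideal.Quotient.mk (AS.t p A) : A →* A ⧸ AS.t p A).comp (TOR.φ0 φ)
  have h1 : ∀ a b c d : G, ψ ⁅⁅a, b⁆, ⁅c, d⁆⁆ = 1 := by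
    intro a b c d
    have hfin : (({a, b, c, d} : Set G)).Finite := Set.toFinite _
    set P : Subgroup G := Subgroup.closure {a, b, c, d} with hP
    have hPf : Finite P := hlf _ hfin
    have hPp : IsPGroup p P := hG.to_subgroup P
    have := Fact.mk hp
    obtain ⟨k, hk⟩ := IsPGroup.iff_card.1 hPp
    have hsub : ({a, b, c, d} : Set G) ⊆ P := Subgroup.subset_closure
    have hcard : ∀ g : P, (g : G) ^ p ^ k = 1 := by
      intro g
      have : g ^ Nat.card P = 1 := pow_card_eq_one'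
      rw [hk] at this
      exact_mod_cast congrArg Subtype.val this
    have := hRP p hp P hPp (A ⧸ AS.t p A) AS.notors (ψ.comp P.subtype) (by
      intro g h
      have h3 := TOR.tors1 φ U hG hU hS hnil (g : G) (h : G) k (hcard g)
      rw [← Ideal.Quotient.eq_zero_iff_mem] at h3
      rw [map_mul, map_mul, map_sub, map_sum, map_one] at h3
      simp only [map_pow] at h3
      rw [hk]
      exact h3) (by
      intro g h
      have h3 := TOR.tors2 φ U hG hU hS hnil (g : G) (h : G) k (hcard g)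
      rw [← Ideal.Quotient.eq_zero_iff_mem] at h3
      rw [map_mul, map_mul, map_sub, map_sum, map_one] at h3
      simp only [map_pow] at h3
      rw [hk]
      exact h3)
      ⟨a, hsub (by simp)⟩ ⟨b, hsub (by simp)⟩ ⟨c, hsub (by simp)⟩ ⟨d, hsub (by simp)⟩
    exact this
  have h2 := AS.triv hperf ψ.toHomUnits (by
    intro a b c d
    apply Units.ext
    exact h1 a b c d) g
  have h3 : ψ g = 1 := congrArg Units.val h2
  have h4 : TOR.φ0 φ g - 1 ∈ AS.t p A := by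
    rw [← Ideal.Quotient.eq_zero_iff_mem, map_sub, map_one, sub_eq_zero]
    exact h3
  exact h4

end Pool.Agent.Work.MP_3fbbd3_adj
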