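import Pool.Agent.Work.MP_3fbbd3_adj.Def2

/-!
# Finite `p`-groups without subgroups `C_p × C_p` are metabelian
-/

namespace Pool.Agent.Work.MP_3fbbd3_adj

open scoped commutatorElement

universe u

namespace GTx

theorem cyc {p : ℕ} (hp : p.Prime) (A : Type u) [CommGroup A] [Finite A] (hA : IsPGroup p A)
    (h : ∀ u v : A, u ^ p = 1 → v ^ p = 1 → u ≠ 1 → ∃ i : ℕ, u ^ i * v = 1) : IsCyclic A := by
  classical
  haveI : Fact p.Prime := ⟨hp⟩
  obtain ⟨x, hx⟩ := Monoid.exists_orderOf_eq_exponent (Monoid.ExponentExists.of_finite (G := A))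
  have hall : ∀ y : A, y ^ orderOf x = 1 := fun y => by
    rw [hx]; exact Monoid.pow_exponent_eq_one y
  refine ⟨x, fun y => ?_⟩
  by_contra hcon
  have hy : y ∉ Subgroup.zpowers x := fun h0 => hcon (Subgroup.mem_zpowers_iff.1 h0)
  -- minimal power in the cyclic group
  have hex : ∃ j : ℕ, y ^ (p ^ j) ∈ Subgroup.zpowers x := by
    obtain ⟨j, hj⟩ := hA y
    exact ⟨j, by rw [hj]; exact one_mem _⟩
  have hj := Nat.find_spec hex
  have hj0 : Nat.find hex ≠ 0 := by
    intro h0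
    rw [h0, pow_zero, pow_one] at hj
    exact hy hj
  obtain ⟨j, hjj⟩ := Nat.exists_eq_succ_of_ne_zero hj0
  have hj' : y ^ (p ^ j) ∉ Subgroup.zpowers x := Nat.find_min hex (by omega)
  rw [hjj, Nat.succ_eq_add_one, pow_succ, pow_mul] at hj
  set z := y ^ (p ^ j) with hz
  obtain ⟨m, hm⟩ := Subgroup.mem_zpowers_iff.1 hj
  obtain ⟨k, hk⟩ := (IsPGroup.iff_orderOf.1 hA) x
  have hk0 : k ≠ 0 := by
    intro h0
    rw [h0, pow_zero] at hk
    have := hall z
    rw [hk, pow_one] at this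
    rw [this] at hj'
    exact hj' (one_mem _)
  obtain ⟨k, rfl⟩ := Nat.exists_eq_succ_of_ne_zero hk0
  have h1 : z ^ (p ^ (k + 1)) = 1 := by
    have := hall z
    rwa [hk] at this
  have h2 : x ^ (m * (p ^ k : ℕ)) = 1 := by
    rw [zpow_mul, hm, zpow_natCast, ← pow_mul, mul_comm p, ← pow_succ]
    exact h1
  have h3 : ((p ^ (k + 1) : ℕ) : ℤ) ∣ m * (p ^ k : ℕ) := by
    rw [← Nat.succ_eq_add_one, ← hk]
    exact orderOf_dvd_iff_zpow_eq_one.2 h2
  have h4 : (p : ℤ) ∣ m := by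
    have hpk : ((p ^ k : ℕ) : ℤ) ≠ 0 := by
      exact_mod_cast pow_ne_zero k hp.ne_zero
    rw [pow_succ, mul_comm (p ^ k) p, Nat.cast_mul] at h3
    exact (mul_dvd_mul_iff_right hpk).1 h3
  obtain ⟨m', rfl⟩ := h4
  have h5 : (z * x ^ (-m')) ^ p = 1 := by
    rw [mul_pow, ← hm, ← zpow_natCast (x ^ (-m')) p, ← zpow_mul, ← zpow_add]
    have : (p : ℤ) * m' + -m' * (p : ℤ) = 0 := by ring
    rw [this, zpow_zero]
  have h6 : (x ^ (p ^ k)) ^ p = 1 := by
    rw [← pow_mul, ← pow_succ, ← Nat.succ_eq_add_one, ← hk]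
    exact pow_orderOf_eq_one x
  have h7 : x ^ (p ^ k) ≠ 1 := by
    intro h8
    have := orderOf_dvd_of_pow_eq_one h8
    rw [hk] at this
    have := (Nat.pow_dvd_pow_iff_le_right hp.one_lt).1 this
    omega
  obtain ⟨i, hi⟩ := h _ _ h6 h5 h7
  apply hj'
  have h8 : z = (x ^ (p ^ k)) ^ (-(i : ℤ)) * x ^ m' := by
    have : z * x ^ (-m') = ((x ^ (p ^ k)) ^ i)⁻¹ := by
      rw [eq_inv_iff_mul_eq_one, mul_comm]
      exact hi
    rw [zpow_neg, zpow_natCast, ← this, mul_assoc, ← zpow_add]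
    simp
  rw [h8]
  exact mul_mem (Subgroup.zpow_mem _ (Subgroup.pow_mem _ (Subgroup.mem_zpowers x) _) _)
    (Subgroup.zpow_mem _ (Subgroup.mem_zpowers x) _)

variable {G : Type u} [Group G] [Finite G]

/-- a nontrivial normal subgroup of a finite `p`-group contains a nontrivial central element -/
theorem exists_central {p : ℕ} (hp : p.Prime) (hG : IsPGroup p G) (N : Subgroup G) [N.Normal]
    (hN : N ≠ ⊥) : ∃ z ∈ N, z ≠ 1 ∧ ∀ g : G, g * z = z * g := by
  haveI : Fact p.Prime := ⟨hp⟩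
  have hact : ∀ (g : G) (n : N), ((MulAut.conjNormal g) n : G) = g * n * g⁻¹ := fun g n => rfl
  letI : MulAction G N := MulAction.compHom N (MulAut.conjNormal : G →* MulAut N)
  have hsm : ∀ (g : G) (n : N), ((g • n : N) : G) = g * n * g⁻¹ := fun g n => rfl
  have hdvd : p ∣ Nat.card N := by
    have hNp : IsPGroup p N := hG.to_subgroup N
    obtain ⟨n, hn⟩ := IsPGroup.iff_card.1 hNp
    rw [hn]
    apply dvd_pow_self
    intro h0
    rw [h0, pow_zero] at hn
    exact hN (Subgroup.card_eq_one.1 hn)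
  have hfix : (1 : N) ∈ MulAction.fixedPoints G N := by
    intro g
    apply Subtype.ext
    rw [hsm]
    simp
  obtain ⟨b, hb, hb1⟩ := hG.exists_fixed_point_of_prime_dvd_card_of_fixed_point N hdvd hfix
  refine ⟨b, b.2, fun h => hb1 (Subtype.ext h.symm), fun g => ?_⟩
  have h1 := congrArg (Subtype.val) (hb g)
  rw [hsm] at h1
  exact mul_inv_eq_iff_eq_mul.1 h1

/-- an abelian normal subgroup which contains its centralizer -/
theorem exists_self {p : ℕ} (hp : p.Prime) (hG : IsPGroup p G) :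
    ∃ A : Subgroup G, A.Normal ∧ (∀ x ∈ A, ∀ y ∈ A, x * y = y * x) ∧
      ∀ x : G, (∀ y ∈ A, x * y = y * x) → x ∈ A := by
  classical
  have hfin : {A : Subgroup G | A.Normal ∧ ∀ x ∈ A, ∀ y ∈ A, x * y = y * x}.Finite :=
    Set.toFinite _
  obtain ⟨A, ⟨hAn, hAc⟩, hmax⟩ := hfin.exists_maximal ⟨⊥, by
    refine ⟨inferInstance, ?_⟩
    intro x hx y hy
    rw [Subgroup.mem_bot] at hx hy
    rw [hx, hy]⟩
  refine ⟨A, hAn, hAc, ?_⟩
  haveI := hAn
  by_contra hcon
  push Not at hcon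
  obtain ⟨x, hx, hxA⟩ := hcon
  -- the image of the centralizer in the quotient
  let C : Subgroup G := Subgroup.centralizer (A : Set G)
  haveI hC : C.Normal := inferInstance
  let N : Subgroup (G ⧸ A) := C.map (QuotientGroup.mk' A)
  haveI hN : N.Normal := hC.map _ (QuotientGroup.mk'_surjective A)
  have hxC : x ∈ C := by
    rw [Subgroup.mem_centralizer_iff]
    intro y hy
    exact (hx y hy).symm
  have hNb : N ≠ ⊥ := by
    intro h0
    have h1 : (QuotientGroup.mk' A) x ∈ N := Subgroup.mem_map_of_mem _ hxC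
    rw [h0, Subgroup.mem_bot] at h1
    exact hxA ((QuotientGroup.eq_one_iff x).1 h1)
  obtain ⟨z, hzN, hz1, hzc⟩ := exists_central hp (hG.to_quotient A) N hNb
  obtain ⟨w, hwC, rfl⟩ := Subgroup.mem_map.1 hzN
  let B : Subgroup G := (Subgroup.zpowers ((QuotientGroup.mk' A) w)).comap (QuotientGroup.mk' A)
  have hzn : (Subgroup.zpowers ((QuotientGroup.mk' A) w)).Normal := by
    refine ⟨fun n hn g => ?_⟩
    obtain ⟨i, rfl⟩ := Subgroup.mem_zpowers_iff.1 hn
    have h1 : Commute g (((QuotientGroup.mk' A) w) ^ i) := (show Commute g _ from hzc g).zpow_right i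
    rw [h1.eq, mul_inv_cancel_right]
    exact hn
  have hBn : B.Normal := hzn.comap _
  have hform : ∀ g ∈ B, ∃ i : ℤ, ∃ a ∈ A, g = w ^ i * a := by
    intro g hg
    obtain ⟨i, hi⟩ := Subgroup.mem_zpowers_iff.1 (Subgroup.mem_comap.1 hg)
    refine ⟨i, (w ^ i)⁻¹ * g, ?_, by group⟩
    rw [← QuotientGroup.eq_one_iff]
    have : (QuotientGroup.mk' A) ((w ^ i)⁻¹ * g) = 1 := by
      rw [map_mul, map_inv, map_zpow, hi, inv_mul_cancel]
    exact this
  have hwA : ∀ a ∈ A, ∀ i : ℤ, Commute a (w ^ i) := by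
    intro a ha i
    exact (show Commute a w from (Subgroup.mem_centralizer_iff.1 hwC) a ha).zpow_right i
  have hBc : ∀ g ∈ B, ∀ h ∈ B, g * h = h * g := by
    intro g hg h hh
    obtain ⟨i, a, ha, rfl⟩ := hform g hg
    obtain ⟨j, b, hb, rfl⟩ := hform h hh
    have e1 : Commute (w ^ i) (w ^ j) := Commute.zpow_zpow_self w i j
    have e2 : Commute a (w ^ j) := hwA a ha j
    have e3 : Commute b (w ^ i) := hwA b hb i
    have e4 : Commute a b := hAc a ha b hb
    have : Commute (w ^ i * a) (w ^ j * b) :=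
      Commute.mul_left (Commute.mul_right e1 e3.symm) (Commute.mul_right e2 e4)
    exact this
  have hAB : A ≤ B := by
    intro a ha
    rw [Subgroup.mem_comap]
    have : (QuotientGroup.mk' A) a = 1 := (QuotientGroup.eq_one_iff a).2 ha
    rw [this]
    exact one_mem _
  have hBA : B ≤ A := hmax ⟨hBn, hBc⟩ hAB
  apply hz1
  have hwB : w ∈ B := Subgroup.mem_comap.2 (Subgroup.mem_zpowers _)
  exact (QuotientGroup.eq_one_iff w).2 (hBA hwB)

end GTx

/-- a finite `p`-group without subgroup `C_p × C_p` is metabelian -/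
theorem metabelian {p : ℕ} (hp : p.Prime) {G : Type u} [Group G] [Finite G] (hG : IsPGroup p G)
    (h : ∀ u v : G, u * v = v * u → u ^ p = 1 → v ^ p = 1 → u ≠ 1 → ∃ i : ℕ, u ^ i * v = 1)
    (a b c d : G) : ⁅⁅a, b⁆, ⁅c, d⁆⁆ = 1 := by
  obtain ⟨A, hAn, hAc, hself⟩ := GTx.exists_self hp hG
  haveI := hAn
  haveI hcyc : IsCyclic A := by
    letI : CommGroup A := { (inferInstance : Group A) with
      mul_comm := fun x y => Subtype.ext (hAc x x.2 y y.2) }
    refine GTx.cyc hp A (hG.to_subgroup A) ?_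
    intro u v hu hv hu1
    obtain ⟨i, hi⟩ := h u v (hAc u u.2 v v.2) (by exact_mod_cast congrArg Subtype.val hu)
      (by exact_mod_cast congrArg Subtype.val hv) (fun h0 => hu1 (Subtype.ext h0))
    exact ⟨i, Subtype.ext (by exact_mod_cast hi)⟩
  have hcomm : ∀ f g : MulAut A, f * g = g * f := by
    intro f g
    apply (IsCyclic.mulAutMulEquiv A).injective
    rw [map_mul, map_mul, mul_comm]
  have hmem : ∀ a b : G, ⁅a, b⁆ ∈ A := by
    intro a b
    apply hself
    intro y hy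
    have h1 : (MulAut.conjNormal ⁅a, b⁆ : MulAut A) = 1 := by
      rw [map_commutatorElement, commutatorElement_eq_one_iff_mul_comm]
      exact hcomm _ _
    have h2 : ((MulAut.conjNormal ⁅a, b⁆ : MulAut A) ⟨y, hy⟩ : G) = y := by rw [h1]; rfl
    have h3 : ⁅a, b⁆ * y * ⁅a, b⁆⁻¹ = y := h2
    exact mul_inv_eq_iff_eq_mul.1 h3
  rw [commutatorElement_eq_one_iff_mul_comm]
  exact hAc _ (hmem a b) _ (hmem c d)

theorem blk_GT : S_GT.{u} :=
  fun _ hp _ _ _ hQ h => metabelian hp hQ (fun u v huv => h u v huv)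

end Pool.Agent.Work.MP_3fbbd3_adj
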