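import Pool.Agent.Work.MP_3fbbd3_adj.Def2

/-!
# Block NP: the augmentation ideal of a finite `p`-group is nilpotent if it is `p`-torsion
-/

namespace Pool.Agent.Work.MP_3fbbd3_adj

universe u v

namespace NPx

/-- the upper series of the action -/
def Zn {P : Type u} [Group P] {M : Type v} [AddCommGroup M] (ρ : P →* AddMonoid.End M) :
    ℕ → M → Prop
  | 0, m => m = 0
  | n + 1, m => ∀ g, Zn ρ n (ρ g m - m)

theorem Zn_zero {P : Type u} [Group P] {M : Type v} [AddCommGroup M]
    (ρ : P →* AddMonoid.End M) (n : ℕ) : Zn ρ n 0 := by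
  induction n with
  | zero => rfl
  | succ n ih => intro g; simpa using ih

theorem Zn_succ {P : Type u} [Group P] {M : Type v} [AddCommGroup M]
    (ρ : P →* AddMonoid.End M) (n : ℕ) : ∀ m, Zn ρ n m → Zn ρ (n + 1) m := by
  induction n with
  | zero => intro m hm g; have : m = 0 := hm; subst this; simp [Zn]
  | succ n ih => intro m hm g; exact ih _ (hm g)

/-- the fixed subgroup -/
def Fx {P : Type u} [Group P] {M : Type v} [AddCommGroup M] (ρ : P →* AddMonoid.End M) :
    AddSubgroup M where
  carrier := {m | ∀ g, ρ g m = m}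
  zero_mem' := fun g => map_zero _
  add_mem' := by
    intro a b ha hb g
    rw [map_add, ha g, hb g]
  neg_mem' := by
    intro a ha g
    rw [map_neg, ha g]

theorem mem_Fx {P : Type u} [Group P] {M : Type v} [AddCommGroup M]
    (ρ : P →* AddMonoid.End M) (m : M) : m ∈ Fx ρ ↔ ∀ g, ρ g m = m := Iff.rfl

theorem Fx_le {P : Type u} [Group P] {M : Type v} [AddCommGroup M]
    (ρ : P →* AddMonoid.End M) (g : P) : Fx ρ ≤ (Fx ρ).comap (ρ g) := by
  intro m hm h
  have h1 := hm g
  show ρ h (ρ g m) = ρ g m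
  rw [h1]; exact hm h

/-- the action on the quotient -/
def qρ {P : Type u} [Group P] {M : Type v} [AddCommGroup M] (ρ : P →* AddMonoid.End M) :
    P →* AddMonoid.End (M ⧸ Fx ρ) where
  toFun g := QuotientAddGroup.map (Fx ρ) (Fx ρ) (ρ g) (Fx_le ρ g)
  map_one' := by
    ext m
    obtain ⟨m, rfl⟩ := QuotientAddGroup.mk_surjective m
    show ((ρ 1 m : M) : M ⧸ Fx ρ) = (m : M ⧸ Fx ρ)
    rw [map_one]; rfl
  map_mul' g h := by
    ext m
    obtain ⟨m, rfl⟩ := QuotientAddGroup.mk_surjective m
    show ((ρ (g * h) m : M) : M ⧸ Fx ρ) = ((ρ g (ρ h m) : M) : M ⧸ Fx ρ)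
    rw [map_mul]; rfl

theorem qρ_mk {P : Type u} [Group P] {M : Type v} [AddCommGroup M] (ρ : P →* AddMonoid.End M)
    (g : P) (m : M) : qρ ρ g (m : M ⧸ Fx ρ) = ((ρ g m : M) : M ⧸ Fx ρ) := rfl

theorem Zn_of_q {P : Type u} [Group P] {M : Type v} [AddCommGroup M] (ρ : P →* AddMonoid.End M)
    (n : ℕ) : ∀ m : M, Zn (qρ ρ) n (m : M ⧸ Fx ρ) → Zn ρ (n + 1) m := by
  induction n with
  | zero =>
    intro m hm g
    have h0 : (m : M ⧸ Fx ρ) = 0 := hm
    rw [QuotientAddGroup.eq_zero_iff] at h0
    have := h0 g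
    simp [Zn, this]
  | succ n ih =>
    intro m hm g
    apply ih
    have := hm g
    rw [qρ_mk, ← QuotientAddGroup.mk_sub] at this
    exact this

theorem exists_fix (p : ℕ) (hp : p.Prime) {P : Type u} [Group P] [Finite P] (hP : IsPGroup p P)
    {M : Type v} [AddCommGroup M] [Finite M] (hM : ∀ m : M, ∃ n : ℕ, p ^ n • m = 0)
    (ρ : P →* AddMonoid.End M) (m0 : M) (hm0 : m0 ≠ 0) : ∃ m : M, m ≠ 0 ∧ m ∈ Fx ρ := by
  have : Fact p.Prime := ⟨hp⟩
  let _ : MulAction P M :=
    { smul := fun g m => ρ g m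
      one_smul := by
        intro m
        show ρ 1 m = m
        rw [map_one]; rfl
      mul_smul := by
        intro g h m
        show ρ (g * h) m = ρ g (ρ h m)
        rw [map_mul]; rfl }
  have hdvd : p ∣ Nat.card M := by
    obtain ⟨n, hn⟩ := hM m0
    have h1 : addOrderOf m0 ∣ p ^ n := addOrderOf_dvd_of_nsmul_eq_zero hn
    have h2 : addOrderOf m0 ≠ 1 := by
      intro h
      exact hm0 (AddMonoid.addOrderOf_eq_one_iff.1 h)
    obtain ⟨k, -, hk⟩ := (Nat.dvd_prime_pow hp).1 h1
    have hk0 : k ≠ 0 := by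
      rintro rfl
      exact h2 (by simpa using hk)
    have h3 : p ∣ addOrderOf m0 := by
      rw [hk]; exact dvd_pow_self p hk0
    exact h3.trans (addOrderOf_dvd_natCard m0)
  obtain ⟨b, hb, hb0⟩ := hP.exists_fixed_point_of_prime_dvd_card_of_fixed_point M hdvd
    (a := (0 : M)) (by
      intro g
      show ρ g 0 = 0
      exact map_zero _)
  exact ⟨b, fun h => hb0 h.symm, fun g => hb g⟩

theorem exists_Zn (p : ℕ) (hp : p.Prime) {P : Type u} [Group P] [Finite P] (hP : IsPGroup p P)
    (c : ℕ) : ∀ {M : Type v} [AddCommGroup M] [Finite M] (_ : ∀ m : M, ∃ n : ℕ, p ^ n • m = 0)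
    (ρ : P →* AddMonoid.End M), Nat.card M ≤ c → ∃ n, ∀ m, Zn ρ n m := by
  induction c with
  | zero =>
    intro M _ _ _ ρ hc
    exact absurd (Nat.le_zero.1 hc) (Nat.card_pos).ne'
  | succ c ih =>
    intro M _ _ hM ρ hc
    by_cases h0 : ∃ m0 : M, m0 ≠ 0
    · obtain ⟨m0, hm0⟩ := h0
      obtain ⟨m, hm, hmF⟩ := exists_fix p hp hP hM ρ m0 hm0
      have hcard : Nat.card (M ⧸ Fx ρ) * Nat.card (Fx ρ) = Nat.card M := by
        rw [AddSubgroup.card_eq_card_quotient_mul_card_addSubgroup (Fx ρ)]
      have h2 : 2 ≤ Nat.card (Fx ρ) := by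
        have : Nontrivial (Fx ρ) := ⟨⟨⟨m, hmF⟩, 0, fun h => hm (congrArg Subtype.val h)⟩⟩
        have := Finite.one_lt_card (α := Fx ρ)
        omega
      have h3 : 0 < Nat.card (M ⧸ Fx ρ) := Nat.card_pos
      have h4 : Nat.card (M ⧸ Fx ρ) ≤ c := by nlinarith
      obtain ⟨n, hn⟩ := ih (M := M ⧸ Fx ρ) (by
        intro x
        obtain ⟨y, rfl⟩ := QuotientAddGroup.mk_surjective x
        obtain ⟨n, hn⟩ := hM y
        exact ⟨n, by rw [← QuotientAddGroup.mk_nsmul, hn]; rfl⟩) (qρ ρ) h4
      exact ⟨n + 1, fun m => Zn_of_q ρ n m (hn _)⟩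
    · push Not at h0
      exact ⟨0, fun m => h0 m⟩

end NPx

open NPx in
theorem blk_NP : S_NP.{u} := by
  intro p hp P _ _ hP A _ φ hφ
  set T : Submodule ℤ A := Submodule.span ℤ (Set.range fun g => φ g - 1) with hT
  have hgen : ∀ g, φ g - 1 ∈ T := fun g => Submodule.subset_span ⟨g, rfl⟩
  -- `T` is stable under multiplication by `φ g`
  have hmul : ∀ g, ∀ t ∈ T, φ g * t ∈ T := by
    intro g t ht
    induction ht using Submodule.span_induction with
    | mem x hx =>
      obtain ⟨h, rfl⟩ := hx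
      have : φ g * (φ h - 1) = (φ (g * h) - 1) - (φ g - 1) := by
        rw [map_mul]; noncomm_ring
      rw [this]
      exact T.sub_mem (hgen _) (hgen _)
    | zero => simp
    | add x y _ _ hx hy => rw [mul_add]; exact T.add_mem hx hy
    | smul a x _ hx => rw [mul_smul_comm]; exact T.smul_mem a hx
  -- torsion
  have htor : ∀ t ∈ T, ∃ n : ℕ, p ^ n • t = 0 := by
    intro t ht
    induction ht using Submodule.span_induction with
    | mem x hx => obtain ⟨h, rfl⟩ := hx; exact hφ h
    | zero => exact ⟨0, by simp⟩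
    | add x y _ _ hx hy =>
      obtain ⟨a, ha⟩ := hx
      obtain ⟨b, hb⟩ := hy
      have h1 : p ^ (a + b) • x = 0 := by rw [add_comm a b, pow_add, mul_smul, ha, smul_zero]
      have h2 : p ^ (a + b) • y = 0 := by rw [pow_add, mul_smul, hb, smul_zero]
      exact ⟨a + b, by rw [smul_add, h1, h2, add_zero]⟩
    | smul a x _ hx =>
      obtain ⟨n, hn⟩ := hx
      exact ⟨n, by rw [smul_comm, hn, smul_zero]⟩
  have hfg : Module.Finite ℤ T := by
    rw [hT]
    exact Module.Finite.span_of_finite ℤ (Set.finite_range _)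
  have htors : Module.IsTorsion ℤ T := by
    intro x
    obtain ⟨n, hn⟩ := htor x x.2
    refine ⟨⟨(p : ℤ) ^ n, mem_nonZeroDivisors_of_ne_zero (pow_ne_zero _ (by
      exact_mod_cast hp.ne_zero))⟩, ?_⟩
    apply Subtype.ext
    show ((p : ℤ) ^ n) • (x : A) = 0
    rw [← hn, ← Nat.cast_pow, natCast_zsmul]
  have hfin : Finite T := Module.finite_of_fg_torsion T htors
  -- the action
  let ρ : P →* AddMonoid.End T :=
    { toFun := fun g =>
        { toFun := fun t => ⟨φ g * t, hmul g t t.2⟩
          map_zero' := by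
            apply Subtype.ext
            show φ g * ((0 : T) : A) = ((0 : T) : A)
            simp
          map_add' := by
            intro a b
            apply Subtype.ext
            show φ g * ((a + b : T) : A) = φ g * a + φ g * b
            rw [← mul_add]; rfl }
      map_one' := by
        ext t
        show φ 1 * (t : A) = t
        rw [map_one, one_mul]
      map_mul' := by
        intro g h
        ext t
        show φ (g * h) * (t : A) = φ g * (φ h * t)
        rw [map_mul, mul_assoc] }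
  have hρ : ∀ (g : P) (t : T), ((ρ g t - t : T) : A) = (φ g - 1) * t := by
    intro g t
    show φ g * (t : A) - t = _
    rw [sub_mul, one_mul]
  obtain ⟨n, hn⟩ := exists_Zn p hp hP (Nat.card T) (M := T) (by
    intro t
    obtain ⟨n, hn⟩ := htor t t.2
    refine ⟨n, Subtype.ext ?_⟩
    show p ^ n • (t : A) = 0
    exact hn) ρ le_rfl
  have key : ∀ n : ℕ, ∀ t : T, Zn ρ n t → ∀ x ∈ T ^ n, x * (t : A) = 0 := by
    intro n
    induction n with
    | zero =>
      intro t ht x _
      have : t = 0 := ht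
      rw [this]
      show x * 0 = 0
      exact mul_zero x
    | succ n ih =>
      intro t ht x hx
      rw [pow_succ] at hx
      induction hx using Submodule.mul_induction_on' with
      | mem_mul_mem y hy s hs =>
        induction hs using Submodule.span_induction with
        | mem z hz =>
          obtain ⟨g, rfl⟩ := hz
          have h1 := ih _ (ht g) y hy
          rw [hρ] at h1
          show y * (φ g - 1) * (t : A) = 0
          rw [mul_assoc]; exact h1
        | zero => simp
        | add a b _ _ ha hb => rw [mul_add, add_mul, ha, hb, add_zero]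
        | smul a z _ hz => rw [mul_smul_comm, smul_mul_assoc, hz, smul_zero]
      | add a _ b _ ha hb => rw [add_mul, ha, hb, add_zero]
  refine ⟨n + 1, ?_⟩
  rw [eq_bot_iff]
  intro x hx
  rw [pow_succ] at hx
  induction hx using Submodule.mul_induction_on' with
  | mem_mul_mem y hy s hs => exact key n ⟨s, hs⟩ (hn _) y hy
  | add a _ b _ ha hb => exact Submodule.add_mem _ ha hb

end Pool.Agent.Work.MP_3fbbd3_adj

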