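import Pool.Agent.Work.MP_3fbbd3_adj.Def3

/-!
# Subnormal subgroups of unit groups: arbitrary universes and two special cases
-/

namespace Pool.Agent.Work.MP_3fbbd3_adj

universe u v w

namespace SNV

/-- preimages of subnormal subgroups are subnormal -/
lemma comap_subnormal {G : Type u} [Group G] {K : Type v} [Group K] (f : G →* K)
    {H : Subgroup K} (h : H.IsSubnormal) : (H.comap f).IsSubnormal := by
  induction h with
  | top => rw [Subgroup.comap_top]; exact Subgroup.IsSubnormal.top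
  | step H L hle _ hN ih =>
    refine Subgroup.IsSubnormal.step _ _ (Subgroup.comap_mono hle) ih ⟨?_⟩
    rintro ⟨n, hn⟩ hnH ⟨g, hg⟩
    rw [Subgroup.mem_subgroupOf] at hnH ⊢
    have h1 := hN.conj_mem ⟨f n, hn⟩ (by rw [Subgroup.mem_subgroupOf]; exact hnH) ⟨f g, hg⟩
    rw [Subgroup.mem_subgroupOf] at h1
    show f (g * n * g⁻¹) ∈ H
    rw [map_mul, map_mul, map_inv]
    exact h1

/-- a proper subgroup which is not solvable can be pulled back along an epimorphism -/
theorem pull {G : Type u} [Group G] {K : Type v} [Group K] (π : G →* K)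
    (hπ : Function.Surjective π) (h : ∃ H : Subgroup K, H ≠ ⊤ ∧ ¬ Group.IsSolvable H) :
    ∃ H : Subgroup G, H ≠ ⊤ ∧ ¬ Group.IsSolvable H := by
  obtain ⟨H, hH, hHs⟩ := h
  refine ⟨H.comap π, ?_, ?_⟩
  · intro h
    apply hH
    rw [← Subgroup.map_comap_eq_self_of_surjective hπ H, h, ← MonoidHom.range_eq_map,
      MonoidHom.range_eq_top.mpr hπ]
  · intro h
    apply hHs
    have := h
    exact Group.isSolvable_of_surjective (f := π.subgroupComap H)
      (π.subgroupComap_surjective_of_surjective H hπ)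

theorem perfect_of_surj {G : Type u} [Group G] {K : Type v} [Group K] (π : G →* K)
    (hπ : Function.Surjective π) (h : commutator G = ⊤) : commutator K = ⊤ := by
  have h1 : (commutator G).map π = commutator K := by
    rw [commutator_def, Subgroup.map_commutator, ← MonoidHom.range_eq_map,
      MonoidHom.range_eq_top.mpr hπ, ← commutator_def]
  rw [← h1, h, ← MonoidHom.range_eq_map, MonoidHom.range_eq_top.mpr hπ]

end SNV

/-- the theorem for a ring in an arbitrary universe -/
theorem snv (hSNT : S_SNT.{max u v}) (p : ℕ) (hp : p.Prime) (G : Type u) [Group G]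
    (hG : IsPGroup p G) (hperf : commutator G = ⊤)
    (hlf : ∀ s : Set G, s.Finite → ((Subgroup.closure s : Subgroup G) : Set G).Finite)
    (A : Type v) [Ring A] (φ : G →* Aˣ) (hφ : ∃ g, φ g ≠ 1) (U : Subgroup Aˣ)
    (hU : φ.range ≤ U) (hS : (φ.range.subgroupOf U).IsSubnormal)
    (hcl : ∀ x ∈ Submodule.span ℤ (Set.range fun g : G => ((φ g : Aˣ) : A) - 1),
      IsNilpotent x → ∃ w ∈ U, ((w : Aˣ) : A) = 1 + x) :
    ∃ H : Subgroup G, H ≠ ⊤ ∧ ¬ Group.IsSolvable H := by
  let e : ULift.{v} G ≃* G := MulEquiv.ulift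
  let f : ULift.{u} A ≃+* A := ULift.ringEquiv
  let fu : (ULift.{u} A)ˣ ≃* Aˣ := Units.mapEquiv f.toMulEquiv
  let φ' : ULift.{v} G →* (ULift.{u} A)ˣ :=
    (fu.symm : Aˣ →* (ULift.{u} A)ˣ).comp (φ.comp (e : ULift.{v} G →* G))
  have hφ' : ∀ g, fu (φ' g) = φ (e g) := fun g => fu.apply_symm_apply _
  let U' : Subgroup (ULift.{u} A)ˣ := U.comap (fu : (ULift.{u} A)ˣ →* Aˣ)
  have hrange : ∀ x, x ∈ φ'.range ↔ fu x ∈ φ.range := by
    intro x
    constructor
    · rintro ⟨g, rfl⟩
      exact ⟨e g, (hφ' g).symm⟩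
    · rintro ⟨g, hg⟩
      refine ⟨e.symm g, fu.injective ?_⟩
      rw [hφ', e.apply_symm_apply, hg]
  apply SNV.pull (e.symm : G →* ULift.{v} G) e.symm.surjective
  refine hSNT p hp (ULift.{v} G) (hG.of_equiv e.symm)
    (SNV.perfect_of_surj (e.symm : G →* ULift.{v} G) e.symm.surjective hperf) ?_
    (ULift.{u} A) φ' ?_ U' ?_ ?_ ?_
  · intro s hs
    have h1 := hlf (e '' s) (hs.image _)
    have h2 : (Subgroup.closure s).map (e : ULift.{v} G →* G) = Subgroup.closure (e '' s) := by
      rw [MonoidHom.map_closure]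
      rfl
    have h3 : ((Subgroup.closure s : Subgroup (ULift.{v} G)) : Set (ULift.{v} G)) ⊆
        e ⁻¹' ((Subgroup.closure (e '' s) : Subgroup G) : Set G) := by
      intro x hx
      show e x ∈ Subgroup.closure (e '' s)
      rw [← h2]
      exact ⟨x, hx, rfl⟩
    exact (h1.preimage e.injective.injOn).subset h3
  · obtain ⟨g, hg⟩ := hφ
    refine ⟨e.symm g, fun h => hg ?_⟩
    have h1 := hφ' (e.symm g)
    rw [h, map_one, e.apply_symm_apply] at h1
    exact h1.symm
  · intro x hx
    exact hU ((hrange x).1 hx)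
  · have h1 : φ'.range.subgroupOf U' = (φ.range.subgroupOf U).comap
        ((fu : (ULift.{u} A)ˣ →* Aˣ).subgroupComap U) := by
      ext x
      rw [Subgroup.mem_subgroupOf, Subgroup.mem_comap, Subgroup.mem_subgroupOf, hrange]
      rfl
    rw [h1]
    exact SNV.comap_subnormal _ hS
  · intro x hx hxn
    have h1 : f x ∈ Submodule.span ℤ (Set.range fun g : G => ((φ g : Aˣ) : A) - 1) := by
      refine Submodule.span_induction
        (p := fun x _ => f x ∈ Submodule.span ℤ (Set.range fun g : G => ((φ g : Aˣ) : A) - 1))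
        ?_ ?_ (fun x y _ _ hx hy => ?_) (fun a x _ hx => ?_) hx
      · rintro _ ⟨g, rfl⟩
        have h2 : f (((φ' g : (ULift.{u} A)ˣ) : ULift.{u} A) - 1)
            = ((φ (e g) : Aˣ) : A) - 1 := by
          rw [map_sub, map_one, ← hφ' g]
          rfl
        rw [h2]
        exact Submodule.subset_span ⟨e g, rfl⟩
      · rw [map_zero]
        exact Submodule.zero_mem _
      · rw [map_add]
        exact Submodule.add_mem _ hx hy
      · rw [map_zsmul]
        exact Submodule.smul_mem _ a hx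
    obtain ⟨w, hwU, hw⟩ := hcl (f x) h1 (hxn.map f)
    refine ⟨fu.symm w, ?_, ?_⟩
    · show fu (fu.symm w) ∈ U
      rw [fu.apply_symm_apply]
      exact hwU
    · apply f.injective
      have h3 : f ((fu.symm w : (ULift.{u} A)ˣ) : ULift.{u} A) = w := by
        have : fu (fu.symm w) = w := fu.apply_symm_apply w
        exact congrArg Units.val this
      rw [h3, hw, map_add, map_one]

/-- the image is subnormal in the whole group of units -/
theorem snv_units (hSNT : S_SNT.{max u v}) (p : ℕ) (hp : p.Prime) (G : Type u) [Group G]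
    (hG : IsPGroup p G) (hperf : commutator G = ⊤)
    (hlf : ∀ s : Set G, s.Finite → ((Subgroup.closure s : Subgroup G) : Set G).Finite)
    (A : Type v) [Ring A] (φ : G →* Aˣ) (hφ : ∃ g, φ g ≠ 1) (hS : φ.range.IsSubnormal) :
    ∃ H : Subgroup G, H ≠ ⊤ ∧ ¬ Group.IsSolvable H := by
  refine snv hSNT p hp G hG hperf hlf A φ hφ ⊤ le_top ?_ ?_
  · exact SNV.comap_subnormal (⊤ : Subgroup Aˣ).subtype hS
  · intro x _ hx
    obtain ⟨w, hw⟩ := IsNilpotent.isUnit_one_add hx
    exact ⟨w, Subgroup.mem_top _, hw⟩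

/-- the image is closed under unipotent elements -/
theorem snv_closed (hSNT : S_SNT.{max u v}) (p : ℕ) (hp : p.Prime) (G : Type u) [Group G]
    (hG : IsPGroup p G) (hperf : commutator G = ⊤)
    (hlf : ∀ s : Set G, s.Finite → ((Subgroup.closure s : Subgroup G) : Set G).Finite)
    (A : Type v) [Ring A] (φ : G →* Aˣ) (hφ : ∃ g, φ g ≠ 1)
    (hcl : ∀ x ∈ Submodule.span ℤ (Set.range fun g : G => ((φ g : Aˣ) : A) - 1),
      IsNilpotent x → ∃ g, ((φ g : Aˣ) : A) = 1 + x) :
    ∃ H : Subgroup G, H ≠ ⊤ ∧ ¬ Group.IsSolvable H := by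
  refine snv hSNT p hp G hG hperf hlf A φ hφ φ.range le_rfl ?_ ?_
  · rw [Subgroup.subgroupOf_self]
    exact Subgroup.IsSubnormal.top
  · intro x hx hxn
    obtain ⟨g, hg⟩ := hcl x hx hxn
    exact ⟨φ g, ⟨g, rfl⟩, hg⟩

end Pool.Agent.Work.MP_3fbbd3_adj
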