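import Pool.Agent.Work.MP_3fbbd3_adj.Def3

/-!
# Subnormal subgroups of unit groups: the lower central series (block LCS)
-/

namespace Pool.Agent.Work.MP_3fbbd3_adj

open Submodule

open scoped commutatorElement

universe u v

namespace LCSx

variable {A : Type u} [Ring A]

/-- the sum of the powers `T ^ i` with `k ≤ i` -/
def E (T : Submodule ℤ A) (k : ℕ) : Submodule ℤ A := ⨆ i : ℕ, T ^ (k + i)

theorem pow_le_E (T : Submodule ℤ A) {k i : ℕ} (h : k ≤ i) : T ^ i ≤ E T k := by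
  obtain ⟨j, rfl⟩ := Nat.exists_eq_add_of_le h
  exact le_iSup (fun i => T ^ (k + i)) j

theorem E_le (T X : Submodule ℤ A) (k : ℕ) (h : ∀ i, k ≤ i → T ^ i ≤ X) : E T k ≤ X :=
  iSup_le fun _ => h _ (Nat.le_add_right _ _)

theorem E_mono (T : Submodule ℤ A) {j k : ℕ} (h : j ≤ k) : E T k ≤ E T j :=
  E_le _ _ _ fun _ hi => pow_le_E T (h.trans hi)

theorem E_mul (T : Submodule ℤ A) (j k : ℕ) : E T j * E T k ≤ E T (j + k) := by
  have h1 : ∀ i l : ℕ, T ^ (j + i) * T ^ (k + l) ≤ E T (j + k) := by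
    intro i l
    rw [← pow_add]
    exact pow_le_E T (by omega)
  have h2 : ∀ i : ℕ, T ^ (j + i) * E T k ≤ E T (j + k) := by
    intro i
    unfold E
    rw [Submodule.mul_iSup]
    exact iSup_le fun l => h1 i l
  unfold E
  rw [Submodule.iSup_mul]
  exact iSup_le fun i => h2 i

theorem E_le_pow_top (T : Submodule ℤ A) (k : ℕ) : E T k ≤ T ^ k * ⊤ :=
  E_le T _ k fun i hi => by
    obtain ⟨j, rfl⟩ := Nat.exists_eq_add_of_le hi
    rw [pow_add]
    exact mul_le_mul' le_rfl le_top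

theorem mul_mem_E {T : Submodule ℤ A} {j k l : ℕ} (h : l ≤ j + k) {a b : A} (ha : a ∈ E T j)
    (hb : b ∈ E T k) : a * b ∈ E T l :=
  E_mono T h (E_mul T j k (Submodule.mul_mem_mul ha hb))

section grp

variable {Γ : Type v} [Group Γ] (φ : Γ →* A)

theorem mul_sub_one_mem {T : Submodule ℤ A} {k : ℕ} {a b : Γ} (ha : φ a - 1 ∈ E T (k + 1))
    (hb : φ b - 1 ∈ E T (k + 1)) : φ (a * b) - 1 ∈ E T (k + 1) := by
  have e : φ (a * b) - 1 = (φ a - 1) * (φ b - 1) + (φ a - 1) + (φ b - 1) := by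
    rw [map_mul]; noncomm_ring
  rw [e]
  exact add_mem (add_mem (mul_mem_E (by omega) ha hb) ha) hb

/-- the congruence subgroup -/
def HE (T : Submodule ℤ A) (k : ℕ) : Subgroup Γ where
  carrier := {x | φ x - 1 ∈ E T (k + 1) ∧ φ x⁻¹ - 1 ∈ E T (k + 1)}
  mul_mem' := by
    rintro a b ⟨ha, ha'⟩ ⟨hb, hb'⟩
    refine ⟨mul_sub_one_mem φ ha hb, ?_⟩
    rw [mul_inv_rev]
    exact mul_sub_one_mem φ hb' ha'
  one_mem' := by
    refine ⟨?_, ?_⟩
    · rw [map_one, sub_self]; exact zero_mem _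
    · rw [inv_one, map_one, sub_self]; exact zero_mem _
  inv_mem' := by
    rintro a ⟨ha, ha'⟩
    exact ⟨ha', by rw [inv_inv]; exact ha⟩

theorem comm_mem {T : Submodule ℤ A} {k : ℕ} {g h : Γ}
    (h1 : (φ g - 1) * (φ h - 1) ∈ E T (k + 2)) (h2 : (φ h - 1) * (φ g - 1) ∈ E T (k + 2))
    (h3 : φ (g⁻¹ * h⁻¹) - 1 ∈ E T 1) : φ ⁅g, h⁆ - 1 ∈ E T (k + 2) := by
  have e : φ ⁅g, h⁆ - 1 = ((φ g - 1) * (φ h - 1) - (φ h - 1) * (φ g - 1)) * φ (g⁻¹ * h⁻¹) := by
    have e1 : (φ g - 1) * (φ h - 1) - (φ h - 1) * (φ g - 1) = φ (g * h) - φ (h * g) := by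
      rw [map_mul, map_mul]; noncomm_ring
    rw [e1, sub_mul, ← map_mul, ← map_mul, commutatorElement_def]
    have e2 : h * g * (g⁻¹ * h⁻¹) = 1 := by group
    have e3 : g * h * (g⁻¹ * h⁻¹) = g * h * g⁻¹ * h⁻¹ := by group
    rw [e2, e3, map_one]
  have e4 : φ ⁅g, h⁆ - 1 = ((φ g - 1) * (φ h - 1) - (φ h - 1) * (φ g - 1)) +
      ((φ g - 1) * (φ h - 1) - (φ h - 1) * (φ g - 1)) * (φ (g⁻¹ * h⁻¹) - 1) := by
    rw [e]
    generalize (φ g - 1) * (φ h - 1) - (φ h - 1) * (φ g - 1) = c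
    rw [mul_sub, mul_one, add_sub_cancel]
  rw [e4]
  have h4 := sub_mem h1 h2
  exact add_mem h4 (mul_mem_E (by omega) h4 h3)

theorem comm_HE (T : Submodule ℤ A) (k : ℕ) : ⁅HE φ T k, HE φ T 0⁆ ≤ HE φ T (k + 1) := by
  rw [Subgroup.commutator_le]
  rintro g ⟨hg, hg'⟩ h ⟨hh, hh'⟩
  have hh1 : φ h - 1 ∈ E T 1 := hh
  have hh2 : φ h⁻¹ - 1 ∈ E T 1 := hh'
  have hg2 : φ g⁻¹ - 1 ∈ E T 1 := E_mono T (by omega) hg'
  have h1 : (φ g - 1) * (φ h - 1) ∈ E T (k + 2) := mul_mem_E (by omega) hg hh1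
  have h2 : (φ h - 1) * (φ g - 1) ∈ E T (k + 2) := mul_mem_E (by omega) hh1 hg
  refine ⟨comm_mem φ h1 h2 (mul_sub_one_mem φ (k := 0) hg2 hh2), ?_⟩
  rw [commutatorElement_inv]
  exact comm_mem φ h2 h1 (mul_sub_one_mem φ (k := 0) hh2 hg2)

theorem lcs_le (T : Submodule ℤ A) (H : Subgroup Γ) (hH : H ≤ HE φ T 0) (k : ℕ) :
    H.lowerCentralSeries k ≤ HE φ T k := by
  induction k with
  | zero => exact hH
  | succ k ih =>
    rw [Subgroup.lowerCentralSeries_succ]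
    exact (Subgroup.commutator_mono ih hH).trans (comm_HE φ T k)

theorem fin_lcs (N : Subgroup Γ) (k : ℕ) : ∀ x ∈ N.lowerCentralSeries k,
    ∃ F : Set Γ, F.Finite ∧ F ⊆ N ∧ x ∈ (Subgroup.closure F).lowerCentralSeries k := by
  induction k with
  | zero =>
    intro x hx
    exact ⟨{x}, Set.finite_singleton x, by simpa using hx, Subgroup.subset_closure rfl⟩
  | succ k ih =>
    intro x hx
    rw [Subgroup.mem_lowerCentralSeries_succ_iff] at hx
    induction hx using Subgroup.closure_induction with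
    | mem x hx =>
      obtain ⟨a, ha, b, hb, rfl⟩ := hx
      obtain ⟨F, hF, hFN, haF⟩ := ih a ha
      refine ⟨insert b F, hF.insert b, Set.insert_subset hb hFN, ?_⟩
      rw [Subgroup.lowerCentralSeries_succ]
      exact Subgroup.commutator_mem_commutator
        (Subgroup.lowerCentralSeries_mono k (Subgroup.closure_mono (Set.subset_insert _ _)) haF)
        (Subgroup.subset_closure (Set.mem_insert _ _))
    | one => exact ⟨∅, Set.finite_empty, Set.empty_subset _, one_mem _⟩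
    | mul x y _ _ hx hy =>
      obtain ⟨F, hF, hFN, hxF⟩ := hx
      obtain ⟨F', hF', hFN', hyF⟩ := hy
      refine ⟨F ∪ F', hF.union hF', Set.union_subset hFN hFN', ?_⟩
      exact mul_mem
        (Subgroup.lowerCentralSeries_mono (k + 1) (Subgroup.closure_mono Set.subset_union_left) hxF)
        (Subgroup.lowerCentralSeries_mono (k + 1) (Subgroup.closure_mono Set.subset_union_right) hyF)
    | inv x _ hx =>
      obtain ⟨F, hF, hFN, hxF⟩ := hx
      exact ⟨F, hF, hFN, inv_mem hxF⟩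

end grp

end LCSx

open LCSx in
theorem blk_LCS : S_LCS.{u} := by
  intro p A _ Γ _ M φ hA N m hm h x hx
  obtain ⟨F, hF, hFN, hxF⟩ := fin_lcs N m x hx
  obtain ⟨n, hn⟩ := h (F ∪ (fun g => g⁻¹) '' F) (hF.union (hF.image _)) (by
    rintro g (hg | ⟨y, hy, rfl⟩)
    · exact ⟨hFN hg, Or.inr ⟨g, hg, rfl⟩⟩
    · refine ⟨inv_mem (hFN hy), Or.inl ?_⟩
      change y⁻¹⁻¹ ∈ F
      rw [inv_inv]
      exact hy)
  set T : Submodule ℤ A := span ℤ ((fun g => φ g - 1) '' (F ∪ (fun g => g⁻¹) '' F)) with hT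
  have hgen : ∀ g ∈ F ∪ (fun g => g⁻¹) '' F, φ g - 1 ∈ E T 1 := by
    intro g hg
    have h1 : φ g - 1 ∈ T ^ 1 := by rw [pow_one, hT]; exact subset_span ⟨g, hg, rfl⟩
    exact pow_le_E T le_rfl h1
  have h0 : Subgroup.closure F ≤ HE φ T 0 := by
    rw [Subgroup.closure_le]
    intro g hg
    exact ⟨hgen g (Or.inl hg), hgen g⁻¹ (Or.inr ⟨g, hg, rfl⟩)⟩
  have h2 : φ x - 1 ∈ E T (m + 1) := (lcs_le φ T _ h0 m hxF).1
  refine ⟨hA.mem x, n, ?_⟩
  rw [eq_bot_iff, ← hn]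
  refine pow_le_pow_left' ?_ n
  refine gi_le ?_ ?_ ?_
  · rw [← mul_assoc, ← mul_assoc, top_mul_top]
  · rw [mul_assoc, top_mul_top]
  · rw [Set.singleton_subset_iff, mul_assoc]
    exact le_top_mul _ (E_le_pow_top T m (E_mono T (Nat.le_succ m) h2))

end Pool.Agent.Work.MP_3fbbd3_adj
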