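import Pool.Agent.Work.MP_3fbbd3_adj.Def3

/-!
# Block MSN: subnormal subgroups of adjoint groups
-/

namespace Pool.Agent.Work.MP_3fbbd3_adj

open Submodule

open scoped commutatorElement

universe u v

namespace MSN

variable {A : Type u} [Ring A] {G : Type u} [Group G]

theorem lcs_mono {S S' : Subgroup G} (h : S ≤ S') (i : ℕ) :
    S.lowerCentralSeries i ≤ S'.lowerCentralSeries i := by
  induction i with
  | zero => exact h
  | succ i ih =>
      rw [Subgroup.lowerCentralSeries_succ, Subgroup.lowerCentralSeries_succ]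
      exact Subgroup.commutator_mono ih h

theorem nc_le (φ : G →* A) (F : Set G) :
    Subgroup.normalClosure F ≤ HL φ (gi ((fun g => φ g - 1) '' F)) (gi_l _) := by
  have := HL_normal φ (gi ((fun g => φ g - 1) '' F)) (gi_l _) (gi_r _)
  refine Subgroup.normalClosure_le_normal ?_
  intro f hf
  exact subset_gi _ ⟨f, hf, rfl⟩

theorem lcs_le (φ : G →* A) (F : Set G) (i : ℕ) :
    (Subgroup.normalClosure F).lowerCentralSeries i
      ≤ HL φ (gi ((fun g => φ g - 1) '' F) ^ (i + 1)) (pow_l _ (gi_l _) i) := by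
  induction i with
  | zero =>
      intro g hg
      rw [Subgroup.lowerCentralSeries_zero] at hg
      have h1 := nc_le φ F hg
      rw [mem_HL] at h1 ⊢
      simpa using h1
  | succ i ih =>
      rw [Subgroup.lowerCentralSeries_succ]
      refine (Subgroup.commutator_mono ih (nc_le φ F)).trans ?_
      refine comm_HL φ _ _ _ _ _ _ (pow_r _ (gi_r _) _) ?_ ?_
      · rw [← pow_succ]
      · rw [← pow_succ']

end MSN

theorem blk_MSN (hNIL : S_NIL.{u}) (hNAK : S_NAK.{u}) (hLCS : S_LCS.{u}) (hPG : S_PG.{u}) :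
    S_MSN.{u} := by
  intro p hp A _ Γ _ M φ hA hgen P hP hperf hPne
  by_contra hcon
  have hs : ∀ H : Subgroup ↥P, H ≠ ⊤ → Group.IsSolvable H := by
    intro H hH
    by_contra h
    exact hcon ⟨H, hH, h⟩
  let φP : P →* A := φ.comp P.subtype
  have hφP : ∀ g : P, φP g = φ g := fun _ => rfl
  obtain ⟨hpg, hlf⟩ := hPG p hp A Γ M φ hA
  have hpgP : IsPGroup p P := hpg.to_subgroup P
  have hlfP : ∀ s : Set P, s.Finite → ((Subgroup.closure s : Subgroup P) : Set P).Finite := by
    intro s hs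
    have h1 := hlf (P.subtype '' s) (hs.image _)
    rw [← MonoidHom.map_closure] at h1
    exact Set.Finite.of_finite_image h1 (Subtype.val_injective.injOn)
  have hinj : ∀ g : P, φP g - 1 = 0 → g = 1 := by
    intro g hg
    apply Subtype.ext
    apply hA.inj
    rw [← hφP, sub_eq_zero.mp hg, Subgroup.coe_one, map_one]
  have hSM : ∀ F0 : Set P, (fun g => φP g - 1) '' F0 ⊆ M := by
    rintro F0 _ ⟨g, _, rfl⟩
    exact hA.mem _
  have key : ∀ F0 : Set P, F0.Finite → ∃ m : ℕ,
      ∀ x ∈ (Subgroup.normalClosure F0).lowerCentralSeries m, φP x - 1 ∈ N1 M := by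
    intro F0 hF0
    set S : Set A := (fun g => φP g - 1) '' F0 with hS
    have hSf : S.Finite := hF0.image _
    have hSM' : S ⊆ M := hSM F0
    have hWM : gi S ≤ M := gi_le hA.hl hA.hr hSM'
    have hK : ⊤ * (gi S * gi S) ≤ gi S * gi S := by
      rw [← mul_assoc]; exact mul_le_mul' (gi_l S) le_rfl
    have hKr : gi S * gi S * ⊤ ≤ gi S * gi S := by
      rw [mul_assoc]; exact mul_le_mul' le_rfl (gi_r S)
    have hprop : HL φP (gi S) (gi_l S) ≠ ⊤ := by
      intro h
      have h1 : ∀ g : P, φP g - 1 ∈ gi S := by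
        intro g
        have : g ∈ HL φP (gi S) (gi_l S) := by rw [h]; exact Subgroup.mem_top g
        exact this
      have hcomm := comm_HL φP (gi S) (gi S) (gi S * gi S) (gi_l S) (gi_l S) hK hKr le_rfl le_rfl
      rw [h, ← commutator_def, hperf] at hcomm
      have h2 : gi S ≤ gi S * gi S := by
        refine gi_le hK hKr ?_
        rintro _ ⟨g, _, rfl⟩
        exact hcomm (Subgroup.mem_top g)
      have h3 := hNAK A M hA.hl hA.hr hgen hA.nil S hSf hSM' h2
      apply hPne
      rw [eq_bot_iff]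
      intro g hg
      have h4 := h1 ⟨g, hg⟩
      rw [h3, Submodule.mem_bot] at h4
      rw [Subgroup.mem_bot]
      exact congrArg Subtype.val (hinj ⟨g, hg⟩ h4)
    have hsol := hs _ hprop
    have hsol2 : Group.IsSolvable ↥(P ⊓ HL φ (gi S) (gi_l S)) := by
      let f : ↥(P ⊓ HL φ (gi S) (gi_l S)) →* ↥(HL φP (gi S) (gi_l S)) :=
        { toFun := fun x => ⟨⟨x.1, x.2.1⟩, x.2.2⟩
          map_one' := rfl
          map_mul' := fun _ _ => rfl }
      refine Group.isSolvable_of_isSolvable_injective (f := f) ?_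
      intro x y hxy
      apply Subtype.ext
      exact congrArg (fun z : ↥(HL φP (gi S) (gi_l S)) => ((z : P) : Γ)) hxy
    obtain ⟨d, hd⟩ := hsol2.solvable
    obtain ⟨m, hm0, hm⟩ := hNIL A Γ φ (gi S) (gi_l S) (fun x hx => hA.surj x (hWM hx)) P hP d hd
    have hL := hLCS p A Γ M φ hA (P ⊓ HL φ (gi S) (gi_l S)) m hm0 (by
      intro F hF hF2
      refine hm F (fun g hg => ⟨(hF2 g hg).1.1, (hF2 g hg).1.2, (hF2 g hg).2⟩) ?_
      refine hA.nil _ (hF.image _) ?_
      rintro _ ⟨g, _, rfl⟩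
      exact hA.mem g)
    refine ⟨m, fun x hx => ?_⟩
    have h5 : (Subgroup.normalClosure F0).map P.subtype ≤ P ⊓ HL φ (gi S) (gi_l S) := by
      rintro _ ⟨g, hg, rfl⟩
      exact ⟨g.2, MSN.nc_le φP F0 hg⟩
    have h6 : (x : Γ) ∈ (P ⊓ HL φ (gi S) (gi_l S)).lowerCentralSeries m := by
      refine MSN.lcs_mono h5 m ?_
      rw [← Subgroup.map_lowerCentralSeries]
      exact ⟨x, hx, rfl⟩
    exact hL x h6
  by_cases hN : ∀ g : P, φP g - 1 ∈ N1 M
  · have hbt : (⊥ : Subgroup P) ≠ ⊤ := by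
      intro h
      apply hPne
      rw [eq_bot_iff]
      intro g hg
      have h1 : (⟨g, hg⟩ : P) ∈ (⊥ : Subgroup P) := by rw [h]; exact Subgroup.mem_top _
      rw [Subgroup.mem_bot] at h1
      rw [Subgroup.mem_bot]
      exact congrArg Subtype.val h1
    refine hcon (fittingCase p hp P hpgP hperf hlfP ⊥ inferInstance hbt ?_)
    intro F hF x hx
    obtain ⟨n, hn⟩ := gi_fin_pow (N1 M) ⊥ (by simp) (by simp)
      (fun y hy => by obtain ⟨n, hn⟩ := hy.2; exact ⟨n, hn.le⟩)
      ((fun g => φP g - 1) '' F) (hF.image _) (by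
        rintro _ ⟨g, _, rfl⟩
        exact hN g)
    have h1 := hx n
    rw [sup_bot_eq] at h1
    have h2 := MSN.lcs_le φP F n h1
    rw [mem_HL, pow_succ] at h2
    have h3 : gi ((fun g => φP g - 1) '' F) ^ n * gi ((fun g => φP g - 1) '' F) ≤ ⊥ := by
      refine (mul_le_mul' hn le_rfl).trans ?_
      simp
    have h4 := h3 h2
    rw [Submodule.mem_bot] at h4
    rw [Subgroup.mem_bot]
    exact hinj x h4
  · have hKt : HL φP (N1 M) (N1_l M hA.hl) ≠ ⊤ := by
      intro h
      apply hN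
      intro g
      have : g ∈ HL φP (N1 M) (N1_l M hA.hl) := by rw [h]; exact Subgroup.mem_top g
      exact this
    refine hcon (fittingCase p hp P hpgP hperf hlfP (HL φP (N1 M) (N1_l M hA.hl))
      (HL_normal φP _ _ (N1_r M hA.hr)) hKt ?_)
    intro F hF x hx
    obtain ⟨m, hm⟩ := key F hF
    have h2 : (Subgroup.normalClosure F).lowerCentralSeries m ⊔ HL φP (N1 M) (N1_l M hA.hl)
        ≤ HL φP (N1 M) (N1_l M hA.hl) := sup_le (fun y hy => hm y hy) le_rfl
    exact h2 (hx m)

end Pool.Agent.Work.MP_3fbbd3_adj
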