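import Pool.Agent.Work.MP_3fbbd3_adj.Def4
import Pool.Agent.Work.MP_3fbbd3_adj.MSN

/-!
# Block MSU: subnormal subgroups of unitary groups
-/

namespace Pool.Agent.Work.MP_3fbbd3_adj

open Submodule

open scoped commutatorElement

universe u v

/-- the Cayley transform of a skew element of `M` -/
theorem MSU.cayley {p : ℕ} {A : Type u} [Ring A] [StarRing A] {Γ : Type v} [Group Γ]
    {M : Submodule ℤ A} {φ : Γ →* A} (hA : Adj p M φ) (y : A) (hy : y ∈ M) (hs : star y = -y) :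
    ∃ g : ↥(Uu φ), φ (g : Γ) * (1 - y) = 1 + y := by
  obtain ⟨g1, h1⟩ := hA.surj y hy
  obtain ⟨g2, h2⟩ := hA.surj (-y) (M.neg_mem hy)
  rw [← sub_eq_add_neg] at h2
  have hc : g1 * g2 = g2 * g1 := by
    apply hA.inj
    rw [map_mul, map_mul, h1, h2]
    noncomm_ring
  have hc2 : g1⁻¹ * g2 = g2 * g1⁻¹ := by
    rw [inv_mul_eq_iff_eq_mul, ← mul_assoc, hc, mul_inv_cancel_right]
  have e1 : star (φ g2) = φ g1 := by
    rw [h2, star_sub, star_one, hs, h1, sub_neg_eq_add]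
  have e2 : star (φ g1) = φ g2 := by
    rw [h1, star_add, star_one, hs, h2, sub_eq_add_neg]
  have e3 : star (φ g2⁻¹) = φ g1⁻¹ := by
    have h3 : star (φ g2⁻¹) * φ g1 = 1 := by
      rw [← e1, ← star_mul, phi_mul_inv, star_one]
    have h4 : φ g1 * φ g1⁻¹ = 1 := phi_mul_inv φ g1
    calc star (φ g2⁻¹) = star (φ g2⁻¹) * (φ g1 * φ g1⁻¹) := by rw [h4, mul_one]
      _ = φ g1⁻¹ := by rw [← mul_assoc, h3, one_mul]
  refine ⟨⟨g1 * g2⁻¹, ?_⟩, ?_⟩
  · show star (φ (g1 * g2⁻¹)) = φ (g1 * g2⁻¹)⁻¹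
    rw [map_mul, star_mul, e3, e2, ← map_mul, hc2, mul_inv_rev, inv_inv]
  · show φ (g1 * g2⁻¹) * (1 - y) = 1 + y
    rw [← h1, ← h2, ← map_mul, inv_mul_cancel_right]

theorem blk_MSU (hNILU : S_NILU.{u}) (hNAK : S_NAK.{u}) (hLCS : S_LCS.{u}) (hPG : S_PG.{u}) :
    S_MSU.{u} := by
  intro p hp hp2 A _ _ Γ _ M φ hA hgen hstar P hPU hP hperf hPne
  by_contra hcon
  have hs : ∀ H : Subgroup ↥P, H ≠ ⊤ → Group.IsSolvable H := by
    intro H hH
    by_contra h
    exact hcon ⟨H, hH, h⟩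
  let φP : P →* A := φ.comp P.subtype
  have hφP : ∀ g : P, φP g = φ g := fun _ => rfl
  obtain ⟨hpg, hlf⟩ := hPG p hp A Γ M φ hA
  have hpgP : IsPGroup p P := hpg.to_subgroup P
  have hlfP : ∀ s : Set P, s.Finite → ((Subgroup.closure s : Subgroup P) : Set P).Finite := by
    intro s hs
    have h1 := hlf (P.subtype '' s) (hs.image _)
    rw [← MonoidHom.map_closure] at h1
    exact Set.Finite.of_finite_image h1 (Subtype.val_injective.injOn)
  have hinj : ∀ g : P, φP g - 1 = 0 → g = 1 := by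
    intro g hg
    apply Subtype.ext
    apply hA.inj
    rw [← hφP, sub_eq_zero.mp hg, Subgroup.coe_one, map_one]
  have hSM : ∀ F0 : Set P, (fun g => φP g - 1) '' F0 ⊆ M := by
    rintro F0 _ ⟨g, _, rfl⟩
    exact hA.mem _
  have key : ∀ F0 : Set P, F0.Finite → ∃ m : ℕ,
      ∀ x ∈ (Subgroup.normalClosure F0).lowerCentralSeries m, φP x - 1 ∈ N1 M := by
    intro F0 hF0
    set S : Set A := (fun g => φP g - 1) '' F0 with hS
    have hSf : S.Finite := hF0.image _
    have hSM' : S ⊆ M := hSM F0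
    have hWM : gi S ≤ M := gi_le hA.hl hA.hr hSM'
    have hK : ⊤ * (gi S * gi S) ≤ gi S * gi S := by
      rw [← mul_assoc]; exact mul_le_mul' (gi_l S) le_rfl
    have hKr : gi S * gi S * ⊤ ≤ gi S * gi S := by
      rw [mul_assoc]; exact mul_le_mul' le_rfl (gi_r S)
    have hprop : HL φP (gi S) (gi_l S) ≠ ⊤ := by
      intro h
      have h1 : ∀ g : P, φP g - 1 ∈ gi S := by
        intro g
        have : g ∈ HL φP (gi S) (gi_l S) := by rw [h]; exact Subgroup.mem_top g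
        exact this
      have hcomm := comm_HL φP (gi S) (gi S) (gi S * gi S) (gi_l S) (gi_l S) hK hKr le_rfl le_rfl
      rw [h, ← commutator_def, hperf] at hcomm
      have h2 : gi S ≤ gi S * gi S := by
        refine gi_le hK hKr ?_
        rintro _ ⟨g, _, rfl⟩
        exact hcomm (Subgroup.mem_top g)
      have h3 := hNAK A M hA.hl hA.hr hgen hA.nil S hSf hSM' h2
      apply hPne
      rw [eq_bot_iff]
      intro g hg
      have h4 := h1 ⟨g, hg⟩
      rw [h3, Submodule.mem_bot] at h4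
      rw [Subgroup.mem_bot]
      exact congrArg Subtype.val (hinj ⟨g, hg⟩ h4)
    have hsol := hs _ hprop
    have hsol2 : Group.IsSolvable
        ↥(P.subgroupOf (Uu φ) ⊓ HL (φ.comp (Uu φ).subtype) (gi S) (gi_l S)) := by
      let f : ↥(P.subgroupOf (Uu φ) ⊓ HL (φ.comp (Uu φ).subtype) (gi S) (gi_l S)) →*
          ↥(HL φP (gi S) (gi_l S)) :=
        { toFun := fun x => ⟨⟨x.1.1, x.2.1⟩, x.2.2⟩
          map_one' := rfl
          map_mul' := fun _ _ => rfl }
      refine Group.isSolvable_of_isSolvable_injective (f := f) ?_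
      intro x y hxy
      apply Subtype.ext
      apply Subtype.ext
      exact congrArg (fun z : ↥(HL φP (gi S) (gi_l S)) => ((z : P) : Γ)) hxy
    obtain ⟨d, hd⟩ := hsol2.solvable
    obtain ⟨m, hm0, hm⟩ := hNILU p hp hp2 A ↥(Uu φ) (φ.comp (Uu φ).subtype) (fun g => g.2)
      (gi S) (gi_l S) (fun x hx => hA.tor x (hWM hx))
      (fun y hy hys => MSU.cayley hA y (hWM hy) hys) (P.subgroupOf (Uu φ)) hP d hd
    have hL := hLCS p A Γ M φ hA (P ⊓ HL φ (gi S) (gi_l S)) m hm0 (by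
      intro F hF hF2
      have himg : (fun g => (φ.comp (Uu φ).subtype) g - 1) '' {g : ↥(Uu φ) | (g : Γ) ∈ F}
          = (fun g => φ g - 1) '' F := by
        ext z
        constructor
        · rintro ⟨g, hg, rfl⟩
          exact ⟨g, hg, rfl⟩
        · rintro ⟨g, hg, rfl⟩
          exact ⟨⟨g, hPU (hF2 g hg).1.1⟩, hg, rfl⟩
      have h1 := hm {g : ↥(Uu φ) | (g : Γ) ∈ F}
        (fun g hg => ⟨(hF2 g hg).1.1, (hF2 g hg).1.2, (hF2 g hg).2⟩) (by
          rw [himg]
          refine hA.nil _ (hF.image _) ?_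
          rintro _ ⟨g, _, rfl⟩
          exact hA.mem g)
      rw [himg] at h1
      exact h1)
    refine ⟨m, fun x hx => ?_⟩
    have h5 : (Subgroup.normalClosure F0).map P.subtype ≤ P ⊓ HL φ (gi S) (gi_l S) := by
      rintro _ ⟨g, hg, rfl⟩
      exact ⟨g.2, MSN.nc_le φP F0 hg⟩
    have h6 : (x : Γ) ∈ (P ⊓ HL φ (gi S) (gi_l S)).lowerCentralSeries m := by
      refine MSN.lcs_mono h5 m ?_
      rw [← Subgroup.map_lowerCentralSeries]
      exact ⟨x, hx, rfl⟩
    exact hL x h6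
  by_cases hN : ∀ g : P, φP g - 1 ∈ N1 M
  · have hbt : (⊥ : Subgroup P) ≠ ⊤ := by
      intro h
      apply hPne
      rw [eq_bot_iff]
      intro g hg
      have h1 : (⟨g, hg⟩ : P) ∈ (⊥ : Subgroup P) := by rw [h]; exact Subgroup.mem_top _
      rw [Subgroup.mem_bot] at h1
      rw [Subgroup.mem_bot]
      exact congrArg Subtype.val h1
    refine hcon (fittingCase p hp P hpgP hperf hlfP ⊥ inferInstance hbt ?_)
    intro F hF x hx
    obtain ⟨n, hn⟩ := gi_fin_pow (N1 M) ⊥ (by simp) (by simp)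
      (fun y hy => by obtain ⟨n, hn⟩ := hy.2; exact ⟨n, hn.le⟩)
      ((fun g => φP g - 1) '' F) (hF.image _) (by
        rintro _ ⟨g, _, rfl⟩
        exact hN g)
    have h1 := hx n
    rw [sup_bot_eq] at h1
    have h2 := MSN.lcs_le φP F n h1
    rw [mem_HL, pow_succ] at h2
    have h3 : gi ((fun g => φP g - 1) '' F) ^ n * gi ((fun g => φP g - 1) '' F) ≤ ⊥ := by
      refine (mul_le_mul' hn le_rfl).trans ?_
      simp
    have h4 := h3 h2
    rw [Submodule.mem_bot] at h4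
    rw [Subgroup.mem_bot]
    exact hinj x h4
  · have hKt : HL φP (N1 M) (N1_l M hA.hl) ≠ ⊤ := by
      intro h
      apply hN
      intro g
      have : g ∈ HL φP (N1 M) (N1_l M hA.hl) := by rw [h]; exact Subgroup.mem_top g
      exact this
    refine hcon (fittingCase p hp P hpgP hperf hlfP (HL φP (N1 M) (N1_l M hA.hl))
      (HL_normal φP _ _ (N1_r M hA.hr)) hKt ?_)
    intro F hF x hx
    obtain ⟨m, hm⟩ := key F hF
    have h2 : (Subgroup.normalClosure F).lowerCentralSeries m ⊔ HL φP (N1 M) (N1_l M hA.hl)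
        ≤ HL φP (N1 M) (N1_l M hA.hl) := sup_le (fun y hy => hm y hy) le_rfl
    exact h2 (hx m)

end Pool.Agent.Work.MP_3fbbd3_adj
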