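import Pool.Agent.Work.MP_3fbbd3_adj.Def3

/-!
# Block NAK (typed by helper53): Nakayama for locally nilpotent rings
-/

namespace Pool.Agent.Work.MP_3fbbd3_adj

universe u

namespace NAK

open Submodule

universe w

variable {A : Type w} [Ring A]

/-- `ℤ + span F` -/
def E (F : Set A) : Submodule ℤ A := 1 + span ℤ F

theorem E_mono : Monotone (E : Set A → Submodule ℤ A) := fun _ _ h =>
  sup_le_sup_left (span_mono h) _

theorem mem_E (M : Submodule ℤ A) (hk : ∀ a : A, ∃ k : ℤ, a - k ∈ M) (a : A) :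
    ∃ F : Set A, F.Finite ∧ F ⊆ M ∧ a ∈ E F := by
  obtain ⟨k, hk⟩ := hk a
  refine ⟨{a - (k : A)}, Set.finite_singleton _, Set.singleton_subset_iff.2 hk, ?_⟩
  have h1 : ((k : ℤ) : A) ∈ (1 : Submodule ℤ A) := by
    rw [Submodule.mem_one]
    exact ⟨k, by simp⟩
  have h2 : a - (k : A) ∈ span ℤ ({a - (k : A)} : Set A) := subset_span rfl
  have h3 : (k : A) + (a - (k : A)) ∈ E {a - (k : A)} :=
    add_mem (mem_sup_left h1) (mem_sup_right h2)
  have e : (k : A) + (a - (k : A)) = a := by abel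
  rw [e] at h3
  exact h3

theorem step_mul (M : Submodule ℤ A) {X Y : Submodule ℤ A} (f g : Set A → Submodule ℤ A)
    (hf : Monotone f) (hg : Monotone g)
    (hX : ∀ x ∈ X, ∃ F : Set A, F.Finite ∧ F ⊆ M ∧ x ∈ f F)
    (hY : ∀ y ∈ Y, ∃ F : Set A, F.Finite ∧ F ⊆ M ∧ y ∈ g F) :
    ∀ z ∈ X * Y, ∃ F : Set A, F.Finite ∧ F ⊆ M ∧ z ∈ f F * g F := by
  intro z hz
  refine Submodule.mul_induction_on hz ?_ ?_
  · intro x hx y hy
    obtain ⟨F, h1, h2, h3⟩ := hX x hx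
    obtain ⟨G, k1, k2, k3⟩ := hY y hy
    exact ⟨F ∪ G, h1.union k1, Set.union_subset h2 k2,
      mul_mem_mul (hf Set.subset_union_left h3) (hg Set.subset_union_right k3)⟩
  · rintro x y ⟨F, h1, h2, h3⟩ ⟨G, k1, k2, k3⟩
    refine ⟨F ∪ G, h1.union k1, Set.union_subset h2 k2, add_mem ?_ ?_⟩
    · exact mul_le_mul' (hf Set.subset_union_left) (hg Set.subset_union_left) h3
    · exact mul_le_mul' (hf Set.subset_union_right) (hg Set.subset_union_right) k3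

theorem comb (q e : Submodule ℤ A) (hc : Commute q e) (a k : ℕ) :
    (e * (q ^ a * e ^ k) * e) * (e * (q ^ a * e ^ k) * e) = q ^ (a + a) * e ^ (k + 2 + (k + 2)) := by
  have h1 : e * q ^ a = q ^ a * e := ((hc.pow_left a).eq).symm
  have h2 : e * (q ^ a * e ^ k) * e = q ^ a * e ^ (k + 2) := by
    rw [← mul_assoc, h1, mul_assoc (q ^ a) e, ← pow_succ', mul_assoc, ← pow_succ]
  have h3 : e ^ (k + 2) * q ^ a = q ^ a * e ^ (k + 2) := ((hc.pow_pow a (k + 2)).eq).symm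
  rw [h2, mul_assoc (q ^ a), ← mul_assoc (e ^ (k + 2)), h3, mul_assoc (q ^ a), ← mul_assoc (q ^ a),
    ← pow_add, ← pow_add]

theorem main (T q e : Submodule ℤ A) (hc : Commute q e) (hT : T ≤ q)
    (h : T ≤ (e * T * e) * (e * T * e)) (j : ℕ) : ∃ k : ℕ, T ≤ q ^ (2 ^ j) * e ^ k := by
  induction j with
  | zero => exact ⟨0, by rw [pow_zero, pow_zero, pow_one, mul_one]; exact hT⟩
  | succ j ih =>
    obtain ⟨k, hk⟩ := ih
    refine ⟨k + 2 + (k + 2), ?_⟩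
    have h1 : e * T * e ≤ e * (q ^ (2 ^ j) * e ^ k) * e :=
      mul_le_mul' (mul_le_mul' le_rfl hk) le_rfl
    have h2 := h.trans (mul_le_mul' h1 h1)
    rw [comb q e hc] at h2
    have h3 : 2 ^ (j + 1) = 2 ^ j + 2 ^ j := by rw [pow_succ]; ring
    rw [h3]
    exact h2

end NAK

open Submodule in
theorem blk_NAK : S_NAK.{u} := by
  intro A _ M _ _ hk hnil S hS hSM hX
  have h0 : ∀ a ∈ (⊤ : Submodule ℤ A), ∃ F : Set A, F.Finite ∧ F ⊆ M ∧ a ∈ NAK.E F :=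
    fun a _ => NAK.mem_E M hk a
  have hT : ∀ t ∈ span ℤ S, ∃ F : Set A, F.Finite ∧ F ⊆ M ∧
      t ∈ (fun _ : Set A => span ℤ S) F :=
    fun t ht => ⟨∅, Set.finite_empty, Set.empty_subset _, ht⟩
  have mT : Monotone (fun _ : Set A => span ℤ S) := fun _ _ _ => le_rfl
  have h1 := NAK.step_mul M NAK.E (fun _ => span ℤ S) NAK.E_mono mT h0 hT
  have m1 : Monotone (fun F : Set A => NAK.E F * span ℤ S) := fun _ _ h =>
    mul_le_mul' (NAK.E_mono h) le_rfl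
  have h2 := NAK.step_mul M (fun F => NAK.E F * span ℤ S) NAK.E m1 NAK.E_mono h1 h0
  have m2 : Monotone (fun F : Set A => NAK.E F * span ℤ S * NAK.E F) := fun _ _ h =>
    mul_le_mul' (m1 h) (NAK.E_mono h)
  have h3 := NAK.step_mul M (fun F => NAK.E F * span ℤ S * NAK.E F)
    (fun F => NAK.E F * span ℤ S * NAK.E F) m2 m2 h2 h2
  have m3 : Monotone (fun F : Set A => (NAK.E F * span ℤ S * NAK.E F) *
      (NAK.E F * span ℤ S * NAK.E F)) := fun _ _ h => mul_le_mul' (m2 h) (m2 h)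
  have h4 : ∀ s ∈ S, ∃ F : Set A, F.Finite ∧ F ⊆ M ∧
      s ∈ (NAK.E F * span ℤ S * NAK.E F) * (NAK.E F * span ℤ S * NAK.E F) :=
    fun s hs => h3 s (hX (subset_gi S hs))
  choose! F hF1 hF2 hF3 using h4
  have hfin : (S ∪ ⋃ s ∈ S, F s).Finite := hS.union (hS.biUnion hF1)
  have hsub : (S ∪ ⋃ s ∈ S, F s) ⊆ (M : Set A) :=
    Set.union_subset hSM (Set.iUnion₂_subset hF2)
  obtain ⟨n, hn⟩ := hnil _ hfin hsub
  have hle : span ℤ S ≤ (NAK.E (S ∪ ⋃ s ∈ S, F s) * span ℤ S * NAK.E (S ∪ ⋃ s ∈ S, F s)) *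
      (NAK.E (S ∪ ⋃ s ∈ S, F s) * span ℤ S * NAK.E (S ∪ ⋃ s ∈ S, F s)) := by
    apply span_le.2
    intro s hs
    exact m3 ((Set.subset_biUnion_of_mem (u := F) hs).trans Set.subset_union_right) (hF3 s hs)
  have hc : Commute (span ℤ (S ∪ ⋃ s ∈ S, F s)) (NAK.E (S ∪ ⋃ s ∈ S, F s)) :=
    (Commute.one_right _).add_right (Commute.refl _)
  obtain ⟨k, hk2⟩ := NAK.main (span ℤ S) (span ℤ (S ∪ ⋃ s ∈ S, F s)) _ hc
    (span_mono Set.subset_union_left) hle n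
  have hlt : n ≤ 2 ^ n := Nat.lt_two_pow_self.le
  have hz : (span ℤ (S ∪ ⋃ s ∈ S, F s)) ^ (2 ^ n) = ⊥ := by
    obtain ⟨c, hc2⟩ := Nat.exists_eq_add_of_le hlt
    rw [hc2, pow_add, hn, Submodule.bot_mul]
  rw [hz, Submodule.bot_mul] at hk2
  have hbot : span ℤ S = ⊥ := le_bot_iff.1 hk2
  rw [gi, hbot, Submodule.mul_bot, Submodule.bot_mul]

end Pool.Agent.Work.MP_3fbbd3_adj
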