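import Pool.Agent.Work.MP_3fbbd3_adj.NILU3

/-!
# Block NILU, fourth part
-/

namespace Pool.Agent.Work.MP_3fbbd3_adj

open Submodule

open scoped commutatorElement

universe u v

namespace NILU

open NIL

variable {A : Type u} [Ring A] {Γ : Type v} [Group Γ]

theorem pr_congr (Q Q' : ℕ → Submodule ℤ A) : ∀ n, (∀ i, i < n → Q i = Q' i) →
    pr Q 0 n = pr Q' 0 n := by
  intro n
  induction n with
  | zero => intro _; rfl
  | succ n ih =>
      intro h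
      show pr Q 0 n * Q (0 + n) = pr Q' 0 n * Q' (0 + n)
      rw [ih (fun i hi => h i (by omega)), zero_add, h n (by omega)]

theorem stepU (φ : Γ →* A) (W : Submodule ℤ A) (hW : ⊤ * W ≤ W) (P : Subgroup Γ) (n : ℕ)
    (hC : CovU φ W hW P n) (d : ℕ) (hd : derivedSeries ↥(P ⊓ HL φ W hW) d = ⊥)
    (F : Set Γ) (hF : ∀ g ∈ F, g ∈ P ∧ φ g - 1 ∈ W ∧ g⁻¹ ∈ F) (k : ℕ)
    (hk : 2 * ((n + 1) * 2 ^ d) + 1 ≤ k) :
    (⊤ * (span ℤ ((fun g => φ g - 1) '' F)) ^ (k - 1) * ⊤) ^ (2 ^ d + 1)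
      ≤ ⊤ * (span ℤ ((fun g => φ g - 1) '' F)) ^ k * ⊤ := by
  set T : Submodule ℤ A := span ℤ ((fun g => φ g - 1) '' F) with hT
  have hpos : 1 ≤ 2 ^ d := Nat.one_le_two_pow
  obtain ⟨r, hr2⟩ : ∃ r, 2 ^ d = r + 1 := ⟨2 ^ d - 1, by omega⟩
  have hk1 : (n + 1) * (r + 1) = (n + 1) * r + (n + 1) := by ring
  set J : Submodule ℤ A := ⊤ * T ^ k * ⊤ with hJ
  have hl : ⊤ * J ≤ J := by
    rw [hJ, ← mul_assoc, ← mul_assoc, top_mul_top]
  have hr : J * ⊤ ≤ J := by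
    rw [hJ, mul_assoc, top_mul_top]
  obtain ⟨s, hs⟩ : ∃ s, s = (n + 1) * (r + 1) := ⟨_, rfl⟩
  let μ : ℕ → ℕ := fun i => min i r
  let L : ℕ → ℕ := fun i => k - 1 - (n + 1) * μ i
  let m : ℕ → ℕ := fun i => (n + 1) * (i + 1)
  have hm : ∀ i, m i = (n + 1) * i + (n + 1) := fun i => by show (n + 1) * (i + 1) = _; ring
  have hmono : ∀ i j, j ≤ i → (n + 1) * j ≤ (n + 1) * i := fun i j h => Nat.mul_le_mul_left _ h
  have hμ1 : ∀ i, (n + 1) * μ i ≤ (n + 1) * i := fun i => hmono _ _ (min_le_left _ _)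
  have hμ2 : ∀ i, (n + 1) * μ i ≤ (n + 1) * r := fun i => hmono _ _ (min_le_right _ _)
  rw [hr2] at hk
  have hL : ∀ i, L i = k - 1 - (n + 1) * μ i := fun _ => rfl
  have hLs : ∀ i, s ≤ L i := by
    intro i
    have h1 := hμ2 i
    rw [hL]
    omega
  have hkLs : ∀ i, k ≤ L i + s := by
    intro i
    have h1 := hμ2 i
    rw [hL]
    omega
  have hL1 : ∀ i, 1 ≤ L i := by
    intro i
    have h1 := hLs i
    omega
  have hEE : ∀ i j, j ≤ i → EE T (L i) (m i - n) * EE T (L j) (m j - n) ≤ J := by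
    intro i j hij
    refine EE_mul T _ _ _ _ k ?_
    have h1 := hmono i j hij
    have h2 := hm i
    have h3 := hμ1 j
    rw [hL]
    omega
  let D : ℕ → Submodule ℤ A := fun i => GU φ (P ⊓ HL φ W hW) (EE T (L i) (m i - n)) ⊥
    (T ^ s * ⊤) J hl bot_le (EE_mul_Z T _ _ _ (hLs i)) (by
      have h1 := hm i
      have h2 := hμ1 i
      exact EE_EE_Z T _ _ _ k (by rw [hL]; omega))
  let U : ℕ → Submodule ℤ A := fun i => EE T (L i) (m i)
  let R : ℕ → Submodule ℤ A := fun i => EE T (L i + 1) (m i - n)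
  have hDE : ∀ i, D i ≤ EE T (L i) (m i - n) := fun i x hx => hx.1
  have hU : ∀ i, U i ≤ D i ⊔ R i := by
    intro i x hx
    have h2 := hm i
    have h3 := hμ1 i
    obtain ⟨e, he, c, hc, h⟩ := hC F hF k s (L i) (m i) (by omega) (by rw [hL]; omega)
      (hLs i) (hkLs i) (hL1 i) x hx
    have hxe : x + e ∈ D i := by
      refine ⟨?_, 0, Submodule.zero_mem _, c, hc, by rw [add_zero]; exact h⟩
      exact Submodule.add_mem _ (EE_anti' T _ (by omega) hx) (EE_succ_le T _ _ he)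
    have : x = (x + e) + (-e) := by abel
    rw [this]
    exact Submodule.add_mem_sup hxe (Submodule.neg_mem _ he)
  have hX : X D 0 d * (T ^ s * ⊤) ≤ J := by
    rw [Submodule.mul_le]
    intro x hx z hz
    let ψ : ↥(P ⊓ HL φ W hW) →* A := φ.comp (P ⊓ HL φ W hW).subtype
    obtain ⟨g, hg, hg1⟩ := exists_mem_derivedU ψ (T ^ s * ⊤) J hl hr D
      (fun i => (mul_le_mul' (hDE i) le_rfl).trans (EE_mul_Z T _ _ _ (hLs i)))
      (fun i j hij => (mul_le_mul' (hDE i) (hDE j)).trans (hEE i j hij)) (by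
      rintro i x ⟨-, e, he, c, hc, h⟩
      rw [Submodule.mem_bot] at he
      rw [he, add_zero] at h
      exact ⟨⟨c, hc⟩, h⟩) d 0 x hx
    rw [hd, Subgroup.mem_bot] at hg
    have h1 := hg1 z hz
    rw [hg, map_one, one_mul] at h1
    have h2 : x * z = -(z - (z + x * z)) := by abel
    rw [h2]
    exact J.neg_mem h1
  have h0 : R 0 ≤ J := by
    have h1 : L 0 + 1 = k := by
      have h2 := hμ1 0
      rw [hL]
      omega
    show T ^ (L 0 + 1) * ⊤ * T ^ (m 0 - n) ≤ ⊤ * T ^ k * ⊤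
    rw [h1]
    calc T ^ k * ⊤ * T ^ (m 0 - n) = T ^ k * (⊤ * T ^ (m 0 - n)) := mul_assoc _ _ _
      _ ≤ T ^ k * ⊤ := mul_le_mul' le_rfl le_top
      _ ≤ ⊤ * (T ^ k * ⊤) := le_top_mul _
      _ = ⊤ * T ^ k * ⊤ := (mul_assoc _ _ _).symm
  have hR : ∀ i, U i * R (i + 1) ≤ J := by
    intro i
    refine EE_mul T _ _ _ _ k ?_
    have h1 := hμ1 (i + 1)
    have h2 : m i = (n + 1) * (i + 1) := rfl
    rw [hL, h2]
    omega
  have hpr := pr_le U D R J hl hr h0 hR hU (r + 1)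
  rw [X_eq_pr, hr2] at hX
  have hUJ : pr U 0 (r + 1) * (T ^ s * ⊤) ≤ J := by
    refine (mul_le_mul' hpr le_rfl).trans ?_
    rw [Submodule.sup_mul]
    exact sup_le hX ((mul_le_mul' le_rfl le_top).trans hr)
  have hcong : pr U 0 (r + 1)
      = pr (fun i => EE T (k - 1 - (n + 1) * i) ((n + 1) * (i + 1))) 0 (r + 1) := by
    apply pr_congr
    intro i hi
    have h1 : μ i = i := min_eq_left (by omega)
    show EE T (L i) (m i) = _
    rw [hL, h1]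
  have hUc : pr U 0 (r + 1)
      = T ^ (k - 1) * (⊤ * T ^ (k - 1)) ^ r * ⊤ * T ^ ((n + 1) * (r + 1)) := by
    rw [hcong]
    exact pr_closed T k n r (by omega)
  have e2 : T ^ (k - 1) = T ^ ((n + 1) * (r + 1)) * (T ^ s * T ^ (k - 1 - (n + 1) * (r + 1) - s)) := by
    rw [← pow_add, ← pow_add]; congr 1; omega
  have e4 : (⊤ * T ^ (k - 1)) ^ (r + 1) = (⊤ * T ^ (k - 1)) ^ r
      * (⊤ * (T ^ ((n + 1) * (r + 1)) * (T ^ s * T ^ (k - 1 - (n + 1) * (r + 1) - s)))) := by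
    rw [← e2, ← pow_succ]
  rw [hr2]
  calc (⊤ * T ^ (k - 1) * ⊤) ^ (r + 1 + 1)
      = ⊤ * T ^ (k - 1) * (⊤ * T ^ (k - 1)) ^ (r + 1) * ⊤ := pow_idem _ _ top_mul_top _
    _ = ⊤ * ((T ^ (k - 1) * (⊤ * T ^ (k - 1)) ^ r * ⊤ * T ^ ((n + 1) * (r + 1)))
        * (T ^ s * (T ^ (k - 1 - (n + 1) * (r + 1) - s) * ⊤))) := by
        rw [e4]
        simp only [mul_assoc]
    _ = ⊤ * (pr U 0 (r + 1) * (T ^ s * (T ^ (k - 1 - (n + 1) * (r + 1) - s) * ⊤))) := by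
        rw [hUc]
    _ ≤ ⊤ * (pr U 0 (r + 1) * (T ^ s * ⊤)) :=
        mul_le_mul' le_rfl (mul_le_mul' le_rfl (mul_le_mul' le_rfl le_top))
    _ ≤ ⊤ * J := mul_le_mul' le_rfl hUJ
    _ ≤ J := hl

end NILU

theorem blk_NILU : S_NILU.{u} := by
  intro p hp hp2 A _ _ Γ _ φ hst W hW ht hs P hP d hd
  obtain ⟨n, hC⟩ := NILU.covU hp hp2 φ hst W hW ht hs P hP
  have hpos : 1 ≤ 2 ^ d := Nat.one_le_two_pow
  refine ⟨2 * ((n + 1) * 2 ^ d), Nat.mul_pos (by norm_num)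
    (Nat.mul_pos (Nat.succ_pos n) hpos), ?_⟩
  rintro F hF ⟨N, hN⟩
  set T : Submodule ℤ A := span ℤ ((fun g => φ g - 1) '' F) with hT
  have h1 : ∀ i : ℕ, (⊤ * T ^ (2 * ((n + 1) * 2 ^ d)) * ⊤) ^ ((2 ^ d + 1) ^ i)
      ≤ ⊤ * T ^ (2 * ((n + 1) * 2 ^ d) + i) * ⊤ := by
    intro i
    induction i with
    | zero => simp
    | succ i ih =>
        calc (⊤ * T ^ (2 * ((n + 1) * 2 ^ d)) * ⊤) ^ ((2 ^ d + 1) ^ (i + 1))
            = ((⊤ * T ^ (2 * ((n + 1) * 2 ^ d)) * ⊤) ^ ((2 ^ d + 1) ^ i)) ^ (2 ^ d + 1) := by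
              rw [pow_succ (2 ^ d + 1) i, pow_mul]
          _ ≤ (⊤ * T ^ (2 * ((n + 1) * 2 ^ d) + i) * ⊤) ^ (2 ^ d + 1) := pow_le_pow_left' ih _
          _ ≤ ⊤ * T ^ (2 * ((n + 1) * 2 ^ d) + (i + 1)) * ⊤ := by
              have := NILU.stepU φ W hW P n hC d hd F hF (2 * ((n + 1) * 2 ^ d) + i + 1) (by omega)
              simpa [add_assoc] using this
  refine ⟨(2 ^ d + 1) ^ N, ?_⟩
  rw [eq_bot_iff]
  refine (h1 N).trans ?_
  rw [pow_add, hN]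
  simp

end Pool.Agent.Work.MP_3fbbd3_adj
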