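import Mathlib

/-!
# Groups of the form `1 + M`
-/

namespace Pool.Agent.Work.MP_3fbbd3_adj

open Submodule

universe u v

/-- `φ` identifies the group `G` with the set `1 + M`, where `M` is a two-sided ideal of the ring
`A` which is a locally nilpotent ring and whose additive group is a `p`-group. -/
structure Adj (p : ℕ) {A : Type u} [Ring A] {G : Type v} [Group G] (M : Submodule ℤ A)
    (φ : G →* A) : Prop where
  hl : ⊤ * M ≤ M
  hr : M * ⊤ ≤ M
  inj : Function.Injective φ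
  mem : ∀ g, φ g - 1 ∈ M
  surj : ∀ x ∈ M, ∃ g, φ g = 1 + x
  nil : ∀ S : Set A, S.Finite → S ⊆ M → ∃ n : ℕ, (span ℤ S) ^ n = ⊥
  tor : ∀ x ∈ M, ∃ n : ℕ, p ^ n • x = 0

/-- the group is a `p`-group and locally finite (block PG) -/
def S_PG : Prop := ∀ (p : ℕ) (_ : p.Prime) (A : Type u) [Ring A] (G : Type u) [Group G]
    (M : Submodule ℤ A) (φ : G →* A), Adj p M φ →
    IsPGroup p G ∧ ∀ s : Set G, s.Finite → ((Subgroup.closure s : Subgroup G) : Set G).Finite

/-- the adjoint group of a ring is of this form (block BR) -/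
def S_BR : Prop := ∀ (p : ℕ) (m : Type u) [NonUnitalRing m],
    (∀ x : m, ∃ n : ℕ, p ^ n • x = 0) →
    (∀ S : Set m, S.Finite → ∃ n : ℕ, ∀ x ∈ S, ∀ l : List m, (∀ y ∈ l, y ∈ S) →
      n ≤ l.length → l.foldl (· * ·) x = 0) →
    ∃ (A : Type u) (_ : Ring A) (M : Submodule ℤ A) (φ : (PreQuasiregular m)ˣ →* A),
      Adj p M φ ∧ (Nontrivial m → M ≠ ⊥)

end Pool.Agent.Work.MP_3fbbd3_adj
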