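import Mathlib
import Pool.Agent.Work.MP_3fbbd3_adj.Def

/-!
# Block PG: the group `1 + M` is a locally finite `p`-group
-/

namespace Pool.Agent.Work.MP_3fbbd3_adj

open Submodule

universe u v

namespace PG

variable {p : ℕ} {A : Type u} [Ring A] {G : Type v} [Group G] {M : Submodule ℤ A} {φ : G →* A}

/-- the sum of all the positive powers of an additive subgroup -/
def W (T : Submodule ℤ A) : Submodule ℤ A := ⨆ j : ℕ, T ^ (j + 1)

lemma pow_le_W (T : Submodule ℤ A) (j : ℕ) : T ^ (j + 1) ≤ W T :=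
  le_iSup (fun j : ℕ => T ^ (j + 1)) j

lemma le_W (T : Submodule ℤ A) : T ≤ W T := by
  have := pow_le_W T 0
  simpa using this

lemma W_mul (T : Submodule ℤ A) : W T * W T ≤ W T := by
  rw [W, Submodule.iSup_mul]
  refine iSup_le fun i => ?_
  rw [Submodule.mul_iSup]
  refine iSup_le fun j => ?_
  rw [← pow_add]
  have h : i + 1 + (j + 1) = (i + 1 + j) + 1 := by ring
  rw [h]
  exact pow_le_W T _

lemma W_le (h : Adj p M φ) {T : Submodule ℤ A} (hT : T ≤ M) : W T ≤ M := by
  refine iSup_le fun j => ?_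
  induction j with
  | zero => simpa using hT
  | succ j ih =>
    rw [pow_succ]
    calc T ^ (j + 1) * T ≤ ⊤ * M := mul_le_mul' le_top hT
      _ ≤ M := h.hl

lemma W_fg {S : Set A} (hS : S.Finite) {n : ℕ} (hn : (span ℤ S) ^ n = ⊥) :
    (W (span ℤ S)).FG := by
  have e : W (span ℤ S) = ⨆ j ∈ Finset.range n, (span ℤ S) ^ (j + 1) := by
    apply le_antisymm
    · refine iSup_le fun j => ?_
      by_cases hj : j < n
      · exact le_iSup₂_of_le j (Finset.mem_range.2 hj) le_rfl
      · have : (span ℤ S) ^ (j + 1) = ⊥ := by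
          have h2 : j + 1 = n + (j + 1 - n) := by omega
          rw [h2, pow_add, hn, Submodule.bot_mul]
        rw [this]
        exact bot_le
    · exact iSup₂_le fun j _ => pow_le_W _ j
  rw [e]
  refine Submodule.fg_biSup _ _ fun j _ => ?_
  exact (Submodule.fg_span hS).pow _

lemma W_finite (hp : p.Prime) (h : Adj p M φ) {S : Set A} (hS : S.Finite) (hSM : S ⊆ M) :
    Finite (W (span ℤ S)) := by
  obtain ⟨n, hn⟩ := h.nil S hS hSM
  have hle : W (span ℤ S) ≤ M := W_le h (span_le.2 hSM)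
  have : Module.Finite ℤ (W (span ℤ S)) := Module.Finite.iff_fg.2 (W_fg hS hn)
  refine Module.finite_of_fg_torsion _ ?_
  intro x
  obtain ⟨k, hk⟩ := h.tor x.1 (hle x.2)
  have h0 : ((p : ℤ) ^ k) ≠ 0 := pow_ne_zero _ (by exact_mod_cast hp.ne_zero)
  refine ⟨⟨(p : ℤ) ^ k, mem_nonZeroDivisors_of_ne_zero h0⟩, ?_⟩
  apply Subtype.ext
  show ((p : ℤ) ^ k) • x.1 = 0
  rw [← hk, ← natCast_zsmul]
  push_cast
  rfl

lemma W_card (hp : p.Prime) (h : Adj p M φ) {S : Set A} (hS : S.Finite) (hSM : S ⊆ M) :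
    ∃ k : ℕ, Nat.card (W (span ℤ S)) = p ^ k := by
  have := Fact.mk hp
  have := W_finite hp h hS hSM
  have hle : W (span ℤ S) ≤ M := W_le h (span_le.2 hSM)
  have hP : IsPGroup p (Multiplicative (W (span ℤ S))) := by
    intro x
    obtain ⟨k, hk⟩ := h.tor (Multiplicative.toAdd x).1 (hle (Multiplicative.toAdd x).2)
    refine ⟨k, ?_⟩
    apply Multiplicative.toAdd.injective
    rw [toAdd_pow, toAdd_one]
    apply Subtype.ext
    exact hk
  obtain ⟨k, hk⟩ := IsPGroup.iff_card.1 hP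
  exact ⟨k, hk⟩

/-- the elements of the group which lie in `1 + W` -/
def H (φ : G →* A) (V : Submodule ℤ A) (hV : V * V ≤ V) (hf : Finite V) : Subgroup G where
  carrier := {g | φ g - 1 ∈ V}
  one_mem' := by simp
  mul_mem' := by
    intro a b ha hb
    simp only [Set.mem_ofPred_eq] at ha hb ⊢
    have e : φ (a * b) - 1 = (φ a - 1) * (φ b - 1) + (φ a - 1) + (φ b - 1) := by
      rw [map_mul]; noncomm_ring
    rw [e]
    exact V.add_mem (V.add_mem (hV (Submodule.mul_mem_mul ha hb)) ha) hb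
  inv_mem' := by
    intro g hg
    simp only [Set.mem_ofPred_eq] at hg ⊢
    have hmem : ∀ w : V, φ g * w.1 ∈ V := by
      intro w
      have e : φ g * w.1 = (φ g - 1) * w.1 + w.1 := by noncomm_ring
      rw [e]
      exact V.add_mem (hV (Submodule.mul_mem_mul hg w.2)) w.2
    let f : V → V := fun w => ⟨φ g * w.1, hmem w⟩
    have hinv : φ g⁻¹ * φ g = 1 := by rw [← map_mul]; simp
    have hinj : Function.Injective f := by
      intro a b hab
      have h1 : φ g * a.1 = φ g * b.1 := congrArg Subtype.val hab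
      apply Subtype.ext
      calc a.1 = φ g⁻¹ * φ g * a.1 := by rw [hinv, one_mul]
        _ = φ g⁻¹ * (φ g * b.1) := by rw [mul_assoc, h1]
        _ = b.1 := by rw [← mul_assoc, hinv, one_mul]
    have hsurj : Function.Surjective f := Finite.surjective_of_injective hinj
    obtain ⟨w, hw⟩ := hsurj ⟨-(φ g - 1), V.neg_mem hg⟩
    have h2 : φ g * w.1 = -(φ g - 1) := congrArg Subtype.val hw
    have h3 : φ g⁻¹ - 1 = w.1 := by
      have h4 : φ g⁻¹ * (φ g * w.1) = φ g⁻¹ * (-(φ g - 1)) := by rw [h2]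
      rw [← mul_assoc, hinv, one_mul] at h4
      rw [h4, mul_neg, mul_sub, hinv, mul_one, neg_sub]
    rw [h3]
    exact w.2

lemma mem_H (V : Submodule ℤ A) (hV : V * V ≤ V) (hf : Finite V) (g : G) :
    g ∈ H φ V hV hf ↔ φ g - 1 ∈ V := Iff.rfl

/-- the group `1 + W` has as many elements as `W` -/
noncomputable def equiv (h : Adj p M φ) (V : Submodule ℤ A) (hV : V * V ≤ V) (hf : Finite V)
    (hVM : V ≤ M) : H φ V hV hf ≃ V :=
  Equiv.ofBijective (fun g => ⟨φ g.1 - 1, g.2⟩) (by
    constructor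
    · intro a b hab
      have h1 : φ a.1 - 1 = φ b.1 - 1 := congrArg Subtype.val hab
      apply Subtype.ext
      exact h.inj (sub_left_injective h1)
    · intro w
      obtain ⟨g, hg⟩ := h.surj w.1 (hVM w.2)
      have h2 : φ g - 1 = w.1 := by rw [hg]; abel
      refine ⟨⟨g, ?_⟩, ?_⟩
      · show φ g - 1 ∈ V
        rw [h2]; exact w.2
      · exact Subtype.ext h2)

/-- every finite set lies in a finite subgroup whose order is a power of `p` -/
lemma exists_H (hp : p.Prime) (h : Adj p M φ) {s : Set G} (hs : s.Finite) :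
    ∃ K : Subgroup G, s ⊆ K ∧ Finite K ∧ ∃ k : ℕ, Nat.card K = p ^ k := by
  set S : Set A := (fun g => φ g - 1) '' s with hSdef
  have hS : S.Finite := hs.image _
  have hSM : S ⊆ M := by
    rintro _ ⟨g, _, rfl⟩
    exact h.mem g
  have hf := W_finite hp h hS hSM
  obtain ⟨k, hk⟩ := W_card hp h hS hSM
  have e := equiv h (W (span ℤ S)) (W_mul _) hf (W_le h (span_le.2 hSM))
  refine ⟨H φ (W (span ℤ S)) (W_mul _) hf, ?_, ?_, k, ?_⟩
  · intro g hg
    show φ g - 1 ∈ W (span ℤ S)
    exact le_W _ (subset_span ⟨g, hg, rfl⟩)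
  · exact Finite.of_equiv _ e.symm
  · rw [Nat.card_congr e, hk]

end PG

theorem blk_PG : S_PG.{u} := by
  intro p hp A _ G _ M φ h
  constructor
  · intro g
    obtain ⟨K, hK, hf, k, hk⟩ := PG.exists_H hp h (Set.finite_singleton g)
    refine ⟨k, ?_⟩
    have h1 : (⟨g, hK rfl⟩ : K) ^ Nat.card K = 1 := pow_card_eq_one'
    rw [hk] at h1
    exact congrArg Subtype.val h1
  · intro s hs
    obtain ⟨K, hK, hf, -⟩ := PG.exists_H hp h hs
    have hle : Subgroup.closure s ≤ K := (Subgroup.closure_le K).2 hK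
    exact Set.Finite.subset (Set.toFinite (K : Set G)) hle

end Pool.Agent.Work.MP_3fbbd3_adj
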