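import Pool.Agent.Work.MP_3fbbd3_adj.Def3
import Pool.Agent.Work.MP_3fbbd3_adj.AS

/-!
# Block RED: subnormal subgroups of unit groups, the reduction
-/

namespace Pool.Agent.Work.MP_3fbbd3_adj

open Submodule

open scoped commutatorElement

universe u v

namespace RED

variable {p : ℕ} {A : Type u} [Ring A] {G : Type u} [Group G] {φ : G →* A}

lemma nilp (hloc : ∀ S : Set A, S.Finite → S ⊆ AS.M' φ → ∃ n : ℕ, (span ℤ S) ^ n = ⊥) {x : A}
    (hx : x ∈ AS.M' φ) : ∃ n : ℕ, x ^ n = 0 := by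
  obtain ⟨n, hn⟩ := hloc {x} (Set.finite_singleton _) (by simpa using hx)
  refine ⟨n, ?_⟩
  have := Submodule.pow_mem_pow (span ℤ {x}) (Submodule.mem_span_singleton_self x) n
  rwa [hn, Submodule.mem_bot] at this

lemma pow_mem {x : A} (hx : x ∈ AS.M' φ) (n : ℕ) : x ^ (n + 1) ∈ AS.M' φ := by
  induction n with
  | zero => simpa using hx
  | succ n ih => rw [pow_succ]; exact AS.mul_le (Submodule.mul_mem_mul ih hx)

/-- the group `1 + M'` -/
def Gam (φ : G →* A)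
    (hloc : ∀ S : Set A, S.Finite → S ⊆ AS.M' φ → ∃ n : ℕ, (span ℤ S) ^ n = ⊥) : Subgroup Aˣ where
  carrier := {w | (w : A) - 1 ∈ AS.M' φ}
  mul_mem' := by
    intro a b ha hb
    have e : ((a * b : Aˣ) : A) - 1 = ((a : A) - 1) * ((b : A) - 1) + (((a : A) - 1) + ((b : A) - 1)) := by
      rw [Units.val_mul]; noncomm_ring
    show ((a * b : Aˣ) : A) - 1 ∈ AS.M' φ
    rw [e]
    exact (AS.M' φ).add_mem (AS.mul_le (Submodule.mul_mem_mul ha hb)) ((AS.M' φ).add_mem ha hb)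
  one_mem' := by
    show ((1 : Aˣ) : A) - 1 ∈ AS.M' φ
    simp
  inv_mem' := by
    intro a ha
    show ((a⁻¹ : Aˣ) : A) - 1 ∈ AS.M' φ
    have ha' : (a : A) - 1 ∈ AS.M' φ := ha
    obtain ⟨x, hxe⟩ : ∃ x : A, x = -((a : A) - 1) := ⟨_, rfl⟩
    have hx : x ∈ AS.M' φ := by rw [hxe]; exact (AS.M' φ).neg_mem ha'
    obtain ⟨v, hv⟩ : ∃ v : A, v = ((a⁻¹ : Aˣ) : A) - 1 := ⟨_, rfl⟩
    have hrel : v = x + x * v := by
      have h1 : (a : A) * ((a⁻¹ : Aˣ) : A) = 1 := by simp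
      rw [hv, hxe]
      have e : -((a : A) - 1) + -((a : A) - 1) * (((a⁻¹ : Aˣ) : A) - 1)
          = ((a⁻¹ : Aˣ) : A) - (a : A) * ((a⁻¹ : Aˣ) : A) := by noncomm_ring
      rw [e, h1]
    have hall : ∀ n : ℕ, ∃ m ∈ AS.M' φ, v = m + x ^ n * v := by
      intro n
      induction n with
      | zero => exact ⟨0, (AS.M' φ).zero_mem, by simp⟩
      | succ n ih =>
        obtain ⟨m, hm, hmv⟩ := ih
        refine ⟨m + x ^ (n + 1), (AS.M' φ).add_mem hm (pow_mem hx n), ?_⟩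
        calc v = m + x ^ n * v := hmv
          _ = m + x ^ n * (x + x * v) := by rw [← hrel]
          _ = m + x ^ (n + 1) + x ^ (n + 1) * v := by rw [pow_succ]; noncomm_ring
    obtain ⟨n, hn⟩ := nilp hloc hx
    obtain ⟨m, hm, hmv⟩ := hall n
    rw [hn, zero_mul, add_zero] at hmv
    rw [← hv, hmv]
    exact hm

lemma mem_Gam (hloc : ∀ S : Set A, S.Finite → S ⊆ AS.M' φ → ∃ n : ℕ, (span ℤ S) ^ n = ⊥)
    {w : Aˣ} : w ∈ Gam φ hloc ↔ (w : A) - 1 ∈ AS.M' φ := Iff.rfl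

/-- passage to a subring in which the span is an ideal -/
lemma core {B : Type u} [Ring B] (ι : B →+* A) (hι : Function.Injective ι)
    (hB : ∀ b : B, ∃ k : ℤ, ι b - k ∈ AS.M' φ)
    (ht : ∀ g, φ g - 1 ∈ AS.t p A)
    (hloc : ∀ S : Set A, S.Finite → S ⊆ AS.M' φ → ∃ n : ℕ, (span ℤ S) ^ n = ⊥)
    {K : Type u} [Group K] (χ : K →* B) (hχ : Function.Injective χ)
    (hc : ∀ g, ι (χ g) - 1 ∈ AS.M' φ) (hsurj : ∀ x ∈ AS.M' φ, ∃ g, ι (χ g) = 1 + x) :
    Adj p ((AS.M' φ).comap ι.toIntAlgHom.toLinearMap) χ := by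
  have hmem : ∀ b : B, b ∈ (AS.M' φ).comap ι.toIntAlgHom.toLinearMap ↔ ι b ∈ AS.M' φ :=
    fun b => Iff.rfl
  have htor : ∀ x ∈ AS.M' φ, x ∈ AS.t p A := by
    intro x hx
    refine Submodule.span_induction ?_ (Ideal.zero_mem _) (fun x y _ _ hx hy => Ideal.add_mem _ hx hy)
      (fun a x _ hx => ?_) hx
    · rintro _ ⟨g, rfl⟩
      exact ht g
    · exact zsmul_mem hx a
  constructor
  · rw [Submodule.mul_le]
    intro b _ m hm
    rw [hmem] at hm ⊢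
    obtain ⟨k, hk⟩ := hB b
    have e : ι (b * m) = k • ι m + (ι b - k) * ι m := by
      rw [map_mul, zsmul_eq_mul]; noncomm_ring
    rw [e]
    exact (AS.M' φ).add_mem ((AS.M' φ).smul_mem _ hm) (AS.mul_le (Submodule.mul_mem_mul hk hm))
  · rw [Submodule.mul_le]
    intro m hm b _
    rw [hmem] at hm ⊢
    obtain ⟨k, hk⟩ := hB b
    have e : ι (m * b) = k • ι m + ι m * (ι b - k) := by
      rw [map_mul, zsmul_eq_mul, mul_sub, ← Int.cast_comm k (ι m)]; abel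
    rw [e]
    exact (AS.M' φ).add_mem ((AS.M' φ).smul_mem _ hm) (AS.mul_le (Submodule.mul_mem_mul hm hk))
  · exact hχ
  · intro g
    rw [hmem, map_sub, map_one]
    exact hc g
  · intro x hx
    rw [hmem] at hx
    obtain ⟨g, hg⟩ := hsurj _ hx
    refine ⟨g, hι ?_⟩
    rw [hg, map_add, map_one]
  · intro S hS hSM
    obtain ⟨n, hn⟩ := hloc (ι '' S) (hS.image _) (by
      rintro _ ⟨x, hx, rfl⟩
      exact hSM hx)
    refine ⟨n, ?_⟩
    have e : Submodule.map ι.toIntAlgHom.toLinearMap ((span ℤ S) ^ n) = ⊥ := by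
      rw [Submodule.map_pow, Submodule.map_span]
      exact hn
    rw [eq_bot_iff]
    intro x hx
    have h2 : ι x ∈ Submodule.map ι.toIntAlgHom.toLinearMap ((span ℤ S) ^ n) := ⟨x, hx, rfl⟩
    rw [e, Submodule.mem_bot] at h2
    rw [Submodule.mem_bot]
    exact hι (by rw [h2, map_zero])
  · intro x hx
    obtain ⟨n, hn⟩ := htor _ hx
    refine ⟨n, hι ?_⟩
    rw [map_nsmul, map_zero]
    exact hn

end RED

theorem blk_RED (hTOR : S_TOR.{u}) (hNP : S_NP.{u}) : S_RED.{u} := by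
  intro p hp G _ hG hperf hlf A _ φ hφ U hU hsn hnil
  obtain ⟨ψ, hψ⟩ : ∃ ψ : G →* A, ψ = (Units.coeHom A).comp φ := ⟨_, rfl⟩
  have hψg : ∀ g, ψ g = ((φ g : Aˣ) : A) := fun g => by rw [hψ]; rfl
  have hM' : AS.M' ψ = span ℤ (Set.range fun g => ((φ g : Aˣ) : A) - 1) := by
    unfold AS.M'
    simp only [hψg]
  have ht : ∀ g, ψ g - 1 ∈ AS.t p A := by
    intro g
    rw [AS.mem_t, hψg]
    exact hTOR p hp G hG hperf hlf A φ U hU hsn hnil g
  have hloc := AS.loc_nil hNP hp hG hlf ht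
  obtain ⟨Γ, hΓ⟩ : ∃ Γ : Subgroup Aˣ, Γ = RED.Gam ψ hloc := ⟨_, rfl⟩
  have hΓm : ∀ w : Aˣ, w ∈ Γ ↔ (w : A) - 1 ∈ AS.M' ψ := by
    intro w; rw [hΓ]; exact RED.mem_Gam hloc
  -- `1 + x` is a unit in `U`
  have hunit : ∀ x ∈ AS.M' ψ, ∃ w ∈ U, ((w : Aˣ) : A) = 1 + x := by
    intro x hx
    obtain ⟨n, hn⟩ := RED.nilp hloc hx
    exact hnil x (by rw [← hM']; exact hx) ⟨n, hn⟩
  have hΓU : Γ ≤ U := by
    intro w hw
    obtain ⟨w', hw', he⟩ := hunit _ ((hΓm w).mp hw)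
    have : w' = w := Units.ext (by rw [he]; abel)
    rwa [← this]
  have hφΓ : ∀ g, φ g ∈ Γ := by
    intro g
    rw [hΓm, ← hψg]
    exact subset_span ⟨g, rfl⟩
  have hBm : ∀ w : Γ, ((w : Aˣ) : A) ∈ AS.B ψ := by
    intro w
    exact ⟨1, by rw [Int.cast_one]; exact (hΓm w).mp w.2⟩
  let χ : Γ →* AS.B ψ :=
    { toFun := fun k => ⟨((k : Aˣ) : A), hBm k⟩
      map_one' := by apply Subtype.ext; simp
      map_mul' := by intro a b; apply Subtype.ext; simp }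
  let P : Subgroup Γ := φ.range.subgroupOf Γ
  let π : G →* P :=
    { toFun := fun g => ⟨⟨φ g, hφΓ g⟩, by
        show (φ g : Aˣ) ∈ φ.range
        exact ⟨g, rfl⟩⟩
      map_one' := by apply Subtype.ext; apply Subtype.ext; simp
      map_mul' := by intro a b; apply Subtype.ext; apply Subtype.ext; simp }
  refine ⟨AS.B ψ, inferInstance, (AS.M' ψ).comap (AS.B ψ).subtype.toIntAlgHom.toLinearMap, Γ,
    inferInstance, χ, P, π, ?_, ?_, ?_, ?_, ?_⟩
  · refine RED.core (AS.B ψ).subtype Subtype.val_injective (fun b => b.2) ht hloc χ ?_ ?_ ?_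
    · intro a b hab
      apply Subtype.ext
      apply Units.ext
      exact congrArg Subtype.val hab
    · intro g
      exact (hΓm g).mp g.2
    · intro x hx
      obtain ⟨w, _, he⟩ := hunit x hx
      refine ⟨⟨w, ?_⟩, he⟩
      rw [hΓm, he, add_sub_cancel_left]
      exact hx
  · intro b
    obtain ⟨k, hk⟩ := b.2
    refine ⟨k, ?_⟩
    show (AS.B ψ).subtype (b - (k : AS.B ψ)) ∈ AS.M' ψ
    rw [map_sub, map_intCast]
    exact hk
  · have h1 := hsn.comap (Subgroup.inclusion hΓU)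
    exact h1
  · intro hbot
    obtain ⟨g, hg⟩ := hφ
    apply hg
    have h1 : (⟨φ g, hφΓ g⟩ : Γ) ∈ P := (π g).2
    rw [hbot, Subgroup.mem_bot] at h1
    exact congrArg Subtype.val h1
  · rintro ⟨⟨w, hw⟩, hwP⟩
    obtain ⟨g, hg⟩ : (w : Aˣ) ∈ φ.range := hwP
    refine ⟨g, ?_⟩
    apply Subtype.ext
    apply Subtype.ext
    exact hg

end Pool.Agent.Work.MP_3fbbd3_adj
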