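import Pool.Agent.Work.MP_3fbbd3_adj.Def4
import Pool.Agent.Work.MP_3fbbd3_adj.RED

/-!
# Block REDU: subnormal subgroups of unitary groups, the reduction
-/

namespace Pool.Agent.Work.MP_3fbbd3_adj

open Submodule

open scoped commutatorElement

universe u v

namespace REDU

/-- the involution of a subring which is closed under it -/
def starB {A : Type u} [Ring A] [StarRing A] (B : Subring A) (h : ∀ b ∈ B, star b ∈ B) :
    StarRing B where
  star := fun b => ⟨star (b : A), h _ b.2⟩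
  star_involutive := fun b => Subtype.ext (star_star (b : A))
  star_mul := fun a b => Subtype.ext (star_mul (a : A) (b : A))
  star_add := fun a b => Subtype.ext (star_add (a : A) (b : A))

end REDU

theorem blk_REDU (hNP : S_NP.{u}) : S_REDU.{u} := by
  intro p hp G _ hG hlf A _ _ φ hφ hsn htors
  obtain ⟨ψ, hψ⟩ : ∃ ψ : G →* A, ψ = (unitary A).subtype.comp φ := ⟨_, rfl⟩
  have hψg : ∀ g, ψ g = ((φ g : unitary A) : A) := fun g => by rw [hψ]; rfl
  have ht : ∀ g, ψ g - 1 ∈ AS.t p A := by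
    intro g
    rw [AS.mem_t, hψg]
    exact htors g
  have hloc := AS.loc_nil hNP hp hG hlf ht
  -- the involution preserves the span
  have hstarg : ∀ g, star (ψ g) = ψ g⁻¹ := by
    intro g
    rw [hψg, hψg, map_inv, ← Unitary.star_eq_inv, Unitary.coe_star]
  have hstarM : ∀ x ∈ AS.M' ψ, star x ∈ AS.M' ψ := by
    intro x hx
    unfold AS.M' at hx
    induction hx using Submodule.span_induction with
    | mem x hx =>
      obtain ⟨g, rfl⟩ := hx
      show star (ψ g - 1) ∈ AS.M' ψ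
      rw [star_sub, star_one, hstarg]
      exact subset_span ⟨g⁻¹, rfl⟩
    | zero => rw [star_zero]; exact (AS.M' ψ).zero_mem
    | add x y _ _ hx hy => rw [star_add]; exact (AS.M' ψ).add_mem hx hy
    | smul a x _ hx =>
      have e : star (a • x) = a • star x := by
        rw [zsmul_eq_mul, star_mul, star_intCast, zsmul_eq_mul, Int.cast_comm]
      rw [e]
      exact (AS.M' ψ).smul_mem _ hx
  have hstarB : ∀ b ∈ AS.B ψ, star b ∈ AS.B ψ := by
    rintro b ⟨k, hk⟩
    refine ⟨k, ?_⟩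
    have e : star b - (k : A) = star (b - k) := by rw [star_sub, star_intCast]
    rw [e]
    exact hstarM _ hk
  letI : StarRing (AS.B ψ) := REDU.starB (AS.B ψ) hstarB
  have hstarval : ∀ b : AS.B ψ, ((star b : AS.B ψ) : A) = star (b : A) := fun b => rfl
  obtain ⟨Γ, hΓ⟩ : ∃ Γ : Subgroup Aˣ, Γ = RED.Gam ψ hloc := ⟨_, rfl⟩
  have hΓm : ∀ w : Aˣ, w ∈ Γ ↔ (w : A) - 1 ∈ AS.M' ψ := by
    intro w; rw [hΓ]; exact RED.mem_Gam hloc
  have hunit : ∀ x ∈ AS.M' ψ, ∃ w : Aˣ, (w : A) = 1 + x := by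
    intro x hx
    obtain ⟨n, hn⟩ := RED.nilp hloc hx
    exact IsNilpotent.isUnit_one_add ⟨n, hn⟩
  let φu : G →* Aˣ := (Unitary.toUnits (R := A)).comp φ
  have hφu : ∀ g, ((φu g : Aˣ) : A) = ψ g := fun g => by rw [hψg]; rfl
  have hφΓ : ∀ g, φu g ∈ Γ := by
    intro g
    rw [hΓm, hφu]
    exact subset_span ⟨g, rfl⟩
  have hBm : ∀ w : Γ, ((w : Aˣ) : A) ∈ AS.B ψ := by
    intro w
    exact ⟨1, by rw [Int.cast_one]; exact (hΓm w).mp w.2⟩
  let χ : Γ →* AS.B ψ :=
    { toFun := fun k => ⟨((k : Aˣ) : A), hBm k⟩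
      map_one' := by apply Subtype.ext; simp
      map_mul' := by intro a b; apply Subtype.ext; simp }
  have hχ : ∀ k : Γ, ((χ k : AS.B ψ) : A) = ((k : Aˣ) : A) := fun k => rfl
  let P : Subgroup Γ := φu.range.subgroupOf Γ
  let π : G →* P :=
    { toFun := fun g => ⟨⟨φu g, hφΓ g⟩, by
        show (φu g : Aˣ) ∈ φu.range
        exact ⟨g, rfl⟩⟩
      map_one' := by apply Subtype.ext; apply Subtype.ext; simp
      map_mul' := by intro a b; apply Subtype.ext; apply Subtype.ext; simp }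
  -- unitary elements
  have hUu : ∀ γ : Γ, γ ∈ Uu χ ↔ star ((γ : Aˣ) : A) = (((γ⁻¹ : Γ) : Aˣ) : A) := by
    intro γ
    constructor
    · intro h
      have h1 : star (χ γ) = χ γ⁻¹ := h
      have h2 := congrArg Subtype.val h1
      exact h2
    · intro h
      show star (χ γ) = χ γ⁻¹
      apply Subtype.ext
      exact h
  let f : Uu χ →* unitary A :=
    { toFun := fun γ => ⟨(((γ : Γ) : Aˣ) : A), by
        have h1 := (hUu γ).mp γ.2
        rw [Unitary.mem_iff, h1]
        constructor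
        · rw [← Units.val_mul, ← Subgroup.coe_mul, inv_mul_cancel]; rfl
        · rw [← Units.val_mul, ← Subgroup.coe_mul, mul_inv_cancel]; rfl⟩
      map_one' := by apply Subtype.ext; simp
      map_mul' := by intro a b; apply Subtype.ext; simp }
  refine ⟨AS.B ψ, inferInstance, inferInstance,
    (AS.M' ψ).comap (AS.B ψ).subtype.toIntAlgHom.toLinearMap, Γ,
    inferInstance, χ, P, π, ?_, ?_, ?_, ?_, ?_, ?_, ?_⟩
  · refine RED.core (AS.B ψ).subtype Subtype.val_injective (fun b => b.2) ht hloc χ ?_ ?_ ?_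
    · intro a b hab
      apply Subtype.ext
      apply Units.ext
      exact congrArg Subtype.val hab
    · intro g
      exact (hΓm g).mp g.2
    · intro x hx
      obtain ⟨w, he⟩ := hunit x hx
      refine ⟨⟨w, ?_⟩, he⟩
      rw [hΓm, he, add_sub_cancel_left]
      exact hx
  · intro b
    obtain ⟨k, hk⟩ := b.2
    refine ⟨k, ?_⟩
    show (AS.B ψ).subtype (b - (k : AS.B ψ)) ∈ AS.M' ψ
    rw [map_sub, map_intCast]
    exact hk
  · intro x hx
    exact hstarM _ hx
  · intro γ hγ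
    obtain ⟨g, hg⟩ : ((γ : Γ) : Aˣ) ∈ φu.range := hγ
    rw [hUu]
    have h1 : (((γ⁻¹ : Γ) : Aˣ) : A) = ψ g⁻¹ := by
      rw [← hφu, map_inv, hg]; rfl
    rw [h1, ← hg, hφu, hstarg]
  · have h1 := hsn.comap f
    have h2 : φ.range.comap f = P.subgroupOf (Uu χ) := by
      ext γ
      rw [Subgroup.mem_comap, Subgroup.mem_subgroupOf]
      constructor
      · rintro ⟨g, hg⟩
        show (((γ : Γ) : Aˣ)) ∈ φu.range
        refine ⟨g, Units.ext ?_⟩
        exact congrArg Subtype.val hg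
      · intro h
        obtain ⟨g, hg⟩ : (((γ : Γ) : Aˣ)) ∈ φu.range := h
        refine ⟨g, Subtype.ext ?_⟩
        exact congrArg Units.val hg
    rw [← h2]
    exact h1
  · intro hbot
    obtain ⟨g, hg⟩ := hφ
    apply hg
    have h1 : (⟨φu g, hφΓ g⟩ : Γ) ∈ P := (π g).2
    rw [hbot, Subgroup.mem_bot] at h1
    have h2 : φu g = 1 := congrArg Subtype.val h1
    apply Subtype.ext
    exact congrArg Units.val h2
  · rintro ⟨⟨w, hw⟩, hwP⟩
    obtain ⟨g, hg⟩ : (w : Aˣ) ∈ φu.range := hwP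
    refine ⟨g, ?_⟩
    apply Subtype.ext
    apply Subtype.ext
    exact hg

end Pool.Agent.Work.MP_3fbbd3_adj
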