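import Pool.Agent.Work.MP_3fbbd3_adj.Def

/-!
# Groups of units of a ring closed under unipotent elements: the blocks
-/

namespace Pool.Agent.Work.MP_3fbbd3_adj

open scoped commutatorElement

universe u v

/-- block GT: a finite `p`-group without subgroups of type `(p, p)` is metabelian -/
def S_GT : Prop := ∀ (p : ℕ) (_ : p.Prime) (Q : Type u) [Group Q] [Finite Q] (_ : IsPGroup p Q),
    (∀ u v : Q, Commute u v → u ^ p = 1 → v ^ p = 1 → u ≠ 1 → ∃ i : ℕ, u ^ i * v = 1) →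
    ∀ a b c d : Q, ⁅⁅a, b⁆, ⁅c, d⁆⁆ = 1

/-- block RP: a finite `p`-group of units of a ring without `p`-torsion whose cyclic subgroups
have central sums -/
def S_RP : Prop := ∀ (p : ℕ) (_ : p.Prime) (P : Type u) [Group P] [Finite P] (_ : IsPGroup p P)
    (R : Type u) [Ring R] (_ : ∀ x : R, p • x = 0 → x = 0) (ψ : P →* R)
    (_ : ∀ g h : P, (ψ g - 1) * ψ h * (∑ i ∈ Finset.range (Nat.card P), ψ g ^ i) = 0)
    (_ : ∀ g h : P, (∑ i ∈ Finset.range (Nat.card P), ψ g ^ i) * ψ h * (ψ g - 1) = 0),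
    ∀ a b c d : P, ψ ⁅⁅a, b⁆, ⁅c, d⁆⁆ = 1

/-- block NP: the augmentation ideal of a finite `p`-group is nilpotent if it is `p`-torsion -/
def S_NP : Prop := ∀ (p : ℕ) (_ : p.Prime) (P : Type u) [Group P] [Finite P] (_ : IsPGroup p P)
    (A : Type u) [Ring A] (φ : P →* A) (_ : ∀ g, ∃ n : ℕ, p ^ n • (φ g - 1) = 0),
    ∃ n : ℕ, (Submodule.span ℤ (Set.range fun g => φ g - 1)) ^ n = ⊥

/-- block AS: the reduction -/
def S_AS : Prop := ∀ (p : ℕ) (_ : p.Prime) (G : Type u) [Group G] (_ : IsPGroup p G)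
    (_ : commutator G = ⊤)
    (_ : ∀ s : Set G, s.Finite → ((Subgroup.closure s : Subgroup G) : Set G).Finite)
    (A : Type u) [Ring A] (φ : G →* A) (_ : ∃ g, φ g ≠ 1)
    (_ : ∀ x ∈ Submodule.span ℤ (Set.range fun g => φ g - 1), IsNilpotent x →
      ∃ g, φ g = 1 + x),
    ∃ (B : Type u) (_ : Ring B) (M : Submodule ℤ B) (K : Type u) (_ : Group K) (χ : K →* B)
      (π : G →* K), Adj p M χ ∧ M ≠ ⊥ ∧ Function.Surjective π

end Pool.Agent.Work.MP_3fbbd3_adj
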