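import Pool.Agent.Work.MP_3fbbd3_adj.Def

/-!
# The adjoint group of a non-unital ring has the form `1 + M`
-/

namespace Pool.Agent.Work.MP_3fbbd3_adj

universe u

namespace BRx

open Submodule Pointwise

variable {m : Type u} [NonUnitalRing m] {A : Type u} [Ring A]

/-- the two-sided ideal -/
def MM (ι : m →ₙ+* A) : Submodule ℤ A :=
  AddSubgroup.toIntSubmodule (AddMonoidHom.range (ι : m →+ A))

theorem mem_MM {ι : m →ₙ+* A} {x : A} : x ∈ MM ι ↔ ∃ a, ι a = x := by
  rfl

theorem symm_mul (x y : PreQuasiregular m) :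
    PreQuasiregular.equiv.symm (x * y) = PreQuasiregular.equiv.symm y +
      PreQuasiregular.equiv.symm x + PreQuasiregular.equiv.symm x * PreQuasiregular.equiv.symm y :=
  rfl

/-- the homomorphism -/
def phi (ι : m →ₙ+* A) : (PreQuasiregular m)ˣ →* A where
  toFun u := 1 + ι (PreQuasiregular.equiv.symm u.val)
  map_one' := by
    have h : PreQuasiregular.equiv.symm ((1 : (PreQuasiregular m)ˣ) : PreQuasiregular m) = 0 := rfl
    rw [h, map_zero, add_zero]
  map_mul' u v := by
    rw [Units.val_mul, symm_mul, map_add, map_add, map_mul]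
    noncomm_ring

theorem phi_apply (ι : m →ₙ+* A) (u : (PreQuasiregular m)ˣ) :
    phi ι u = 1 + ι (PreQuasiregular.equiv.symm u.val) := rfl

theorem pow_mem {ι : m →ₙ+* A} {S : Set A} (hS : S ⊆ MM ι) (k : ℕ) :
    ∀ z ∈ S ^ (k + 1), ∃ x : m, ι x ∈ S ∧ ∃ l : List m, (∀ y ∈ l, ι y ∈ S) ∧ l.length = k ∧
      z = ι (l.foldl (· * ·) x) := by
  induction k with
  | zero =>
    intro z hz
    rw [zero_add, pow_one] at hz
    obtain ⟨a, ha⟩ := mem_MM.1 (hS hz)
    refine ⟨a, by rw [ha]; exact hz, [], by simp, rfl, ?_⟩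
    simp [ha]
  | succ k ih =>
    intro z hz
    rw [pow_succ] at hz
    obtain ⟨t, ht, w, hw, rfl⟩ := Set.mem_mul.1 hz
    obtain ⟨x, hx, l, hl, hk, rfl⟩ := ih t ht
    obtain ⟨b, hb⟩ := mem_MM.1 (hS hw)
    refine ⟨x, hx, l ++ [b], ?_, by simp [hk], ?_⟩
    · intro y hy
      rw [List.mem_append, List.mem_singleton] at hy
      rcases hy with hy | hy
      · exact hl y hy
      · rw [hy, hb]; exact hw
    · rw [List.foldl_append, List.foldl_cons, List.foldl_nil, map_mul, hb]

theorem core (p : ℕ) (ι : m →ₙ+* A) (hι : Function.Injective ι)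
    (hL : ∀ (a : A) (x : m), ∃ y, ι y = a * ι x) (hR : ∀ (a : A) (x : m), ∃ y, ι y = ι x * a)
    (htor : ∀ x : m, ∃ n : ℕ, p ^ n • x = 0)
    (hnil : ∀ S : Set m, S.Finite → ∃ n : ℕ, ∀ x ∈ S, ∀ l : List m, (∀ y ∈ l, y ∈ S) →
      n ≤ l.length → l.foldl (· * ·) x = 0) :
    Adj p (MM ι) (phi ι) := by
  have hnil' : ∀ S : Set A, S.Finite → S ⊆ MM ι → ∃ n : ℕ, (span ℤ S) ^ n = ⊥ := by
    intro S hf hS
    obtain ⟨n, hn⟩ := hnil (ι ⁻¹' S) (hf.preimage hι.injOn)
    refine ⟨n + 1, ?_⟩
    rw [Submodule.span_pow, Submodule.span_eq_bot]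
    intro z hz
    obtain ⟨x, hx, l, hl, hk, rfl⟩ := pow_mem hS n z hz
    rw [hn x hx l hl hk.ge, map_zero]
  refine ⟨?_, ?_, ?_, ?_, ?_, hnil', ?_⟩
  · rw [Submodule.mul_le]
    rintro a - x hx
    obtain ⟨b, rfl⟩ := mem_MM.1 hx
    exact mem_MM.2 (hL a b)
  · rw [Submodule.mul_le]
    rintro x hx a -
    obtain ⟨b, rfl⟩ := mem_MM.1 hx
    exact mem_MM.2 (hR a b)
  · intro u v huv
    rw [phi_apply, phi_apply] at huv
    have h := hι (add_left_cancel huv)
    exact Units.ext (PreQuasiregular.equiv.symm.injective h)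
  · intro g
    rw [phi_apply, add_sub_cancel_left]
    exact mem_MM.2 ⟨_, rfl⟩
  · intro x hx
    obtain ⟨a, rfl⟩ := mem_MM.1 hx
    have hni : IsNilpotent (ι a) := by
      obtain ⟨n, hn⟩ := hnil' {ι a} (Set.finite_singleton _) (by
        rintro _ rfl
        exact mem_MM.2 ⟨a, rfl⟩)
      refine ⟨n, ?_⟩
      have h1 : (ι a) ^ n ∈ (span ℤ {ι a}) ^ n :=
        Submodule.pow_mem_pow _ (Submodule.mem_span_singleton_self _) n
      rw [hn, Submodule.mem_bot] at h1
      exact h1
    obtain ⟨c, hc⟩ := hni.isUnit_one_add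
    have hinv : ∃ b, ((c⁻¹ : Aˣ) : A) = 1 + ι b := by
      obtain ⟨y, hy⟩ := hR ((c⁻¹ : Aˣ) : A) a
      refine ⟨-y, ?_⟩
      have h1 : (c : A) * ((c⁻¹ : Aˣ) : A) = 1 := Units.mul_inv c
      rw [hc, add_mul, one_mul, ← hy] at h1
      rw [map_neg, ← h1]
      abel
    obtain ⟨b, hb⟩ := hinv
    have h1 : (c : A) * ((c⁻¹ : Aˣ) : A) = 1 := Units.mul_inv c
    have h2 : ((c⁻¹ : Aˣ) : A) * (c : A) = 1 := Units.inv_mul c
    rw [hc, hb] at h1 h2
    have e1 : b + a + a * b = 0 := by
      apply hι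
      rw [map_zero, map_add, map_add, map_mul]
      have : (1 + ι a) * (1 + ι b) = 1 + (ι b + ι a + ι a * ι b) := by noncomm_ring
      rw [this] at h1
      exact left_eq_add.1 h1.symm
    have e2 : a + b + b * a = 0 := by
      apply hι
      rw [map_zero, map_add, map_add, map_mul]
      have : (1 + ι b) * (1 + ι a) = 1 + (ι a + ι b + ι b * ι a) := by noncomm_ring
      rw [this] at h2
      exact left_eq_add.1 h2.symm
    refine ⟨⟨PreQuasiregular.equiv a, PreQuasiregular.equiv b, ?_, ?_⟩, ?_⟩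
    · apply PreQuasiregular.equiv.symm.injective
      rw [symm_mul]
      exact e1
    · apply PreQuasiregular.equiv.symm.injective
      rw [symm_mul]
      exact e2
    · rw [phi_apply]
      rfl
  · intro x hx
    obtain ⟨a, rfl⟩ := mem_MM.1 hx
    obtain ⟨n, hn⟩ := htor a
    exact ⟨n, by rw [← map_nsmul, hn, map_zero]⟩

end BRx

theorem blk_BR : S_BR.{u} := by
  intro p m _ htor hnil
  let ι : m →ₙ+* Unitization ℤ m :=
    { toFun := Unitization.inr
      map_mul' := fun x y => Unitization.inr_mul ℤ x y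
      map_zero' := Unitization.inr_zero ℤ
      map_add' := fun x y => Unitization.inr_add ℤ x y }
  have hι : Function.Injective ι := Unitization.inr_injective
  have key : Adj p (BRx.MM (m := m) (A := Unitization ℤ m) ι) (BRx.phi (m := m) (A := Unitization ℤ m) ι) := by
    refine BRx.core (m := m) (A := Unitization ℤ m) p ι hι ?_ ?_ htor hnil
    · intro a x
      refine ⟨a.fst • x + a.snd * x, ?_⟩
      change Unitization.inr _ = _
      change _ = a * Unitization.inr x
      apply Unitization.ext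
      · rw [Unitization.fst_mul]
        simp [ι]
      · rw [Unitization.snd_mul, Unitization.snd_inr, Unitization.fst_inr, zero_smul, add_zero]
        rfl
    · intro a x
      refine ⟨a.fst • x + x * a.snd, ?_⟩
      change Unitization.inr _ = _
      change _ = Unitization.inr x * a
      apply Unitization.ext
      · rw [Unitization.fst_mul]
        simp [ι]
      · rw [Unitization.snd_mul, Unitization.snd_inr, Unitization.fst_inr, zero_smul, zero_add]
        rfl
  refine ⟨Unitization ℤ m, _, _, _, key, ?_⟩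
  intro hnt hbot
  obtain ⟨a, ha⟩ := exists_ne (0 : m)
  apply ha
  apply hι
  have h1 : ι a ∈ BRx.MM (m := m) (A := Unitization ℤ m) ι := BRx.mem_MM.2 ⟨a, rfl⟩
  rw [hbot, Submodule.mem_bot] at h1
  rw [h1, map_zero]

end Pool.Agent.Work.MP_3fbbd3_adj
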