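import Pool.Agent.Work.MP_3fbbd3_adj.Fin
import Pool.Agent.Work.MP_3fbbd3_adj.PG
import Pool.Agent.Work.MP_3fbbd3_adj.BR

/-!
# Adjoint groups with all proper subgroups solvable

Let `m` be a locally nilpotent ring (without unit) whose additive group is a `p`-group. Its adjoint
group `(PreQuasiregular m)ˣ` is a locally finite `p`-group, and it is not a perfect group with all
proper subgroups solvable, nor a quotient of one, unless `m = 0`.
-/

namespace Pool.Agent.Work.MP_3fbbd3_adj.AdjointOld

open Pool.Agent.Work.MP_3fbbd3_adj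

universe u v

theorem inr_pow {m : Type u} [NonUnitalRing m] (x : m) (k : ℕ) :
    (Unitization.inr x : Unitization ℤ m) ^ (k + 1)
      = Unitization.inr ((List.replicate k x).foldl (· * ·) x) := by
  induction k with
  | zero => simp
  | succ k ih =>
    rw [pow_succ, ih, List.replicate_succ', List.foldl_append, List.foldl_cons, List.foldl_nil,
      Unitization.inr_mul]

/-- **Main theorem.** -/
theorem result (p : ℕ) (hp : p.Prime) (m : Type u) [NonUnitalRing m]
    (htor : ∀ x : m, ∃ n : ℕ, p ^ n • x = 0)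
    (hnil : ∀ S : Set m, S.Finite → ∃ n : ℕ, ∀ x ∈ S, ∀ l : List m, (∀ y ∈ l, y ∈ S) →
      n ≤ l.length → l.foldl (· * ·) x = 0) :
    (∀ x : m, IsQuasiregular x) ∧
    IsPGroup p (PreQuasiregular m)ˣ ∧
    (∀ s : Set (PreQuasiregular m)ˣ, s.Finite →
      ((Subgroup.closure s : Subgroup (PreQuasiregular m)ˣ) : Set (PreQuasiregular m)ˣ).Finite) ∧
    (∀ (P : Type v) [Group P] (π : P →* (PreQuasiregular m)ˣ), Function.Surjective π →
      (¬ Group.IsSolvable (PreQuasiregular m)ˣ →
        ∃ H : Subgroup P, H ≠ ⊤ ∧ ¬ Group.IsSolvable H) ∧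
      (Nontrivial m → commutator P = ⊤ →
        ∃ H : Subgroup P, H ≠ ⊤ ∧ ¬ Group.IsSolvable H)) := by
  obtain ⟨A, _, M, φ, hA, -⟩ := blk_BR p m htor hnil
  obtain ⟨h1, h2⟩ := fin_adj.{u, v} blk_PG blk_BR p hp m htor hnil
  obtain ⟨h3, h4⟩ := blk_PG p hp A _ M φ hA
  refine ⟨?_, h3, h4, ?_⟩
  · intro x
    rw [isQuasiregular_iff_isUnit' ℤ]
    refine IsNilpotent.isUnit_one_add (R := Unitization ℤ m) ?_
    obtain ⟨n, hn⟩ := hnil {x} (Set.finite_singleton x)
    refine ⟨n + 1, ?_⟩
    rw [inr_pow, hn x rfl (List.replicate n x) ?_ (by simp), Unitization.inr_zero]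
    intro y hy
    exact List.eq_of_mem_replicate hy
  · intro P _ π hπ
    refine ⟨?_, fun hnt hperf => h2 hnt P π hπ hperf⟩
    intro hns
    obtain ⟨H, hH, hHs⟩ := h1 hns
    refine ⟨H.comap π, ?_, ?_⟩
    · intro h
      apply hH
      rw [← Subgroup.map_comap_eq_self_of_surjective hπ H, h, ← MonoidHom.range_eq_map,
        MonoidHom.range_eq_top.mpr hπ]
    · intro h
      apply hHs
      have := h
      exact Group.isSolvable_of_surjective (f := π.subgroupComap H)
        (π.subgroupComap_surjective_of_surjective H hπ)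

end Pool.Agent.Work.MP_3fbbd3_adj.AdjointOld
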