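import Pool.Agent.Work.MP_3fbbd3_adj.NIL

/-!
# Block NIL, second part
-/

namespace Pool.Agent.Work.MP_3fbbd3_adj

open Submodule

open scoped commutatorElement

universe u v

namespace NIL

variable {A : Type u} [Ring A] {B : Type u} [Ring B] {Γ : Type u} [Group Γ]

/-- `Q s * Q (s + 1) * ... * Q (s + n - 1)` -/
def pr (Q : ℕ → Submodule ℤ A) (s : ℕ) : ℕ → Submodule ℤ A
  | 0 => 1
  | n + 1 => pr Q s n * Q (s + n)

theorem pr_add (Q : ℕ → Submodule ℤ A) (s n : ℕ) : ∀ m, pr Q s (n + m) = pr Q s n * pr Q (s + n) m := by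
  intro m
  induction m with
  | zero => simp [pr]
  | succ m ih =>
      show pr Q s (n + m) * Q (s + (n + m)) = pr Q s n * (pr Q (s + n) m * Q (s + n + m))
      rw [ih, mul_assoc, add_assoc]

theorem X_eq_pr (Q : ℕ → Submodule ℤ A) : ∀ j s, X Q s j = pr Q s (2 ^ j) := by
  intro j
  induction j with
  | zero => intro s; simp [X, pr]
  | succ j ih =>
      intro s
      have e : 2 ^ (j + 1) = 2 ^ j + 2 ^ j := by rw [pow_succ]; omega
      rw [e, pr_add, ← ih, ← ih]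
      rfl

variable (T : Submodule ℤ A)

theorem pr_closed (k n : ℕ) : ∀ r : ℕ, (n + 1) * r ≤ k - 1 →
    pr (fun i => EE T (k - 1 - (n + 1) * i) ((n + 1) * (i + 1))) 0 (r + 1)
      = T ^ (k - 1) * (⊤ * T ^ (k - 1)) ^ r * ⊤ * T ^ ((n + 1) * (r + 1)) := by
  intro r
  induction r with
  | zero => intro _; simp [pr, EE]
  | succ r ih =>
      intro h
      have h1 : (n + 1) * (r + 1) = (n + 1) * r + (n + 1) := by ring
      have e2 : T ^ (k - 1) = T ^ ((n + 1) * (r + 1)) * T ^ (k - 1 - (n + 1) * (r + 1)) := by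
        rw [← pow_add]; congr 1; omega
      have e3 : pr (fun i => EE T (k - 1 - (n + 1) * i) ((n + 1) * (i + 1))) 0 (r + 1 + 1)
          = pr (fun i => EE T (k - 1 - (n + 1) * i) ((n + 1) * (i + 1))) 0 (r + 1)
            * EE T (k - 1 - (n + 1) * (0 + (r + 1))) ((n + 1) * (0 + (r + 1) + 1)) := rfl
      have e4 : (⊤ * T ^ (k - 1)) ^ (r + 1) = (⊤ * T ^ (k - 1)) ^ r * (⊤ * T ^ (k - 1)) :=
        pow_succ _ _
      rw [e3, ih (by omega), e4, EE, zero_add]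
      generalize (⊤ * T ^ (k - 1)) ^ r = V
      have e5 : T ^ (k - 1) * V * ⊤ * T ^ ((n + 1) * (r + 1))
          * (T ^ (k - 1 - (n + 1) * (r + 1)) * ⊤ * T ^ ((n + 1) * (r + 1 + 1)))
          = T ^ (k - 1) * V * ⊤ * (T ^ ((n + 1) * (r + 1)) * T ^ (k - 1 - (n + 1) * (r + 1)))
            * ⊤ * T ^ ((n + 1) * (r + 1 + 1)) := by simp only [mul_assoc]
      rw [e5, ← e2]
      simp only [mul_assoc]

/-- comparison of the products -/
theorem pr_le (U D R : ℕ → Submodule ℤ A) (J : Submodule ℤ A) (hl : ⊤ * J ≤ J) (hr : J * ⊤ ≤ J)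
    (h0 : R 0 ≤ J) (hR : ∀ i, U i * R (i + 1) ≤ J) (hU : ∀ i, U i ≤ D i ⊔ R i) :
    ∀ n, pr U 0 n ≤ pr D 0 n ⊔ J := by
  intro n
  induction n with
  | zero => exact le_sup_left
  | succ n ih =>
      have h1 : pr U 0 n * R n ≤ J := by
        cases n with
        | zero => simpa [pr] using h0
        | succ n =>
            calc pr U 0 (n + 1) * R (n + 1) = pr U 0 n * (U (0 + n) * R (n + 1)) := by
                  show pr U 0 n * U (0 + n) * R (n + 1) = _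
                  rw [mul_assoc]
              _ ≤ ⊤ * J := by
                  rw [zero_add]
                  exact mul_le_mul' le_top (hR n)
              _ ≤ J := hl
      calc pr U 0 (n + 1) = pr U 0 n * U (0 + n) := rfl
        _ ≤ pr U 0 n * (D n ⊔ R n) := by rw [zero_add]; exact mul_le_mul' le_rfl (hU n)
        _ = pr U 0 n * D n ⊔ pr U 0 n * R n := Submodule.mul_sup _ _ _
        _ ≤ (pr D 0 n ⊔ J) * D n ⊔ J := sup_le_sup (mul_le_mul' ih le_rfl) h1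
        _ = pr D 0 n * D n ⊔ J * D n ⊔ J := by rw [Submodule.sup_mul]
        _ ≤ pr D 0 (n + 1) ⊔ J := by
            refine sup_le (sup_le ?_ ?_) le_sup_right
            · show _ ≤ pr D 0 n * D (0 + n) ⊔ J
              rw [zero_add]
              exact le_sup_left
            · exact ((mul_le_mul' le_rfl le_top).trans hr).trans le_sup_right

theorem step (φ : Γ →* A) (W : Submodule ℤ A) (hW : ⊤ * W ≤ W) (P : Subgroup Γ) (n : ℕ)
    (hC : Cov φ W hW P n) (d : ℕ) (hd : derivedSeries ↥(P ⊓ HL φ W hW) d = ⊥)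
    (F : Set Γ) (hF : ∀ g ∈ F, g ∈ P ∧ φ g - 1 ∈ W ∧ g⁻¹ ∈ F) (k : ℕ)
    (hk : (n + 1) * 2 ^ d + 1 ≤ k) :
    (⊤ * (span ℤ ((fun g => φ g - 1) '' F)) ^ (k - 1) * ⊤) ^ (2 ^ d + 1)
      ≤ ⊤ * (span ℤ ((fun g => φ g - 1) '' F)) ^ k * ⊤ := by
  set T : Submodule ℤ A := span ℤ ((fun g => φ g - 1) '' F) with hT
  set J : Submodule ℤ A := ⊤ * T ^ k * ⊤ with hJ
  have hl : ⊤ * J ≤ J := by
    rw [hJ, ← mul_assoc, ← mul_assoc, top_mul_top]
  have hr : J * ⊤ ≤ J := by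
    rw [hJ, mul_assoc, top_mul_top]
  obtain ⟨B, _, f, hf⟩ := exists_quot J
    (fun a x hx => hl (Submodule.mul_mem_mul Submodule.mem_top hx))
    (fun a x hx => hr (Submodule.mul_mem_mul hx Submodule.mem_top))
  let L : ℕ → ℕ := fun i => k - 1 - (n + 1) * i
  let m : ℕ → ℕ := fun i => (n + 1) * (i + 1)
  have hm : ∀ i, m i = (n + 1) * i + (n + 1) := fun i => by show (n + 1) * (i + 1) = _; ring
  have hmono : ∀ i j, j ≤ i → (n + 1) * j ≤ (n + 1) * i := fun i j h => Nat.mul_le_mul_left _ h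
  have hEE : ∀ i j, j ≤ i → EE T (L i) (m i - n) * EE T (L j) (m j - n) ≤ J := by
    intro i j hij
    refine EE_mul T _ _ _ _ k ?_
    have h1 := hmono i j hij
    have h2 := hm i
    show k ≤ m i - n + (k - 1 - (n + 1) * j)
    omega
  let D : ℕ → Submodule ℤ A := fun i => GG φ f (P ⊓ HL φ W hW) (EE T (L i) (m i - n)) ⊥ J hf
    bot_le (hEE i i le_rfl)
  let U : ℕ → Submodule ℤ A := fun i => EE T (L i) (m i)
  let R : ℕ → Submodule ℤ A := fun i => EE T (L i + 1) (m i - n)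
  have hDE : ∀ i, D i ≤ EE T (L i) (m i - n) := fun i x hx => hx.1
  have hU : ∀ i, U i ≤ D i ⊔ R i := by
    intro i x hx
    have h2 := hm i
    obtain ⟨e, he, c, hc, h⟩ := hC F hF B k f hf (L i) (m i) (by omega) (by
      show k + n ≤ (k - 1 - (n + 1) * i) + m i
      omega) x hx
    have hxe : x + e ∈ D i := by
      refine ⟨?_, 0, Submodule.zero_mem _, c, hc, by rw [add_zero]; exact h⟩
      exact Submodule.add_mem _ (EE_anti' T _ (by omega) hx) (EE_succ_le T _ _ he)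
    have : x = (x + e) + (-e) := by abel
    rw [this]
    exact Submodule.add_mem_sup hxe (Submodule.neg_mem _ he)
  have hX : X D 0 d ≤ J := by
    intro z hz
    let ψ : ↥(P ⊓ HL φ W hW) →* B := (f : A →* B).comp (φ.comp (P ⊓ HL φ W hW).subtype)
    obtain ⟨g, hg, hg1⟩ := exists_mem_derived ψ f J hf hl hr D
      (fun i j hij => (mul_le_mul' (hDE i) (hDE j)).trans (hEE i j hij)) (by
      rintro i x ⟨-, e, he, c, hc, h⟩
      rw [Submodule.mem_bot] at he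
      rw [he, add_zero] at h
      exact ⟨⟨c, hc⟩, h⟩) d 0 z hz
    rw [hd, Subgroup.mem_bot] at hg
    rw [hg, map_one] at hg1
    rw [← hf]
    exact (left_eq_add.mp hg1)
  have h0 : R 0 ≤ J := by
    have h1 : L 0 + 1 = k := by show k - 1 - (n + 1) * 0 + 1 = k; omega
    show T ^ (L 0 + 1) * ⊤ * T ^ (m 0 - n) ≤ ⊤ * T ^ k * ⊤
    rw [h1]
    calc T ^ k * ⊤ * T ^ (m 0 - n) = T ^ k * (⊤ * T ^ (m 0 - n)) := mul_assoc _ _ _
      _ ≤ T ^ k * ⊤ := mul_le_mul' le_rfl le_top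
      _ ≤ ⊤ * (T ^ k * ⊤) := le_top_mul _
      _ = ⊤ * T ^ k * ⊤ := (mul_assoc _ _ _).symm
  have hR : ∀ i, U i * R (i + 1) ≤ J := by
    intro i
    refine EE_mul T _ _ _ _ k ?_
    have h1 : (n + 1) * (i + 1) = (n + 1) * i + (n + 1) := by ring
    show k ≤ (n + 1) * (i + 1) + (k - 1 - (n + 1) * (i + 1) + 1)
    omega
  have hpr := pr_le U D R J hl hr h0 hR hU (2 ^ d)
  rw [X_eq_pr] at hX
  have hUJ : pr U 0 (2 ^ d) ≤ J := hpr.trans (sup_le hX le_rfl)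
  have hpos : 1 ≤ 2 ^ d := Nat.one_le_two_pow
  obtain ⟨r, hr2⟩ : ∃ r, 2 ^ d = r + 1 := ⟨2 ^ d - 1, by omega⟩
  rw [hr2] at hk hUJ ⊢
  have hk1 : (n + 1) * (r + 1) = (n + 1) * r + (n + 1) := by ring
  have hc := pr_closed T k n r (by omega)
  have hUc : pr U 0 (r + 1)
      = T ^ (k - 1) * (⊤ * T ^ (k - 1)) ^ r * ⊤ * T ^ ((n + 1) * (r + 1)) := hc
  have e2 : T ^ (k - 1) = T ^ ((n + 1) * (r + 1)) * T ^ (k - 1 - (n + 1) * (r + 1)) := by
    rw [← pow_add]; congr 1; omega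
  have e4 : (⊤ * T ^ (k - 1)) ^ (r + 1)
      = (⊤ * T ^ (k - 1)) ^ r * (⊤ * (T ^ ((n + 1) * (r + 1)) * T ^ (k - 1 - (n + 1) * (r + 1)))) := by
    rw [← e2, ← pow_succ]
  calc (⊤ * T ^ (k - 1) * ⊤) ^ (r + 1 + 1)
      = ⊤ * T ^ (k - 1) * (⊤ * T ^ (k - 1)) ^ (r + 1) * ⊤ := pow_idem _ _ top_mul_top _
    _ = ⊤ * (T ^ (k - 1) * (⊤ * T ^ (k - 1)) ^ r * ⊤ * T ^ ((n + 1) * (r + 1)))
        * (T ^ (k - 1 - (n + 1) * (r + 1)) * ⊤) := by
        rw [e4]
        simp only [mul_assoc]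
    _ = ⊤ * pr U 0 (r + 1) * (T ^ (k - 1 - (n + 1) * (r + 1)) * ⊤) := by rw [hUc]
    _ ≤ ⊤ * J * ⊤ := mul_le_mul' (mul_le_mul' le_rfl hUJ) le_top
    _ ≤ J * ⊤ := mul_le_mul' hl le_rfl
    _ ≤ J := hr

end NIL

theorem blk_NIL : S_NIL.{u} := by
  intro A _ Γ _ φ W hW hs P hP d hd
  obtain ⟨n, hC⟩ := NIL.cov φ W hW hs P hP
  have hpos : 1 ≤ 2 ^ d := Nat.one_le_two_pow
  refine ⟨(n + 1) * 2 ^ d, Nat.mul_pos (Nat.succ_pos n) hpos, ?_⟩
  rintro F hF ⟨N, hN⟩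
  set T : Submodule ℤ A := span ℤ ((fun g => φ g - 1) '' F) with hT
  have h1 : ∀ i : ℕ, (⊤ * T ^ ((n + 1) * 2 ^ d) * ⊤) ^ ((2 ^ d + 1) ^ i)
      ≤ ⊤ * T ^ ((n + 1) * 2 ^ d + i) * ⊤ := by
    intro i
    induction i with
    | zero => simp
    | succ i ih =>
        calc (⊤ * T ^ ((n + 1) * 2 ^ d) * ⊤) ^ ((2 ^ d + 1) ^ (i + 1))
            = ((⊤ * T ^ ((n + 1) * 2 ^ d) * ⊤) ^ ((2 ^ d + 1) ^ i)) ^ (2 ^ d + 1) := by
              rw [pow_succ (2 ^ d + 1) i, pow_mul]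
          _ ≤ (⊤ * T ^ ((n + 1) * 2 ^ d + i) * ⊤) ^ (2 ^ d + 1) := pow_le_pow_left' ih _
          _ ≤ ⊤ * T ^ ((n + 1) * 2 ^ d + (i + 1)) * ⊤ := by
              have := NIL.step φ W hW P n hC d hd F hF ((n + 1) * 2 ^ d + i + 1) (by omega)
              simpa [add_assoc] using this
  refine ⟨(2 ^ d + 1) ^ N, ?_⟩
  rw [eq_bot_iff]
  refine (h1 N).trans ?_
  rw [pow_add, hN]
  simp

end Pool.Agent.Work.MP_3fbbd3_adj
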