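import Pool.Agent.Work.MP_3fbbd3_adj.FSN
import Pool.Agent.Work.MP_3fbbd3_adj.MSN
import Pool.Agent.Work.MP_3fbbd3_adj.NIL2
import Pool.Agent.Work.MP_3fbbd3_adj.NAK
import Pool.Agent.Work.MP_3fbbd3_adj.LCS
import Pool.Agent.Work.MP_3fbbd3_adj.PG
import Pool.Agent.Work.MP_3fbbd3_adj.RED
import Pool.Agent.Work.MP_3fbbd3_adj.TOR
import Pool.Agent.Work.MP_3fbbd3_adj.RP
import Pool.Agent.Work.MP_3fbbd3_adj.GT
import Pool.Agent.Work.MP_3fbbd3_adj.NP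

/-!
# Subnormal subgroups of unit groups: all blocks together
-/

namespace Pool.Agent.Work.MP_3fbbd3_adj

universe u

theorem snt : S_SNT.{u} :=
  blk_SNT (blk_MSN blk_NIL blk_NAK blk_LCS blk_PG) (blk_RED (blk_TOR (blk_RP blk_GT)) blk_NP)

end Pool.Agent.Work.MP_3fbbd3_adj
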