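import Pool.Agent.Work.MP_3fbbd3_adj.Main
import Pool.Agent.Work.MP_3fbbd3_adj.Def2

/-!
# Subnormal subgroups of unit groups: the blocks
-/

namespace Pool.Agent.Work.MP_3fbbd3_adj

open Submodule

open scoped commutatorElement

universe u v

/-- block NIL: products of a bounded number of elements `g - 1` generate nilpotent ideals -/
def S_NIL : Prop := ∀ (A : Type u) [Ring A] (Γ : Type u) [Group Γ] (φ : Γ →* A)
    (W : Submodule ℤ A) (hW : ⊤ * W ≤ W) (_ : ∀ x ∈ W, ∃ g, φ g = 1 + x)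
    (P : Subgroup Γ) (_ : P.IsSubnormal) (d : ℕ) (_ : derivedSeries ↥(P ⊓ HL φ W hW) d = ⊥),
    ∃ m : ℕ, 0 < m ∧ ∀ F : Set Γ, (∀ g ∈ F, g ∈ P ∧ φ g - 1 ∈ W ∧ g⁻¹ ∈ F) →
      (∃ n : ℕ, (span ℤ ((fun g => φ g - 1) '' F)) ^ n = ⊥) →
      ∃ n : ℕ, (⊤ * (span ℤ ((fun g => φ g - 1) '' F)) ^ m * ⊤) ^ n = ⊥

/-- block NAK: Nakayama for locally nilpotent rings -/
def S_NAK : Prop := ∀ (A : Type u) [Ring A] (M : Submodule ℤ A) (_ : ⊤ * M ≤ M) (_ : M * ⊤ ≤ M)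
    (_ : ∀ a : A, ∃ k : ℤ, a - k ∈ M)
    (_ : ∀ S : Set A, S.Finite → S ⊆ M → ∃ n : ℕ, (span ℤ S) ^ n = ⊥)
    (S : Set A) (_ : S.Finite) (_ : S ⊆ M) (_ : gi S ≤ gi S * gi S), gi S = ⊥

/-- block LCS: if all products of `m` elements `g - 1` are in `N1`, the quotient is nilpotent -/
def S_LCS : Prop := ∀ (p : ℕ) (A : Type u) [Ring A] (Γ : Type u) [Group Γ] (M : Submodule ℤ A)
    (φ : Γ →* A) (_ : Adj p M φ) (N : Subgroup Γ) (m : ℕ) (_ : 0 < m)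
    (_ : ∀ F : Set Γ, F.Finite → (∀ g ∈ F, g ∈ N ∧ g⁻¹ ∈ F) →
      ∃ n : ℕ, (⊤ * (span ℤ ((fun g => φ g - 1) '' F)) ^ m * ⊤) ^ n = ⊥)
    (x : Γ) (_ : x ∈ N.lowerCentralSeries m), φ x - 1 ∈ N1 M

/-- block MSN: the main theorem for subnormal subgroups of adjoint groups
(uses NIL, NAK, LCS, PG and `fittingCase`) -/
def S_MSN : Prop := ∀ (p : ℕ) (_ : p.Prime) (A : Type u) [Ring A] (Γ : Type u) [Group Γ]
    (M : Submodule ℤ A) (φ : Γ →* A) (_ : Adj p M φ) (_ : ∀ a : A, ∃ k : ℤ, a - k ∈ M)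
    (P : Subgroup Γ) (_ : P.IsSubnormal) (_ : commutator ↥P = ⊤) (_ : P ≠ ⊥),
    ∃ H : Subgroup ↥P, H ≠ ⊤ ∧ ¬ Group.IsSolvable H

/-- block TOR: everything is `p`-torsion (uses RP) -/
def S_TOR : Prop := ∀ (p : ℕ) (_ : p.Prime) (G : Type u) [Group G] (_ : IsPGroup p G)
    (_ : commutator G = ⊤)
    (_ : ∀ s : Set G, s.Finite → ((Subgroup.closure s : Subgroup G) : Set G).Finite)
    (A : Type u) [Ring A] (φ : G →* Aˣ) (U : Subgroup Aˣ) (_ : φ.range ≤ U)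
    (_ : (φ.range.subgroupOf U).IsSubnormal)
    (_ : ∀ x ∈ Submodule.span ℤ (Set.range fun g => ((φ g : Aˣ) : A) - 1), IsNilpotent x →
      ∃ w ∈ U, ((w : Aˣ) : A) = 1 + x),
    ∀ g, ∃ n : ℕ, p ^ n • (((φ g : Aˣ) : A) - 1) = 0

/-- block RED: the reduction (uses TOR, NP, and the construction of AS) -/
def S_RED : Prop := ∀ (p : ℕ) (_ : p.Prime) (G : Type u) [Group G] (_ : IsPGroup p G)
    (_ : commutator G = ⊤)
    (_ : ∀ s : Set G, s.Finite → ((Subgroup.closure s : Subgroup G) : Set G).Finite)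
    (A : Type u) [Ring A] (φ : G →* Aˣ) (_ : ∃ g, φ g ≠ 1) (U : Subgroup Aˣ)
    (_ : φ.range ≤ U) (_ : (φ.range.subgroupOf U).IsSubnormal)
    (_ : ∀ x ∈ Submodule.span ℤ (Set.range fun g => ((φ g : Aˣ) : A) - 1), IsNilpotent x →
      ∃ w ∈ U, ((w : Aˣ) : A) = 1 + x),
    ∃ (B : Type u) (_ : Ring B) (M : Submodule ℤ B) (Γ : Type u) (_ : Group Γ) (χ : Γ →* B)
      (P : Subgroup Γ) (π : G →* P), Adj p M χ ∧ (∀ b : B, ∃ k : ℤ, b - k ∈ M) ∧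
      P.IsSubnormal ∧ P ≠ ⊥ ∧ Function.Surjective π

/-- the theorem -/
def S_SNT : Prop := ∀ (p : ℕ) (_ : p.Prime) (G : Type u) [Group G] (_ : IsPGroup p G)
    (_ : commutator G = ⊤)
    (_ : ∀ s : Set G, s.Finite → ((Subgroup.closure s : Subgroup G) : Set G).Finite)
    (A : Type u) [Ring A] (φ : G →* Aˣ) (_ : ∃ g, φ g ≠ 1) (U : Subgroup Aˣ)
    (_ : φ.range ≤ U) (_ : (φ.range.subgroupOf U).IsSubnormal)
    (_ : ∀ x ∈ Submodule.span ℤ (Set.range fun g => ((φ g : Aˣ) : A) - 1), IsNilpotent x →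
      ∃ w ∈ U, ((w : Aˣ) : A) = 1 + x),
    ∃ H : Subgroup G, H ≠ ⊤ ∧ ¬ Group.IsSolvable H

end Pool.Agent.Work.MP_3fbbd3_adj
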