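import Pool.Agent.Work.MP_3fbbd3_adj.Def3

/-!
# Subnormal subgroups of unitary groups: the blocks
-/

namespace Pool.Agent.Work.MP_3fbbd3_adj

open Submodule

open scoped commutatorElement

universe u v

/-- the unitary elements -/
def Uu {A : Type u} [Ring A] [StarRing A] {Γ : Type v} [Group Γ] (φ : Γ →* A) : Subgroup Γ where
  carrier := {g | star (φ g) = φ g⁻¹}
  mul_mem' := by
    intro a b ha hb
    have ha' : star (φ a) = φ a⁻¹ := ha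
    have hb' : star (φ b) = φ b⁻¹ := hb
    show star (φ (a * b)) = φ (a * b)⁻¹
    rw [map_mul, star_mul, ha', hb', mul_inv_rev, map_mul]
  one_mem' := by
    show star (φ 1) = φ 1⁻¹
    simp
  inv_mem' := by
    intro a ha
    have ha' : star (φ a) = φ a⁻¹ := ha
    show star (φ a⁻¹) = φ a⁻¹⁻¹
    rw [← ha', star_star, inv_inv]

/-- block NILU: products of a bounded number of elements `g - 1` generate nilpotent ideals -/
def S_NILU : Prop := ∀ (p : ℕ) (_ : p.Prime) (_ : p ≠ 2) (A : Type u) [Ring A] [StarRing A]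
    (Γ : Type u) [Group Γ] (φ : Γ →* A) (_ : ∀ g, star (φ g) = φ g⁻¹)
    (W : Submodule ℤ A) (hW : ⊤ * W ≤ W) (_ : ∀ x ∈ W, ∃ n : ℕ, p ^ n • x = 0)
    (_ : ∀ y ∈ W, star y = -y → ∃ g, φ g * (1 - y) = 1 + y)
    (P : Subgroup Γ) (_ : P.IsSubnormal) (d : ℕ) (_ : derivedSeries ↥(P ⊓ HL φ W hW) d = ⊥),
    ∃ m : ℕ, 0 < m ∧ ∀ F : Set Γ, (∀ g ∈ F, g ∈ P ∧ φ g - 1 ∈ W ∧ g⁻¹ ∈ F) →
      (∃ n : ℕ, (span ℤ ((fun g => φ g - 1) '' F)) ^ n = ⊥) →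
      ∃ n : ℕ, (⊤ * (span ℤ ((fun g => φ g - 1) '' F)) ^ m * ⊤) ^ n = ⊥

/-- block MSU: the main theorem for subnormal subgroups of unitary groups
(uses NILU, NAK, LCS, PG and `fittingCase`; see MSN) -/
def S_MSU : Prop := ∀ (p : ℕ) (_ : p.Prime) (_ : p ≠ 2) (A : Type u) [Ring A] [StarRing A]
    (Γ : Type u) [Group Γ] (M : Submodule ℤ A) (φ : Γ →* A) (_ : Adj p M φ)
    (_ : ∀ a : A, ∃ k : ℤ, a - k ∈ M) (_ : ∀ x ∈ M, star x ∈ M)
    (P : Subgroup Γ) (_ : P ≤ Uu φ) (_ : (P.subgroupOf (Uu φ)).IsSubnormal)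
    (_ : commutator ↥P = ⊤) (_ : P ≠ ⊥),
    ∃ H : Subgroup ↥P, H ≠ ⊤ ∧ ¬ Group.IsSolvable H

/-- block REDU: the reduction (as RED, but the torsion is a hypothesis) -/
def S_REDU : Prop := ∀ (p : ℕ) (_ : p.Prime) (G : Type u) [Group G] (_ : IsPGroup p G)
    (_ : ∀ s : Set G, s.Finite → ((Subgroup.closure s : Subgroup G) : Set G).Finite)
    (A : Type u) [Ring A] [StarRing A] (φ : G →* unitary A) (_ : ∃ g, φ g ≠ 1)
    (_ : φ.range.IsSubnormal) (_ : ∀ g, ∃ n : ℕ, p ^ n • (((φ g : unitary A) : A) - 1) = 0),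
    ∃ (B : Type u) (_ : Ring B) (_ : StarRing B) (M : Submodule ℤ B) (Γ : Type u) (_ : Group Γ)
      (χ : Γ →* B) (P : Subgroup Γ) (π : G →* P), Adj p M χ ∧ (∀ b : B, ∃ k : ℤ, b - k ∈ M) ∧
      (∀ x ∈ M, star x ∈ M) ∧ P ≤ Uu χ ∧ (P.subgroupOf (Uu χ)).IsSubnormal ∧ P ≠ ⊥ ∧
      Function.Surjective π

/-- the theorem -/
def S_UNT : Prop := ∀ (p : ℕ) (_ : p.Prime) (_ : p ≠ 2) (G : Type u) [Group G] (_ : IsPGroup p G)
    (_ : commutator G = ⊤)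
    (_ : ∀ s : Set G, s.Finite → ((Subgroup.closure s : Subgroup G) : Set G).Finite)
    (A : Type u) [Ring A] [StarRing A] (φ : G →* unitary A) (_ : ∃ g, φ g ≠ 1)
    (_ : φ.range.IsSubnormal) (_ : ∀ g, ∃ n : ℕ, p ^ n • (((φ g : unitary A) : A) - 1) = 0),
    ∃ H : Subgroup G, H ≠ ⊤ ∧ ¬ Group.IsSolvable H

end Pool.Agent.Work.MP_3fbbd3_adj
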