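import Pool.Agent.Work.MP_3fbbd3_adj.Def3

/-!
# Subnormal subgroups of unit groups: the final plug-in
-/

namespace Pool.Agent.Work.MP_3fbbd3_adj

universe u

theorem blk_SNT (hMSN : S_MSN.{u}) (hRED : S_RED.{u}) : S_SNT.{u} := by
  intro p hp G _ hG hperf hlf A _ φ hne U hU hsn hnil
  obtain ⟨B, _, M, Γ, _, χ, P, π, hAdj, hBM, hP, hP0, hπ⟩ :=
    hRED p hp G hG hperf hlf A φ hne U hU hsn hnil
  have hperf2 : commutator ↥P = ⊤ := by
    have h1 : (commutator G).map π = commutator ↥P := by
      rw [commutator_def, Subgroup.map_commutator, ← MonoidHom.range_eq_map,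
        MonoidHom.range_eq_top.mpr hπ, ← commutator_def]
    rw [← h1, hperf, ← MonoidHom.range_eq_map, MonoidHom.range_eq_top.mpr hπ]
  obtain ⟨H, hH, hHs⟩ := hMSN p hp B Γ M χ hAdj hBM P hP hperf2 hP0
  refine ⟨H.comap π, ?_, ?_⟩
  · intro h
    apply hH
    rw [← Subgroup.map_comap_eq_self_of_surjective hπ H, h, ← MonoidHom.range_eq_map,
      MonoidHom.range_eq_top.mpr hπ]
  · intro h
    apply hHs
    have := h
    exact Group.isSolvable_of_surjective (f := π.subgroupComap H)
      (π.subgroupComap_surjective_of_surjective H hπ)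

end Pool.Agent.Work.MP_3fbbd3_adj
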