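import Pool.Agent.Work.MP_3fbbd3_adj.Main

/-!
# Adjoint groups with all proper subgroups solvable: the final plug-in
-/

namespace Pool.Agent.Work.MP_3fbbd3_adj

open Submodule

universe u v

theorem nontrivial_of_adj {p : ℕ} {A : Type u} [Ring A] {G : Type v}
    [Group G] {M : Submodule ℤ A} {φ : G →* A} (hA : Adj p M φ) (hM : M ≠ ⊥) : Nontrivial G := by
  obtain ⟨x, hx, hx0⟩ := (Submodule.ne_bot_iff M).mp hM
  obtain ⟨g, hg⟩ := hA.surj x hx
  refine ⟨⟨g, 1, ?_⟩⟩
  rintro rfl
  rw [map_one] at hg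
  exact hx0 (left_eq_add.mp hg)

theorem subsingleton_of_adj {p : ℕ} {A : Type u} [Ring A] {G : Type v}
    [Group G] {M : Submodule ℤ A} {φ : G →* A} (hA : Adj p M φ) (hM : M = ⊥) :
    Subsingleton G := by
  refine ⟨fun g h => hA.inj ?_⟩
  have h1 := hA.mem g
  have h2 := hA.mem h
  rw [hM, Submodule.mem_bot] at h1 h2
  rw [sub_eq_zero.mp h1, sub_eq_zero.mp h2]

theorem fin_adj (hPG : S_PG.{u}) (hBR : S_BR.{u}) (p : ℕ) (hp : p.Prime) (m : Type u)
    [NonUnitalRing m] (htor : ∀ x : m, ∃ n : ℕ, p ^ n • x = 0)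
    (hnil : ∀ S : Set m, S.Finite → ∃ n : ℕ, ∀ x ∈ S, ∀ l : List m, (∀ y ∈ l, y ∈ S) →
      n ≤ l.length → l.foldl (· * ·) x = 0) :
    (¬ Group.IsSolvable (PreQuasiregular m)ˣ →
      ∃ H : Subgroup (PreQuasiregular m)ˣ, H ≠ ⊤ ∧ ¬ Group.IsSolvable H) ∧
    (Nontrivial m → ∀ (P : Type v) [Group P] (π : P →* (PreQuasiregular m)ˣ),
      Function.Surjective π → commutator P = ⊤ →
      ∃ H : Subgroup P, H ≠ ⊤ ∧ ¬ Group.IsSolvable H) := by
  obtain ⟨A, _, M, φ, hA, hM⟩ := hBR p m htor hnil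
  constructor
  · intro hns
    by_contra hcon
    have hs : ∀ H : Subgroup (PreQuasiregular m)ˣ, H ≠ ⊤ → Group.IsSolvable H := by
      intro H hH
      by_contra h
      exact hcon ⟨H, hH, h⟩
    have hperf : commutator (PreQuasiregular m)ˣ = ⊤ := by
      by_contra h
      exact hns (solvable_of_comm (hs _ h))
    have hM0 : M ≠ ⊥ := by
      intro h
      have := subsingleton_of_adj hA h
      exact hns inferInstance
    exact hcon (main_adj hPG p hp hA hM0 hperf)
  · intro hnt P _ π hπ hperf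
    have hperf2 : commutator (PreQuasiregular m)ˣ = ⊤ := by
      have h1 : (commutator P).map π = commutator (PreQuasiregular m)ˣ := by
        rw [commutator_def, Subgroup.map_commutator, ← MonoidHom.range_eq_map,
          MonoidHom.range_eq_top.mpr hπ, ← commutator_def]
      rw [← h1, hperf, ← MonoidHom.range_eq_map, MonoidHom.range_eq_top.mpr hπ]
    obtain ⟨H, hH, hHs⟩ := main_adj hPG p hp hA (hM hnt) hperf2
    refine ⟨H.comap π, ?_, ?_⟩
    · intro h
      apply hH
      rw [← Subgroup.map_comap_eq_self_of_surjective hπ H, h, ← MonoidHom.range_eq_map,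
        MonoidHom.range_eq_top.mpr hπ]
    · intro h
      apply hHs
      have := h
      let f : H.comap π →* H := π.subgroupComap H
      exact Group.isSolvable_of_surjective (f := f) (π.subgroupComap_surjective_of_surjective H hπ)

end Pool.Agent.Work.MP_3fbbd3_adj
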