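import Pool.Agent.Work.MP_3fbbd3_adj.Main
import Pool.Agent.Work.MP_3fbbd3_adj.Def2

/-!
# Groups of units closed under unipotent elements: the final plug-in
-/

namespace Pool.Agent.Work.MP_3fbbd3_adj

universe u

theorem fin2 (hAS : S_AS.{u}) (hPG : S_PG.{u}) (p : ℕ) (hp : p.Prime) (G : Type u) [Group G]
    (hG : IsPGroup p G) (hperf : commutator G = ⊤)
    (hlf : ∀ s : Set G, s.Finite → ((Subgroup.closure s : Subgroup G) : Set G).Finite)
    (A : Type u) [Ring A] (φ : G →* A) (hne : ∃ g, φ g ≠ 1)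
    (hnil : ∀ x ∈ Submodule.span ℤ (Set.range fun g => φ g - 1), IsNilpotent x →
      ∃ g, φ g = 1 + x) :
    ∃ H : Subgroup G, H ≠ ⊤ ∧ ¬ Group.IsSolvable H := by
  obtain ⟨B, _, M, K, _, χ, π, hAdj, hM, hπ⟩ := hAS p hp G hG hperf hlf A φ hne hnil
  have hperf2 : commutator K = ⊤ := by
    have h1 : (commutator G).map π = commutator K := by
      rw [commutator_def, Subgroup.map_commutator, ← MonoidHom.range_eq_map,
        MonoidHom.range_eq_top.mpr hπ, ← commutator_def]
    rw [← h1, hperf, ← MonoidHom.range_eq_map, MonoidHom.range_eq_top.mpr hπ]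
  obtain ⟨H, hH, hHs⟩ := main_adj hPG p hp hAdj hM hperf2
  refine ⟨H.comap π, ?_, ?_⟩
  · intro h
    apply hH
    rw [← Subgroup.map_comap_eq_self_of_surjective hπ H, h, ← MonoidHom.range_eq_map,
      MonoidHom.range_eq_top.mpr hπ]
  · intro h
    apply hHs
    have := h
    exact Group.isSolvable_of_surjective (f := π.subgroupComap H)
      (π.subgroupComap_surjective_of_surjective H hπ)

end Pool.Agent.Work.MP_3fbbd3_adj
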