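import Pool.Agent.Work.MP_3fbbd3_fit.NLen
import Pool.Agent.Work.MP_3fbbd3_fit.SYN
import Pool.Agent.Work.MP_3fbbd3_fit.GP
import Pool.Agent.Work.MP_3fbbd3_fit.EE
import Pool.Agent.Work.MP_3fbbd3_fit.TR
import Pool.Agent.Work.MP_3fbbd3_fit.COM
import Pool.Agent.Work.MP_3fbbd3_fit.RR
import Pool.Agent.Work.MP_3fbbd3_fit.BDM
import Pool.Agent.Work.MP_3fbbd3_fit.RRR
import Pool.Agent.Work.MP_3fbbd3_fit.EB
import Pool.Agent.Work.MP_3fbbd3_fit.WB
import Pool.Agent.Work.MP_3fbbd3_fit.WORD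
import Pool.Agent.Work.MP_3fbbd3_fit.VS
import Pool.Agent.Work.MP_3fbbd3_fit.QUO
import Pool.Agent.Work.MP_3fbbd3_fit.LEN
import Pool.Agent.Work.MP_3fbbd3_h11.FG
import Pool.Agent.Work.MP_3fbbd3_h11.FI
import Pool.Agent.Work.MP_3fbbd3_h11.BRK
import Pool.Agent.Work.MP_3fbbd3_h11.EXPN
import Pool.Agent.Work.MP_3fbbd3_h11.FFG
import Pool.Agent.Work.MP_3fbbd3_h11.POLY
import Pool.Agent.Work.MP_3fbbd3_h11.KMC
import Pool.Agent.Work.MP_3fbbd3_h11.KMA
import Pool.Agent.Work.MP_3fbbd3_h11.FITT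

/-!
# Perfect locally finite `p`-groups with all proper subgroups solvable: the Fitting case

A perfect locally finite `p`-group has a proper subgroup which is not solvable as soon as some
nontrivial quotient has residually nilpotent normal closures of finite sets (in particular, if it
is a nontrivial Fitting group).
-/

namespace Pool.Agent.Work.MP_3fbbd3_adj

open Subgroup Pool.Agent.Work.MP_3fbbd3_h11 Pool.Agent.Work.MP_3fbbd3_fit

universe u

/-- The Fitting case. -/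
theorem fittingCase (p : ℕ) (hp : p.Prime) (G : Type u) [Group G] (hG : IsPGroup p G)
    (hperf : commutator G = ⊤)
    (hlf : ∀ s : Set G, s.Finite → ((Subgroup.closure s : Subgroup G) : Set G).Finite)
    (K : Subgroup G) (hK : K.Normal) (hKt : K ≠ ⊤)
    (hres : ∀ F : Set G, F.Finite → ∀ x : G,
      (∀ i : ℕ, x ∈ (normalClosure F).lowerCentralSeries i ⊔ K) → x ∈ K) :
    ∃ H : Subgroup G, H ≠ ⊤ ∧ ¬ Group.IsSolvable H := by
  have hnt : Nontrivial G := by
    by_contra hcon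
    rw [not_nontrivial_iff_subsingleton] at hcon
    exact hKt (Subsingleton.elim _ _)
  have hC : Ctx p G := ⟨hp, hnt, hG, hperf, hlf⟩
  have hSYN := blk_SYN.{u}
  have hGP := blk_GP blk_EXPN.{u} blk_FFG.{u} blk_POLY.{u}
  have hCOM := blk_COM hSYN
  have hRR := blk_RR hSYN hCOM
  have hBDM := blk_BDM hCOM
  have hRRR := blk_RRR hSYN hCOM hRR hBDM
  have hEB := blk_EB hRRR hBDM
  have hWB := blk_WB hSYN blk_TR.{u} hEB hBDM
  exact main hGP blk_EE.{u} hCOM hWB blk_WORD.{u} blk_VS.{u} blk_QUO.{u}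
    blk_FG.{u} blk_BRK.{u} (blk_KMA blk_FI.{u} blk_KMC.{u}) p hC K hK hKt hres

end Pool.Agent.Work.MP_3fbbd3_adj
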