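import Mathlib

/-!
# Left ideals with solvable unit groups (ring part)
-/

namespace Pool.Agent.Work.MP_3fbbd3_adj

open Submodule

open scoped commutatorElement

universe u v

theorem exists_quot {A : Type u} [Ring A] (J : Submodule ℤ A)
    (hl : ∀ a x, x ∈ J → a * x ∈ J) (hr : ∀ a x, x ∈ J → x * a ∈ J) :
    ∃ (B : Type u) (_ : Ring B) (f : A →+* B), ∀ a, f a = 0 ↔ a ∈ J := by
  let I : Ideal A :=
    { carrier := J
      add_mem' := J.add_mem
      zero_mem' := J.zero_mem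
      smul_mem' := fun a x hx => hl a x hx }
  have : I.IsTwoSided := ⟨fun b hx => hr b _ hx⟩
  exact ⟨A ⧸ I, inferInstance, Ideal.Quotient.mk I, fun a => Ideal.Quotient.eq_zero_iff_mem⟩

theorem comm_val {G : Type v} {B : Type u} [Group G] [Ring B] (ψ : G →* B) (g h : G) (a b : B)
    (hg : ψ g = 1 + a) (hh : ψ h = 1 + b) (hba : b * a = 0) (hbb : b * b = 0) :
    ψ ⁅g, h⁆ = 1 + a * b := by
  have h1 : ψ ⁅g, h⁆ * ψ (h * g) = ψ (g * h) := by
    rw [← map_mul]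
    congr 1
    rw [commutatorElement_def]
    group
  have h2 : (1 + a * b) * ψ (h * g) = ψ (g * h) := by
    rw [map_mul, map_mul, hg, hh]
    have h3 : (1 + a * b) * ((1 + b) * (1 + a)) = (1 + a) * (1 + b)
        + (b * a + a * (b * a) + a * (b * b) + a * b * (b * a)) := by noncomm_ring
    rw [h3, hba, hbb]
    simp
  have h3 : IsUnit (ψ (h * g)) := (Group.isUnit _).map ψ
  exact h3.mul_right_cancel (h1.trans h2.symm)

section

variable {A : Type u} [Ring A]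

/-- the product `P s * P (s + 1) * ... * P (s + 2 ^ j - 1)` -/
def X (P : ℕ → Submodule ℤ A) : ℕ → ℕ → Submodule ℤ A
  | s, 0 => P s
  | s, j + 1 => X P s j * X P (s + 2 ^ j) j

theorem le_top_mul (I : Submodule ℤ A) : I ≤ ⊤ * I := by
  calc I = 1 * I := (one_mul I).symm
    _ ≤ ⊤ * I := mul_le_mul' le_top le_rfl

theorem le_mul_top (I : Submodule ℤ A) : I ≤ I * ⊤ := by
  calc I = I * 1 := (mul_one I).symm
    _ ≤ I * ⊤ := mul_le_mul' le_rfl le_top

theorem top_mul_top : (⊤ : Submodule ℤ A) * ⊤ = ⊤ :=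
  le_antisymm le_top (le_top_mul _)

theorem X_le_left (P : ℕ → Submodule ℤ A) : ∀ j s, X P s j ≤ P s * ⊤ := by
  intro j
  induction j with
  | zero => intro s; exact le_mul_top _
  | succ j ih =>
      intro s
      calc X P s (j + 1) = X P s j * X P (s + 2 ^ j) j := rfl
        _ ≤ (P s * ⊤) * ⊤ := mul_le_mul' (ih s) le_top
        _ = P s * ⊤ := by rw [mul_assoc, top_mul_top]

theorem X_le_right (P : ℕ → Submodule ℤ A) : ∀ j s, X P s j ≤ ⊤ * P (s + 2 ^ j - 1) := by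
  intro j
  induction j with
  | zero => intro s; exact le_top_mul _
  | succ j ih =>
      intro s
      have e : s + 2 ^ (j + 1) - 1 = (s + 2 ^ j) + 2 ^ j - 1 := by
        rw [pow_succ]; omega
      calc X P s (j + 1) = X P s j * X P (s + 2 ^ j) j := rfl
        _ ≤ ⊤ * (⊤ * P ((s + 2 ^ j) + 2 ^ j - 1)) := mul_le_mul' le_top (ih _)
        _ = ⊤ * P (s + 2 ^ (j + 1) - 1) := by rw [← mul_assoc, top_mul_top, e]

theorem X_mul_le (P : ℕ → Submodule ℤ A) (J : Submodule ℤ A) (hl : ⊤ * J ≤ J) (hr : J * ⊤ ≤ J)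
    (hP : ∀ i j, j ≤ i → P i * P j ≤ J) (j s s' : ℕ) (h : s ≤ s' + 2 ^ j - 1) :
    X P s' j * X P s j ≤ J := by
  calc X P s' j * X P s j ≤ (⊤ * P (s' + 2 ^ j - 1)) * (P s * ⊤) :=
        mul_le_mul' (X_le_right P j s') (X_le_left P j s)
    _ = ⊤ * (P (s' + 2 ^ j - 1) * P s) * ⊤ := by simp only [mul_assoc]
    _ ≤ ⊤ * J * ⊤ :=
        mul_le_mul' (mul_le_mul' le_rfl (hP _ _ h)) le_rfl
    _ ≤ J * ⊤ := mul_le_mul' hl le_rfl
    _ ≤ J := hr

theorem exists_mem_derived {G : Type v} {B : Type u} [Group G] [Ring B] (ψ : G →* B)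
    (f : A →+* B) (J : Submodule ℤ A) (hf : ∀ a, f a = 0 ↔ a ∈ J)
    (hl : ⊤ * J ≤ J) (hr : J * ⊤ ≤ J) (P : ℕ → Submodule ℤ A)
    (hP : ∀ i j, j ≤ i → P i * P j ≤ J)
    (hg : ∀ i, ∀ x ∈ P i, ∃ g, ψ g = 1 + f x) :
    ∀ j s, ∀ z ∈ X P s j, ∃ g ∈ derivedSeries G j, ψ g = 1 + f z := by
  intro j
  induction j with
  | zero =>
      intro s z hz
      obtain ⟨g, hg⟩ := hg s z hz
      exact ⟨g, by simp, hg⟩
  | succ j ih =>
      intro s z hz
      have hpos : 1 ≤ 2 ^ j := Nat.one_le_two_pow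
      have hXX : X P s (j + 1) * X P s (j + 1) ≤ J :=
        X_mul_le P J hl hr hP (j + 1) s s (by
          have : 1 ≤ 2 ^ (j + 1) := Nat.one_le_two_pow
          omega)
      have hz' : z ∈ X P s j * X P (s + 2 ^ j) j := hz
      have key : z ∈ X P s (j + 1) ∧ ∃ g ∈ derivedSeries G (j + 1), ψ g = 1 + f z := by
        refine Submodule.mul_induction_on hz' ?_ ?_
        · intro a ha b hb
          refine ⟨Submodule.mul_mem_mul ha hb, ?_⟩
          obtain ⟨g, hgd, hg1⟩ := ih s a ha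
          obtain ⟨h, hhd, hh1⟩ := ih (s + 2 ^ j) b hb
          refine ⟨⁅g, h⁆, ?_, ?_⟩
          · rw [derivedSeries_succ]
            exact Subgroup.commutator_mem_commutator hgd hhd
          · rw [map_mul]
            refine comm_val ψ g h (f a) (f b) hg1 hh1 ?_ ?_
            · rw [← map_mul, hf]
              exact X_mul_le P J hl hr hP j s (s + 2 ^ j) (by omega)
                (Submodule.mul_mem_mul hb ha)
            · rw [← map_mul, hf]
              exact X_mul_le P J hl hr hP j (s + 2 ^ j) (s + 2 ^ j) (by omega)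
                (Submodule.mul_mem_mul hb hb)
        · rintro x y ⟨hx, g, hgd, hg1⟩ ⟨hy, h, hhd, hh1⟩
          refine ⟨Submodule.add_mem _ hx hy, g * h, Subgroup.mul_mem _ hgd hhd, ?_⟩
          have h0 : f x * f y = 0 := by
            rw [← map_mul, hf]
            exact hXX (Submodule.mul_mem_mul hx hy)
          rw [map_mul, hg1, hh1, map_add]
          have h3 : (1 + f x) * (1 + f y) = 1 + (f x + f y) + f x * f y := by noncomm_ring
          rw [h3, h0, add_zero]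
      exact key.2

theorem X_closed (T E : Submodule ℤ A) (k : ℕ) : ∀ j s, s + 2 ^ j ≤ k →
    X (fun i => T ^ (k - 1 - i) * E * T ^ (i + 1)) s j
      = T ^ (k - 1 - s) * (E * T ^ (k - 1)) ^ (2 ^ j - 1) * E * T ^ (s + 2 ^ j) := by
  intro j
  induction j with
  | zero => intro s _; simp [X]
  | succ j ih =>
      intro s hs
      have hpos : 1 ≤ 2 ^ j := Nat.one_le_two_pow
      have hs2 : 2 ^ (j + 1) = 2 ^ j + 2 ^ j := by rw [pow_succ]; omega
      have e1 : 2 ^ (j + 1) - 1 = (2 ^ j - 1) + 1 + (2 ^ j - 1) := by omega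
      have e2 : T ^ (k - 1) = T ^ (s + 2 ^ j) * T ^ (k - 1 - (s + 2 ^ j)) := by
        rw [← pow_add]; congr 1; omega
      have e3 : s + 2 ^ j + 2 ^ j = s + 2 ^ (j + 1) := by omega
      have e4 : X (fun i => T ^ (k - 1 - i) * E * T ^ (i + 1)) s (j + 1)
          = X (fun i => T ^ (k - 1 - i) * E * T ^ (i + 1)) s j
            * X (fun i => T ^ (k - 1 - i) * E * T ^ (i + 1)) (s + 2 ^ j) j := rfl
      have e5 : (E * T ^ (k - 1)) ^ (2 ^ (j + 1) - 1) = (E * T ^ (k - 1)) ^ (2 ^ j - 1)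
          * (E * T ^ (k - 1)) * (E * T ^ (k - 1)) ^ (2 ^ j - 1) := by
        rw [e1, pow_add, pow_add, pow_one]
      rw [e4, ih s (by omega), ih (s + 2 ^ j) (by omega), e5, e3]
      generalize (E * T ^ (k - 1)) ^ (2 ^ j - 1) = W
      rw [e2]
      simp only [mul_assoc]

theorem pow_idem {M : Type*} [Monoid M] (e x : M) (he : e * e = e) (n : ℕ) :
    (e * x * e) ^ (n + 1) = e * x * (e * x) ^ n * e := by
  induction n with
  | zero => simp
  | succ n ih =>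
      rw [pow_succ, ih, pow_succ]
      calc e * x * (e * x) ^ n * e * (e * x * e)
          = e * x * (e * x) ^ n * (e * e) * x * e := by simp only [mul_assoc]
        _ = e * x * ((e * x) ^ n * (e * x)) * e := by rw [he]; simp only [mul_assoc]

/-- The key step. -/
theorem key_step {G : Type v} [Group G] (φ : G →* A) (L : Submodule ℤ A)
    (hL : ⊤ * L ≤ L) (H : Subgroup G) (hH : ∀ x ∈ L, ∃ g ∈ H, φ g = 1 + x) (d : ℕ)
    (hd : derivedSeries H d = ⊥) (T : Submodule ℤ A) (hT : T ≤ L) (k : ℕ)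
    (hk : 2 ^ d + 1 ≤ k) :
    (⊤ * T ^ (k - 1) * ⊤) ^ (2 ^ d + 1) ≤ ⊤ * T ^ k * ⊤ := by
  set J : Submodule ℤ A := ⊤ * T ^ k * ⊤ with hJ
  have hl : ⊤ * J ≤ J := by
    rw [hJ, ← mul_assoc, ← mul_assoc, top_mul_top]
  have hr : J * ⊤ ≤ J := by
    rw [hJ, mul_assoc, top_mul_top]
  obtain ⟨B, _, f, hf⟩ := exists_quot J
    (fun a x hx => hl (Submodule.mul_mem_mul Submodule.mem_top hx))
    (fun a x hx => hr (Submodule.mul_mem_mul hx Submodule.mem_top))
  let ψ : H →* B := (f : A →* B).comp (φ.comp H.subtype)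
  let P : ℕ → Submodule ℤ A := fun i => T ^ (k - 1 - i) * ⊤ * T ^ (i + 1)
  have hPL : ∀ i, P i ≤ L := by
    intro i
    calc P i = (T ^ (k - 1 - i) * ⊤ * T ^ i) * T := by
          show T ^ (k - 1 - i) * ⊤ * T ^ (i + 1) = _
          rw [pow_succ]; simp only [mul_assoc]
      _ ≤ ⊤ * L := mul_le_mul' le_top hT
      _ ≤ L := hL
  have hP : ∀ i j, j ≤ i → P i * P j ≤ J := by
    intro i j hij
    have e : i + 1 + (k - 1 - j) = (i + 1 + (k - 1 - j) - k) + k := by omega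
    calc P i * P j = (T ^ (k - 1 - i) * ⊤) * (T ^ (i + 1) * T ^ (k - 1 - j)) * (⊤ * T ^ (j + 1)) := by
          show (T ^ (k - 1 - i) * ⊤ * T ^ (i + 1)) * (T ^ (k - 1 - j) * ⊤ * T ^ (j + 1)) = _
          simp only [mul_assoc]
      _ = (T ^ (k - 1 - i) * ⊤) * (T ^ (i + 1 + (k - 1 - j) - k) * T ^ k) * (⊤ * T ^ (j + 1)) := by
          rw [← pow_add, e, pow_add]; simp
      _ = (T ^ (k - 1 - i) * ⊤ * T ^ (i + 1 + (k - 1 - j) - k)) * T ^ k * (⊤ * T ^ (j + 1)) := by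
          simp only [mul_assoc]
      _ ≤ ⊤ * T ^ k * ⊤ :=
          mul_le_mul' (mul_le_mul' le_top le_rfl) le_top
  have hX : X P 0 d ≤ J := by
    intro z hz
    obtain ⟨g, hg, hg1⟩ := exists_mem_derived ψ f J hf hl hr P hP (by
      intro i x hx
      obtain ⟨g, hgH, hg1⟩ := hH x (hPL i hx)
      refine ⟨⟨g, hgH⟩, ?_⟩
      show f (φ g) = _
      rw [hg1, map_add, map_one]) d 0 z hz
    rw [hd, Subgroup.mem_bot] at hg
    rw [hg, map_one] at hg1
    rw [← hf]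
    exact (left_eq_add.mp hg1)
  have hpos : 1 ≤ 2 ^ d := Nat.one_le_two_pow
  have hXc := X_closed T ⊤ k d 0 (by omega)
  obtain ⟨r, hr2⟩ : ∃ r, 2 ^ d = r + 1 := ⟨2 ^ d - 1, by omega⟩
  have e2 : T ^ (k - 1) = T ^ (2 ^ d) * T ^ (k - 1 - 2 ^ d) := by
    rw [← pow_add]; congr 1; omega
  calc (⊤ * T ^ (k - 1) * ⊤) ^ (2 ^ d + 1)
      = ⊤ * T ^ (k - 1) * (⊤ * T ^ (k - 1)) ^ (2 ^ d) * ⊤ := pow_idem _ _ top_mul_top _
    _ = ⊤ * (T ^ (k - 1) * (⊤ * T ^ (k - 1)) ^ (2 ^ d - 1) * ⊤ * T ^ (2 ^ d))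
        * (T ^ (k - 1 - 2 ^ d) * ⊤) := by
        have e3 : (⊤ * T ^ (k - 1)) ^ (2 ^ d) = (⊤ * T ^ (k - 1)) ^ (2 ^ d - 1)
            * (⊤ * (T ^ (2 ^ d) * T ^ (k - 1 - 2 ^ d))) := by
          rw [← e2, ← pow_succ]; congr 1; omega
        rw [e3]
        simp only [mul_assoc]
    _ = ⊤ * X P 0 d * (T ^ (k - 1 - 2 ^ d) * ⊤) := by
        show _ = ⊤ * X (fun i => T ^ (k - 1 - i) * ⊤ * T ^ (i + 1)) 0 d
          * (T ^ (k - 1 - 2 ^ d) * ⊤)
        rw [hXc]; simp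
    _ ≤ ⊤ * J * ⊤ :=
        mul_le_mul' (mul_le_mul' le_rfl hX) le_top
    _ ≤ J * ⊤ := mul_le_mul' hl le_rfl
    _ ≤ J := hr

/-- The ideal generated by `r`-fold products of a finite subset of `L` is nilpotent. -/
theorem key_nil {G : Type v} [Group G] (φ : G →* A) (L : Submodule ℤ A)
    (hL : ⊤ * L ≤ L) (H : Subgroup G) (hH : ∀ x ∈ L, ∃ g ∈ H, φ g = 1 + x) (d : ℕ)
    (hd : derivedSeries H d = ⊥) (T : Submodule ℤ A) (hT : T ≤ L) (N : ℕ)
    (hN : T ^ N = ⊥) : ∃ n, (⊤ * T ^ (2 ^ d) * ⊤) ^ n = ⊥ := by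
  have h1 : ∀ i : ℕ, (⊤ * T ^ (2 ^ d) * ⊤) ^ ((2 ^ d + 1) ^ i) ≤ ⊤ * T ^ (2 ^ d + i) * ⊤ := by
    intro i
    induction i with
    | zero => simp
    | succ i ih =>
        calc (⊤ * T ^ (2 ^ d) * ⊤) ^ ((2 ^ d + 1) ^ (i + 1))
            = ((⊤ * T ^ (2 ^ d) * ⊤) ^ ((2 ^ d + 1) ^ i)) ^ (2 ^ d + 1) := by
              rw [pow_succ (2 ^ d + 1) i, pow_mul]
          _ ≤ (⊤ * T ^ (2 ^ d + i) * ⊤) ^ (2 ^ d + 1) := pow_le_pow_left' ih _
          _ ≤ ⊤ * T ^ (2 ^ d + (i + 1)) * ⊤ := by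
              have := key_step φ L hL H hH d hd T hT (2 ^ d + i + 1) (by omega)
              simpa [add_assoc] using this
  refine ⟨(2 ^ d + 1) ^ N, ?_⟩
  rw [eq_bot_iff]
  refine (h1 N).trans ?_
  rw [pow_add, hN]
  simp

end

end Pool.Agent.Work.MP_3fbbd3_adj
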