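import Pool.Agent.Work.MP_3fbbd3_adj.Def
import Pool.Agent.Work.MP_3fbbd3_adj.Ring
import Pool.Agent.Work.MP_3fbbd3_adj.Fit

/-!
# Adjoint groups with all proper subgroups solvable (group part)
-/

namespace Pool.Agent.Work.MP_3fbbd3_adj

open Submodule

open scoped commutatorElement

universe u v

section

variable {A : Type u} [Ring A]

/-- the two-sided ideal generated by a set -/
def gi (S : Set A) : Submodule ℤ A := ⊤ * span ℤ S * ⊤

theorem gi_l (S : Set A) : ⊤ * gi S ≤ gi S := by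
  rw [gi, ← mul_assoc, ← mul_assoc, top_mul_top]

theorem gi_r (S : Set A) : gi S * ⊤ ≤ gi S := by
  rw [gi, mul_assoc, top_mul_top]

theorem subset_gi (S : Set A) : S ⊆ gi S := by
  intro x hx
  have h1 : x ∈ span ℤ S := subset_span hx
  have h2 : (1 : A) * x * 1 ∈ gi S :=
    Submodule.mul_mem_mul (Submodule.mul_mem_mul Submodule.mem_top h1) Submodule.mem_top
  simpa using h2

theorem gi_le {S : Set A} {I : Submodule ℤ A} (hl : ⊤ * I ≤ I) (hr : I * ⊤ ≤ I)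
    (h : S ⊆ I) : gi S ≤ I := by
  calc gi S = ⊤ * span ℤ S * ⊤ := rfl
    _ ≤ ⊤ * I * ⊤ := mul_le_mul' (mul_le_mul' le_rfl (span_le.mpr h)) le_rfl
    _ ≤ I * ⊤ := mul_le_mul' hl le_rfl
    _ ≤ I := hr

theorem gi_empty : gi (∅ : Set A) = ⊥ := by simp [gi]

theorem gi_insert (a : A) (S : Set A) : gi (insert a S) = gi {a} ⊔ gi S := by
  simp only [gi, Submodule.span_insert, Submodule.mul_sup, Submodule.sup_mul]

theorem sup_pow (I J : Submodule ℤ A) (hl : ⊤ * I ≤ I) (hr : I * ⊤ ≤ I) (n : ℕ) :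
    (I ⊔ J) ^ n ≤ I ⊔ J ^ n := by
  induction n with
  | zero => simp
  | succ n ih =>
      rw [pow_succ]
      refine (mul_le_mul' ih le_rfl).trans ?_
      rw [Submodule.sup_mul, Submodule.mul_sup, Submodule.mul_sup]
      refine sup_le (sup_le ?_ ?_) (sup_le ?_ ?_)
      · exact ((mul_le_mul' le_rfl le_top).trans hr).trans le_sup_left
      · exact ((mul_le_mul' le_rfl le_top).trans hr).trans le_sup_left
      · exact ((mul_le_mul' le_top le_rfl).trans hl).trans le_sup_left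
      · rw [← pow_succ]; exact le_sup_right

theorem sup_pow_le (I J Q : Submodule ℤ A) (hl : ⊤ * I ≤ I) (hr : I * ⊤ ≤ I)
    (hQl : ⊤ * Q ≤ Q) (hQr : Q * ⊤ ≤ Q) (m n : ℕ) (hI : I ^ m ≤ Q) (hJ : J ^ n ≤ Q) :
    (I ⊔ J) ^ (n * m) ≤ Q := by
  calc (I ⊔ J) ^ (n * m) = ((I ⊔ J) ^ n) ^ m := pow_mul _ _ _
    _ ≤ (I ⊔ J ^ n) ^ m := pow_le_pow_left' (sup_pow I J hl hr n) m
    _ ≤ (Q ⊔ I) ^ m := pow_le_pow_left' (sup_le le_sup_right (hJ.trans le_sup_left)) m
    _ ≤ Q ⊔ I ^ m := sup_pow Q I hQl hQr m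
    _ ≤ Q := sup_le le_rfl hI

theorem gi_fin_pow (M Q : Submodule ℤ A) (hQl : ⊤ * Q ≤ Q) (hQr : Q * ⊤ ≤ Q)
    (h : ∀ x ∈ M, ∃ n : ℕ, gi {x} ^ n ≤ Q) (S : Set A) (hS : S.Finite) (hSM : S ⊆ M) :
    ∃ n : ℕ, gi S ^ n ≤ Q := by
  induction S, hS using Set.Finite.induction_on with
  | empty => exact ⟨1, by rw [gi_empty, pow_one]; exact bot_le⟩
  | insert _ _ ih =>
      rename_i a S _ _
      obtain ⟨n, hn⟩ := ih (fun y hy => hSM (Set.mem_insert_of_mem _ hy))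
      obtain ⟨m, hm⟩ := h a (hSM (Set.mem_insert _ _))
      refine ⟨n * m, ?_⟩
      rw [gi_insert]
      exact sup_pow_le _ _ Q (gi_l _) (gi_r _) hQl hQr m n hm hn

/-- elements of a power of `L` come from finite subsets -/
theorem exists_fin (L : Submodule ℤ A) (n : ℕ) :
    ∀ z ∈ L ^ n, ∃ S : Set A, S.Finite ∧ S ⊆ L ∧ z ∈ (span ℤ S) ^ n := by
  induction n with
  | zero => intro z hz; exact ⟨∅, Set.finite_empty, Set.empty_subset _, by simpa using hz⟩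
  | succ n ih =>
      intro z hz
      rw [pow_succ] at hz
      refine Submodule.mul_induction_on hz ?_ ?_
      · intro a ha b hb
        obtain ⟨S, hS, hSL, ha'⟩ := ih a ha
        refine ⟨insert b S, hS.insert b, Set.insert_subset hb hSL, ?_⟩
        rw [pow_succ]
        exact Submodule.mul_mem_mul
          (pow_le_pow_left' (span_mono (Set.subset_insert _ _)) n ha')
          (subset_span (Set.mem_insert _ _))
      · rintro x y ⟨S, hS, hSL, hx⟩ ⟨S', hS', hSL', hy⟩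
        refine ⟨S ∪ S', hS.union hS', Set.union_subset hSL hSL', ?_⟩
        exact Submodule.add_mem _
          (pow_le_pow_left' (span_mono Set.subset_union_left) _ hx)
          (pow_le_pow_left' (span_mono Set.subset_union_right) _ hy)

theorem exists_fin_mul (L E : Submodule ℤ A) (n : ℕ) :
    ∀ z ∈ L ^ n * E, ∃ S : Set A, S.Finite ∧ S ⊆ L ∧ z ∈ (span ℤ S) ^ n * E := by
  intro z hz
  refine Submodule.mul_induction_on hz ?_ ?_
  · intro a ha b hb
    obtain ⟨S, hS, hSL, ha'⟩ := exists_fin L n a ha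
    exact ⟨S, hS, hSL, Submodule.mul_mem_mul ha' hb⟩
  · rintro x y ⟨S, hS, hSL, hx⟩ ⟨S', hS', hSL', hy⟩
    refine ⟨S ∪ S', hS.union hS', Set.union_subset hSL hSL', ?_⟩
    exact Submodule.add_mem _
      (mul_le_mul' (pow_le_pow_left' (span_mono Set.subset_union_left) _) le_rfl hx)
      (mul_le_mul' (pow_le_pow_left' (span_mono Set.subset_union_right) _) le_rfl hy)

/-- the sum of the nilpotent ideals in `M` -/
def N1 (M : Submodule ℤ A) : Submodule ℤ A where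
  carrier := {z | z ∈ M ∧ ∃ n : ℕ, gi {z} ^ n = ⊥}
  zero_mem' := ⟨M.zero_mem, 1, by simp [gi]⟩
  add_mem' := by
    rintro x y ⟨hx, m, hm⟩ ⟨hy, n, hn⟩
    refine ⟨M.add_mem hx hy, n * m, ?_⟩
    rw [eq_bot_iff]
    have h1 : gi {x + y} ≤ gi {x} ⊔ gi {y} := by
      refine gi_le ?_ ?_ ?_
      · rw [Submodule.mul_sup]; exact sup_le_sup (gi_l _) (gi_l _)
      · rw [Submodule.sup_mul]; exact sup_le_sup (gi_r _) (gi_r _)
      · rw [Set.singleton_subset_iff]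
        exact Submodule.add_mem_sup (subset_gi _ rfl) (subset_gi _ rfl)
    refine (pow_le_pow_left' h1 _).trans ?_
    exact sup_pow_le _ _ ⊥ (gi_l _) (gi_r _) (by simp) (by simp) m n hm.le hn.le
  smul_mem' := by
    rintro c x ⟨hx, n, hn⟩
    refine ⟨M.smul_mem c hx, n, ?_⟩
    rw [eq_bot_iff, ← hn]
    refine pow_le_pow_left' ?_ n
    refine gi_le (gi_l _) (gi_r _) ?_
    rw [Set.singleton_subset_iff]
    exact Submodule.smul_mem _ c (subset_gi _ rfl)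

theorem mem_N1 (M : Submodule ℤ A) (z : A) :
    z ∈ N1 M ↔ z ∈ M ∧ ∃ n : ℕ, gi {z} ^ n = ⊥ := Iff.rfl

theorem N1_l (M : Submodule ℤ A) (hl : ⊤ * M ≤ M) : ⊤ * N1 M ≤ N1 M := by
  rw [Submodule.mul_le]
  rintro a - x ⟨hx, n, hn⟩
  refine ⟨hl (Submodule.mul_mem_mul Submodule.mem_top hx), n, ?_⟩
  rw [eq_bot_iff, ← hn]
  refine pow_le_pow_left' ?_ n
  refine gi_le (gi_l _) (gi_r _) ?_
  rw [Set.singleton_subset_iff]
  exact gi_l _ (Submodule.mul_mem_mul Submodule.mem_top (subset_gi _ rfl))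

theorem N1_r (M : Submodule ℤ A) (hr : M * ⊤ ≤ M) : N1 M * ⊤ ≤ N1 M := by
  rw [Submodule.mul_le]
  rintro x ⟨hx, n, hn⟩ a -
  refine ⟨hr (Submodule.mul_mem_mul hx Submodule.mem_top), n, ?_⟩
  rw [eq_bot_iff, ← hn]
  refine pow_le_pow_left' ?_ n
  refine gi_le (gi_l _) (gi_r _) ?_
  rw [Set.singleton_subset_iff]
  exact gi_r _ (Submodule.mul_mem_mul (subset_gi _ rfl) Submodule.mem_top)

section grp

variable {G : Type v} [Group G] (φ : G →* A)

theorem phi_inv_mul (g : G) : φ g⁻¹ * φ g = 1 := by rw [← map_mul]; simp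

theorem phi_mul_inv (g : G) : φ g * φ g⁻¹ = 1 := by rw [← map_mul]; simp

/-- the subgroup `1 + L` -/
def HL (L : Submodule ℤ A) (hL : ⊤ * L ≤ L) : Subgroup G where
  carrier := {g | φ g - 1 ∈ L}
  mul_mem' := by
    intro g h hg hh
    have e : φ (g * h) - 1 = φ g * (φ h - 1) + (φ g - 1) := by rw [map_mul]; noncomm_ring
    show φ (g * h) - 1 ∈ L
    rw [e]
    exact L.add_mem (hL (Submodule.mul_mem_mul Submodule.mem_top hh)) hg
  one_mem' := by
    show φ 1 - 1 ∈ L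
    simp
  inv_mem' := by
    intro g hg
    have e : φ g⁻¹ - 1 = -(φ g⁻¹ * (φ g - 1)) := by
      rw [mul_sub, phi_inv_mul]; noncomm_ring
    show φ g⁻¹ - 1 ∈ L
    rw [e]
    exact L.neg_mem (hL (Submodule.mul_mem_mul Submodule.mem_top hg))

theorem mem_HL (L : Submodule ℤ A) (hL : ⊤ * L ≤ L) (g : G) :
    g ∈ HL φ L hL ↔ φ g - 1 ∈ L := Iff.rfl

theorem HL_normal (I : Submodule ℤ A) (hl : ⊤ * I ≤ I) (hr : I * ⊤ ≤ I) :
    (HL φ I hl).Normal := by
  refine ⟨fun h hh g => ?_⟩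
  have e : φ (g * h * g⁻¹) - 1 = φ g * (φ h - 1) * φ g⁻¹ := by
    rw [map_mul, map_mul, mul_sub, sub_mul, mul_one, phi_mul_inv]
  show φ (g * h * g⁻¹) - 1 ∈ I
  rw [e]
  exact hr (Submodule.mul_mem_mul (hl (Submodule.mul_mem_mul Submodule.mem_top hh))
    Submodule.mem_top)

theorem comm_HL (I I' K : Submodule ℤ A) (hl : ⊤ * I ≤ I) (hl' : ⊤ * I' ≤ I')
    (hK : ⊤ * K ≤ K) (hKr : K * ⊤ ≤ K) (h1 : I * I' ≤ K) (h2 : I' * I ≤ K) :
    ⁅HL φ I hl, HL φ I' hl'⁆ ≤ HL φ K hK := by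
  rw [Subgroup.commutator_le]
  intro g hg h hh
  have e : φ ⁅g, h⁆ - 1 = ((φ g - 1) * (φ h - 1) - (φ h - 1) * (φ g - 1)) * φ (g⁻¹ * h⁻¹) := by
    have e1 : (φ g - 1) * (φ h - 1) - (φ h - 1) * (φ g - 1) = φ (g * h) - φ (h * g) := by
      rw [map_mul, map_mul]; noncomm_ring
    rw [e1, sub_mul, ← map_mul, ← map_mul, commutatorElement_def]
    have e2 : h * g * (g⁻¹ * h⁻¹) = 1 := by group
    have e3 : g * h * (g⁻¹ * h⁻¹) = g * h * g⁻¹ * h⁻¹ := by group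
    rw [e2, e3, map_one]
  show φ ⁅g, h⁆ - 1 ∈ K
  rw [e]
  exact hKr (Submodule.mul_mem_mul (K.sub_mem (h1 (Submodule.mul_mem_mul hg hh))
    (h2 (Submodule.mul_mem_mul hh hg))) Submodule.mem_top)

end grp

end

end Pool.Agent.Work.MP_3fbbd3_adj
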