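import Pool.Agent.Work.MP_3fbbd3_adj.Grp

/-!
# Adjoint groups with all proper subgroups solvable
-/

namespace Pool.Agent.Work.MP_3fbbd3_adj

open Submodule

open scoped commutatorElement

universe u v

section

variable {A : Type u} [Ring A]

theorem pow_l (I : Submodule ℤ A) (hl : ⊤ * I ≤ I) (i : ℕ) : ⊤ * I ^ (i + 1) ≤ I ^ (i + 1) := by
  rw [pow_succ', ← mul_assoc]
  exact mul_le_mul' hl le_rfl

theorem pow_r (I : Submodule ℤ A) (hr : I * ⊤ ≤ I) (i : ℕ) : I ^ (i + 1) * ⊤ ≤ I ^ (i + 1) := by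
  rw [pow_succ, mul_assoc]
  exact mul_le_mul' le_rfl hr

theorem exists_pow_nil {p : ℕ} {G : Type v} [Group G] {M : Submodule ℤ A} {φ : G →* A}
    (hA : Adj p M φ) (hs : ∀ H : Subgroup G, H ≠ ⊤ → Group.IsSolvable H) (x : A) (hx : x ∈ M) :
    ∃ n : ℕ, gi {x} ^ n ≤ N1 M := by
  by_cases hx0 : x = 0
  · refine ⟨1, ?_⟩
    rw [hx0, pow_one]
    have : gi ({0} : Set A) = ⊥ := by simp [gi]
    rw [this]
    exact bot_le
  set s : Submodule ℤ A := span ℤ {x} with hsdef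
  set L : Submodule ℤ A := M * s with hLdef
  have hL : ⊤ * L ≤ L := by
    rw [hLdef, ← mul_assoc]
    exact mul_le_mul' hA.hl le_rfl
  have hLM : L ≤ M := (mul_le_mul' le_rfl le_top).trans hA.hr
  have hxL : x ∉ L := by
    intro h
    rw [hLdef, hsdef, Submodule.mem_mul_span_singleton] at h
    obtain ⟨y, hy, hyx⟩ := h
    obtain ⟨n, hn⟩ := hA.nil {y} (Set.finite_singleton y) (by simpa using hy)
    have h1 : y ^ n ∈ (span ℤ {y}) ^ n := Submodule.pow_mem_pow _ (Submodule.mem_span_singleton_self y) n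
    rw [hn, Submodule.mem_bot] at h1
    have h2 : ∀ k : ℕ, y ^ k * x = x := by
      intro k
      induction k with
      | zero => simp
      | succ k ih => rw [pow_succ, mul_assoc, hyx, ih]
    have h3 := h2 n
    rw [h1, zero_mul] at h3
    exact hx0 h3.symm
  have hHt : HL φ L hL ≠ ⊤ := by
    intro h
    obtain ⟨g, hg⟩ := hA.surj x hx
    have h1 : g ∈ HL φ L hL := by rw [h]; exact Subgroup.mem_top g
    rw [mem_HL, hg, add_sub_cancel_left] at h1
    exact hxL h1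
  obtain ⟨d, hd⟩ := (hs _ hHt).solvable
  have hpos : 1 ≤ 2 ^ d := Nat.one_le_two_pow
  have hTM : ⊤ * s * ⊤ ≤ M := by
    have h1 : s ≤ M := by rw [hsdef, span_le]; simpa using hx
    exact (mul_le_mul' ((mul_le_mul' le_rfl h1).trans hA.hl) le_rfl).trans hA.hr
  have hTT : (⊤ * s) ^ 2 ≤ L := by
    calc (⊤ * s) ^ 2 = (⊤ * s * ⊤) * s := by rw [pow_two]; simp only [mul_assoc]
      _ ≤ M * s := mul_le_mul' hTM le_rfl
  refine ⟨2 * 2 ^ d, ?_⟩
  have h1 : gi {x} ^ (2 * 2 ^ d) ≤ L ^ (2 ^ d) * ⊤ := by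
    obtain ⟨r, hr⟩ : ∃ r, 2 * 2 ^ d = r + 1 := ⟨2 * 2 ^ d - 1, by omega⟩
    calc gi {x} ^ (2 * 2 ^ d) = (⊤ * s * ⊤) ^ (r + 1) := by rw [hr]; rfl
      _ = ⊤ * s * (⊤ * s) ^ r * ⊤ := pow_idem _ _ top_mul_top _
      _ = (⊤ * s) ^ (2 * 2 ^ d) * ⊤ := by rw [← pow_succ', hr]
      _ = ((⊤ * s) ^ 2) ^ (2 ^ d) * ⊤ := by rw [pow_mul]
      _ ≤ L ^ (2 ^ d) * ⊤ := mul_le_mul' (pow_le_pow_left' hTT _) le_rfl
  intro z hz
  have hz1 := h1 hz
  have hzM : z ∈ M := by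
    have h2 : L ^ (2 ^ d) * ⊤ ≤ M := by
      obtain ⟨r, hr⟩ : ∃ r, 2 ^ d = r + 1 := ⟨2 ^ d - 1, by omega⟩
      rw [hr, pow_succ]
      exact (mul_le_mul' ((mul_le_mul' le_top hLM).trans hA.hl) le_rfl).trans hA.hr
    exact h2 hz1
  obtain ⟨S, hSf, hSL, hzS⟩ := exists_fin_mul L ⊤ (2 ^ d) z hz1
  obtain ⟨N, hN⟩ := hA.nil S hSf (fun y hy => hLM (hSL hy))
  obtain ⟨k, hk⟩ := key_nil φ L hL (HL φ L hL) (by
    intro y hy
    obtain ⟨g, hg⟩ := hA.surj y (hLM hy)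
    refine ⟨g, ?_, hg⟩
    rw [mem_HL, hg, add_sub_cancel_left]
    exact hy) d hd (span ℤ S) (span_le.mpr hSL) N hN
  refine ⟨hzM, k, ?_⟩
  rw [eq_bot_iff, ← hk]
  refine pow_le_pow_left' ?_ k
  refine gi_le ?_ ?_ ?_
  · rw [← mul_assoc, ← mul_assoc, top_mul_top]
  · rw [mul_assoc, top_mul_top]
  · rw [Set.singleton_subset_iff]
    rw [mul_assoc]
    exact le_top_mul _ hzS

/-- A two-sided ideal `Q ≠ M` modulo which all principal ideals are nilpotent. -/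
theorem exists_Q {p : ℕ} {G : Type v} [Group G] {M : Submodule ℤ A} {φ : G →* A}
    (hA : Adj p M φ) (hM : M ≠ ⊥) (hs : ∀ H : Subgroup G, H ≠ ⊤ → Group.IsSolvable H) :
    ∃ Q : Submodule ℤ A, Q ≤ M ∧ Q ≠ M ∧ ⊤ * Q ≤ Q ∧ Q * ⊤ ≤ Q ∧
      ∀ x ∈ M, ∃ n : ℕ, gi {x} ^ n ≤ Q := by
  by_cases h : N1 M = M
  · refine ⟨⊥, bot_le, hM.symm, by simp, by simp, ?_⟩
    intro x hx
    rw [← h] at hx
    obtain ⟨n, hn⟩ := hx.2
    exact ⟨n, hn.le⟩
  · exact ⟨N1 M, fun x hx => hx.1, h, N1_l M hA.hl, N1_r M hA.hr,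
      fun x hx => exists_pow_nil hA hs x hx⟩

end

theorem main_adj (hPG : S_PG.{u}) (p : ℕ) (hp : p.Prime) {A : Type u} [Ring A] {G : Type u}
    [Group G] {M : Submodule ℤ A} {φ : G →* A} (hA : Adj p M φ) (hM : M ≠ ⊥)
    (hperf : commutator G = ⊤) : ∃ H : Subgroup G, H ≠ ⊤ ∧ ¬ Group.IsSolvable H := by
  by_contra hcon
  have hs : ∀ H : Subgroup G, H ≠ ⊤ → Group.IsSolvable H := by
    intro H hH
    by_contra h
    exact hcon ⟨H, hH, h⟩
  obtain ⟨Q, hQM, hne, hQl, hQr, hQ⟩ := exists_Q hA hM hs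
  obtain ⟨hpg, hlf⟩ := hPG p hp A G M φ hA
  have hKt : HL φ Q hQl ≠ ⊤ := by
    intro h
    obtain ⟨x, hx, hxQ⟩ := SetLike.exists_of_lt (lt_of_le_of_ne hQM hne)
    obtain ⟨g, hg⟩ := hA.surj x hx
    have h1 : g ∈ HL φ Q hQl := by rw [h]; exact Subgroup.mem_top g
    rw [mem_HL, hg, add_sub_cancel_left] at h1
    exact hxQ h1
  refine hcon (fittingCase p hp G hpg hperf hlf (HL φ Q hQl) (HL_normal φ Q hQl hQr) hKt ?_)
  intro F hF x hx
  set S : Set A := (fun f => φ f - 1) '' F with hS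
  have hSf : S.Finite := hF.image _
  have hSM : S ⊆ M := by
    rintro _ ⟨f, _, rfl⟩
    exact hA.mem f
  obtain ⟨n, hn⟩ := gi_fin_pow M Q hQl hQr hQ S hSf hSM
  have hI := gi_l S
  have hIr := gi_r S
  have hnc : Subgroup.normalClosure F ≤ HL φ (gi S) hI := by
    have := HL_normal φ (gi S) hI hIr
    refine Subgroup.normalClosure_le_normal ?_
    intro f hf
    exact subset_gi S ⟨f, hf, rfl⟩
  have hlcs : ∀ i : ℕ, (Subgroup.normalClosure F).lowerCentralSeries i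
      ≤ HL φ (gi S ^ (i + 1)) (pow_l _ hI i) := by
    intro i
    induction i with
    | zero =>
        intro g hg
        rw [Subgroup.lowerCentralSeries_zero] at hg
        have h1 := hnc hg
        rw [mem_HL] at h1 ⊢
        simpa using h1
    | succ i ih =>
        rw [Subgroup.lowerCentralSeries_succ]
        refine (Subgroup.commutator_mono ih hnc).trans ?_
        refine comm_HL φ _ _ _ _ _ _ (pow_r _ hIr _) ?_ ?_
        · rw [← pow_succ]
        · rw [← pow_succ']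
  have h2 : (Subgroup.normalClosure F).lowerCentralSeries n ⊔ HL φ Q hQl ≤ HL φ Q hQl := by
    refine sup_le ((hlcs n).trans ?_) le_rfl
    intro g hg
    rw [mem_HL] at hg ⊢
    have h3 : gi S ^ (n + 1) ≤ Q := by
      rw [pow_succ]
      exact (mul_le_mul' hn le_top).trans hQr
    exact h3 hg
  exact h2 (hx n)

theorem solvable_of_comm {G : Type u} [Group G] (h : Group.IsSolvable (commutator G)) :
    Group.IsSolvable G := by
  have := h
  refine Group.isSolvable_of_ker_le_range (commutator G).subtype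
    (Abelianization.of (G := G)) ?_
  rw [Abelianization.ker_of, Subgroup.range_subtype]

end Pool.Agent.Work.MP_3fbbd3_adj
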