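import Pool.Agent.Work.MP_3fbbd3_adj.Def3

/-!
# Block NIL: subnormal subgroups and nilpotent ideals
-/

namespace Pool.Agent.Work.MP_3fbbd3_adj

open Submodule

open scoped commutatorElement

universe u v

namespace NIL

variable {A : Type u} [Ring A] {B : Type u} [Ring B] {Γ : Type u} [Group Γ]

/-- the elements of `E` which are, up to `R`, in `1 + J` coset form from elements of `Q` -/
def GG (φ : Γ →* A) (f : A →+* B) (Q : Subgroup Γ) (E R J : Submodule ℤ A)
    (hf : ∀ a, f a = 0 ↔ a ∈ J) (hRE : R ≤ E) (hE : E * E ≤ J) : Submodule ℤ A :=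
  AddSubgroup.toIntSubmodule
    { carrier := {x | x ∈ E ∧ ∃ e ∈ R, ∃ c ∈ Q, f (φ c) = 1 + f (x + e)}
      zero_mem' := ⟨E.zero_mem, 0, R.zero_mem, 1, Q.one_mem, by simp⟩
      add_mem' := by
        rintro x y ⟨hx, e, he, c, hc, h⟩ ⟨hy, e', he', c', hc', h'⟩
        refine ⟨E.add_mem hx hy, e + e', R.add_mem he he', c * c', Q.mul_mem hc hc', ?_⟩
        have h0 : f (x + e) * f (y + e') = 0 := by
          rw [← map_mul, hf]
          exact hE (Submodule.mul_mem_mul (E.add_mem hx (hRE he)) (E.add_mem hy (hRE he')))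
        rw [map_mul, map_mul, h, h']
        have h1 : (1 + f (x + e)) * (1 + f (y + e'))
            = 1 + (f (x + e) + f (y + e')) + f (x + e) * f (y + e') := by noncomm_ring
        rw [h1, h0, add_zero, ← map_add]
        congr 2
        abel
      neg_mem' := by
        rintro x ⟨hx, e, he, c, hc, h⟩
        refine ⟨E.neg_mem hx, -e, R.neg_mem he, c⁻¹, Q.inv_mem hc, ?_⟩
        have h0 : f (x + e) * f (x + e) = 0 := by
          rw [← map_mul, hf]
          exact hE (Submodule.mul_mem_mul (E.add_mem hx (hRE he)) (E.add_mem hx (hRE he)))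
        have h1 : f (φ c⁻¹) * f (φ c) = 1 := by
          rw [← map_mul, ← map_mul, inv_mul_cancel, map_one, map_one]
        have h2 : f (φ c⁻¹) * f (φ c) * (1 - f (x + e)) = f (φ c⁻¹) := by
          rw [h, mul_assoc]
          have h3 : (1 + f (x + e)) * (1 - f (x + e)) = 1 - f (x + e) * f (x + e) := by
            noncomm_ring
          rw [h3, h0, sub_zero, mul_one]
        rw [← h2, h1, one_mul]
        have h4 : -x + -e = -(x + e) := by abel
        rw [h4, map_neg]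
        abel }

theorem mem_GG {φ : Γ →* A} {f : A →+* B} {Q : Subgroup Γ} {E R J : Submodule ℤ A}
    {hf : ∀ a, f a = 0 ↔ a ∈ J} {hRE : R ≤ E} {hE : E * E ≤ J} (x : A) :
    x ∈ GG φ f Q E R J hf hRE hE ↔ x ∈ E ∧ ∃ e ∈ R, ∃ c ∈ Q, f (φ c) = 1 + f (x + e) := Iff.rfl

variable (T : Submodule ℤ A)

/-- `T ^ l * A * T ^ m` -/
def EE (l m : ℕ) : Submodule ℤ A := T ^ l * ⊤ * T ^ m

theorem EE_mul (l m l' m' k : ℕ) (h : k ≤ m + l') : EE T l m * EE T l' m' ≤ ⊤ * T ^ k * ⊤ := by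
  have e : m + l' = (m + l' - k) + k := by omega
  calc EE T l m * EE T l' m' = (T ^ l * ⊤) * (T ^ m * T ^ l') * (⊤ * T ^ m') := by
        simp only [EE, mul_assoc]
    _ = (T ^ l * ⊤ * T ^ (m + l' - k)) * T ^ k * (⊤ * T ^ m') := by
        rw [← pow_add, e, pow_add]; simp only [Nat.add_sub_cancel, mul_assoc]
    _ ≤ ⊤ * T ^ k * ⊤ := mul_le_mul' (mul_le_mul' le_top le_rfl) le_top

theorem EE_succ_le (l m : ℕ) : EE T (l + 1) m ≤ EE T l m := by
  calc EE T (l + 1) m = T ^ l * (T * ⊤) * T ^ m := by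
        rw [EE, pow_succ]; simp only [mul_assoc]
    _ ≤ T ^ l * ⊤ * T ^ m := mul_le_mul' (mul_le_mul' le_rfl le_top) le_rfl

theorem EE_mul_T (l m : ℕ) : EE T l m * T = EE T l (m + 1) := by
  rw [EE, EE, mul_assoc, ← pow_succ]

theorem T_mul_EE (l m : ℕ) : T * EE T l m = EE T (l + 1) m := by
  rw [EE, EE, pow_succ']; simp only [mul_assoc]

theorem EE_succ_le' (l m : ℕ) : EE T l (m + 1) ≤ EE T l m := by
  calc EE T l (m + 1) = T ^ l * (⊤ * T) * T ^ m := by
        rw [EE, pow_succ']; simp only [mul_assoc]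
    _ ≤ T ^ l * ⊤ * T ^ m := mul_le_mul' (mul_le_mul' le_rfl le_top) le_rfl

theorem EE_anti' (l : ℕ) {m m' : ℕ} (h : m ≤ m') : EE T l m' ≤ EE T l m := by
  induction m', h using Nat.le_induction with
  | base => exact le_rfl
  | succ m' _ ih => exact (EE_succ_le' T l m').trans ih

theorem EE_le_of (W : Submodule ℤ A) (hW : ⊤ * W ≤ W) (hT : T ≤ W) (l m : ℕ) (hm : 1 ≤ m) :
    EE T l m ≤ W := by
  obtain ⟨m, rfl⟩ : ∃ m', m = m' + 1 := ⟨m - 1, by omega⟩
  rw [← EE_mul_T]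
  exact (mul_le_mul' le_top hT).trans hW

/-- the covering property -/
def Cov (φ : Γ →* A) (W : Submodule ℤ A) (hW : ⊤ * W ≤ W) (Q : Subgroup Γ) (n : ℕ) : Prop :=
  ∀ F : Set Γ, (∀ g ∈ F, g ∈ Q ∧ φ g - 1 ∈ W ∧ g⁻¹ ∈ F) →
  ∀ (B : Type u) [Ring B] (k : ℕ) (f : A →+* B),
    (∀ a, f a = 0 ↔ a ∈ ⊤ * (span ℤ ((fun g => φ g - 1) '' F)) ^ k * ⊤) →
    ∀ l m : ℕ, n + 1 ≤ m → k + n ≤ l + m → ∀ x ∈ EE (span ℤ ((fun g => φ g - 1) '' F)) l m,
      ∃ e ∈ EE (span ℤ ((fun g => φ g - 1) '' F)) (l + 1) (m - n), ∃ c ∈ Q ⊓ HL φ W hW,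
        f (φ c) = 1 + f (x + e)

theorem cov_top (φ : Γ →* A) (W : Submodule ℤ A) (hW : ⊤ * W ≤ W)
    (hs : ∀ x ∈ W, ∃ g, φ g = 1 + x) : Cov φ W hW ⊤ 0 := by
  intro F hF B _ k f hf l m hm hk x hx
  have hTW : span ℤ ((fun g => φ g - 1) '' F) ≤ W := by
    rw [span_le]
    rintro _ ⟨g, hg, rfl⟩
    exact (hF g hg).2.1
  have hxW : x ∈ W := EE_le_of _ W hW hTW l m (by omega) hx
  obtain ⟨g, hg⟩ := hs x hxW
  refine ⟨0, Submodule.zero_mem _, g, ⟨Subgroup.mem_top g, ?_⟩, ?_⟩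
  · show φ g - 1 ∈ W
    rw [hg, add_sub_cancel_left]
    exact hxW
  · rw [hg, add_zero, map_add, map_one]

theorem cov_step (φ : Γ →* A) (W : Submodule ℤ A) (hW : ⊤ * W ≤ W) (H K : Subgroup Γ)
    (hHK : H ≤ K) (hN : (H.subgroupOf K).Normal) (n : ℕ) (hK : Cov φ W hW K n) :
    Cov φ W hW H (n + 1) := by
  intro F hF B _ k f hf l m hm hk x hx
  set T : Submodule ℤ A := span ℤ ((fun g => φ g - 1) '' F) with hT
  have hFK : ∀ g ∈ F, g ∈ K ∧ φ g - 1 ∈ W ∧ g⁻¹ ∈ F :=
    fun g hg => ⟨hHK (hF g hg).1, (hF g hg).2.1, (hF g hg).2.2⟩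
  have hE : EE T l (m - (n + 1)) * EE T l (m - (n + 1)) ≤ ⊤ * T ^ k * ⊤ :=
    EE_mul T _ _ _ _ k (by omega)
  have hRE : EE T (l + 1) (m - (n + 1)) ≤ EE T l (m - (n + 1)) := EE_succ_le T _ _
  have key : EE T l m ≤ GG φ f (H ⊓ HL φ W hW) (EE T l (m - (n + 1)))
      (EE T (l + 1) (m - (n + 1))) (⊤ * T ^ k * ⊤) hf hRE hE := by
    obtain ⟨m', rfl⟩ : ∃ m', m = m' + 1 := ⟨m - 1, by omega⟩
    have em : m' + 1 - (n + 1) = m' - n := by omega
    rw [← EE_mul_T, Submodule.mul_le]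
    intro y hy t ht
    have h0 : T ≤ (GG φ f (H ⊓ HL φ W hW) (EE T l (m' + 1 - (n + 1)))
        (EE T (l + 1) (m' + 1 - (n + 1))) (⊤ * T ^ k * ⊤) hf hRE hE).comap
        (LinearMap.mulLeft ℤ y) := by
      refine span_le.mpr ?_
      rintro _ ⟨g, hg, rfl⟩
      rw [SetLike.mem_coe, Submodule.mem_comap]
      show y * (φ g - 1) ∈ _
      rw [mem_GG, em]
      obtain ⟨e, he, c, hc, h⟩ := hK F hFK B k f hf l m' (by omega) (by omega) y hy
      rw [← hT] at he
      have htT : φ g - 1 ∈ T := by rw [hT]; exact subset_span ⟨g, hg, rfl⟩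
      have htT' : φ g⁻¹ - 1 ∈ T := by rw [hT]; exact subset_span ⟨g⁻¹, (hF g hg).2.2, rfl⟩
      set t : A := φ g - 1 with ht
      have hu : y + e ∈ EE T l (m' - n) :=
        Submodule.add_mem _ (EE_anti' T l (by omega) hy) (EE_succ_le T _ _ he)
      set u : A := y + e with hudef
      have hut : u * t ∈ EE T l (m' - n + 1) := by
        rw [← EE_mul_T]; exact Submodule.mul_mem_mul hu htT
      have htu : t * u ∈ EE T (l + 1) (m' - n) := by
        rw [← T_mul_EE]; exact Submodule.mul_mem_mul htT hu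
      have hw : u * t - t * u ∈ EE T l (m' - n) :=
        Submodule.sub_mem _ (EE_succ_le' T _ _ hut) (EE_succ_le T _ _ htu)
      have hwu : f (u * t - t * u) * f u = 0 := by
        rw [← map_mul, hf, sub_mul]
        refine Submodule.sub_mem _ ?_ ?_
        · exact EE_mul T l (m' - n + 1) l (m' - n) k (by omega) (Submodule.mul_mem_mul hut hu)
        · exact EE_mul T (l + 1) (m' - n) l (m' - n) k (by omega) (Submodule.mul_mem_mul htu hu)
      have hyt : y * t ∈ EE T l (m' - n) := by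
        refine EE_anti' T l (show m' - n ≤ m' + 1 by omega) ?_
        rw [← EE_mul_T]; exact Submodule.mul_mem_mul hy htT
      refine ⟨hyt, e * t - t * u + (φ g⁻¹ - 1) * (u * t - t * u), ?_,
        g⁻¹ * (c * g * c⁻¹), ⟨?_, ?_⟩, ?_⟩
      · refine Submodule.add_mem _ (Submodule.sub_mem _ ?_ htu) ?_
        · refine EE_succ_le' T _ _ ?_
          rw [← EE_mul_T]; exact Submodule.mul_mem_mul he htT
        · rw [← T_mul_EE]; exact Submodule.mul_mem_mul htT' hw
      · refine H.mul_mem (H.inv_mem (hF g hg).1) ?_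
        have := hN.conj_mem ⟨g, hHK (hF g hg).1⟩ (hF g hg).1 ⟨c, hc.1⟩
        exact this
      · have hgL : g ∈ HL φ W hW := (hF g hg).2.1
        exact Subgroup.mul_mem _ (Subgroup.inv_mem _ hgL)
          (Subgroup.mul_mem _ (Subgroup.mul_mem _ hc.2 hgL) (Subgroup.inv_mem _ hc.2))
      · have e1 : y * t + (e * t - t * u + (φ g⁻¹ - 1) * (u * t - t * u))
            = φ g⁻¹ * (u * t - t * u) := by
          rw [hudef]; noncomm_ring
        have e2 : f (φ g) = 1 + f t := by rw [ht, map_sub, map_one]; abel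
        have e3 : f (φ c) * f (φ g) = f (φ g) * f (φ c) + f (u * t - t * u) := by
          rw [h, e2, map_sub f (u * t) (t * u), map_mul f u t, map_mul f t u]; noncomm_ring
        have e4 : f (φ c) * f (φ c⁻¹) = 1 := by
          rw [← map_mul, ← map_mul, mul_inv_cancel, map_one, map_one]
        have e5 : f (φ g⁻¹) * f (φ g) = 1 := by
          rw [← map_mul, ← map_mul, inv_mul_cancel, map_one, map_one]
        have e6 : f (u * t - t * u) * f (φ c⁻¹) = f (u * t - t * u) := by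
          have h1 : f (u * t - t * u) * f (φ c) = f (u * t - t * u) := by
            rw [h, mul_add, mul_one, hwu, add_zero]
          calc f (u * t - t * u) * f (φ c⁻¹)
              = f (u * t - t * u) * f (φ c) * f (φ c⁻¹) := by rw [h1]
            _ = f (u * t - t * u) := by rw [mul_assoc, e4, mul_one]
        rw [e1]
        calc f (φ (g⁻¹ * (c * g * c⁻¹)))
            = f (φ g⁻¹) * (f (φ c) * f (φ g) * f (φ c⁻¹)) := by
              simp only [map_mul]
          _ = f (φ g⁻¹) * (f (φ g) * (f (φ c) * f (φ c⁻¹)))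
              + f (φ g⁻¹) * (f (u * t - t * u) * f (φ c⁻¹)) := by
              rw [e3, add_mul, mul_add, mul_assoc (f (φ g))]
          _ = 1 + f (φ g⁻¹ * (u * t - t * u)) := by
              rw [e4, mul_one, e5, e6, map_mul f (φ g⁻¹)]
    exact h0 ht
  exact (key hx).2

theorem cov (φ : Γ →* A) (W : Submodule ℤ A) (hW : ⊤ * W ≤ W)
    (hs : ∀ x ∈ W, ∃ g, φ g = 1 + x) (P : Subgroup Γ) (hP : P.IsSubnormal) :
    ∃ n, Cov φ W hW P n := by
  induction hP with
  | top => exact ⟨0, cov_top φ W hW hs⟩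
  | step H K hHK _ hN ih =>
      obtain ⟨n, hn⟩ := ih
      exact ⟨n + 1, cov_step φ W hW H K hHK hN n hn⟩

end NIL

end Pool.Agent.Work.MP_3fbbd3_adj
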