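import Pool.Agent.Work.MP_3fbbd3_adj.Def4
import Pool.Agent.Work.MP_3fbbd3_adj.NIL2

/-!
# Block NILU: subnormal subgroups of unitary groups and nilpotent ideals
-/

namespace Pool.Agent.Work.MP_3fbbd3_adj

open Submodule

open scoped commutatorElement

universe u v

namespace NILU

open NIL

variable {A : Type u} [Ring A] {Γ : Type v} [Group Γ]

/-- `c` acts on `Z` modulo `J` as `1 + x` -/
def Rel (φ : Γ →* A) (Z J : Submodule ℤ A) (c : Γ) (x : A) : Prop :=
  ∀ z ∈ Z, φ c * z - (z + x * z) ∈ J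

theorem lmul {J : Submodule ℤ A} (hl : ⊤ * J ≤ J) (a : A) {x : A} (hx : x ∈ J) : a * x ∈ J :=
  hl (Submodule.mul_mem_mul Submodule.mem_top hx)

theorem rel_inv {φ : Γ →* A} {Z J : Submodule ℤ A} (hl : ⊤ * J ≤ J) {c : Γ} {x : A}
    (hxZ : ∀ z ∈ Z, x * z ∈ Z) (hxx : ∀ z ∈ Z, x * (x * z) ∈ J) (h : Rel φ Z J c x) :
    Rel φ Z J c⁻¹ (-x) := by
  intro z hz
  have h1 : z - x * z ∈ Z := Z.sub_mem hz (hxZ z hz)
  have h2 := lmul hl (φ c⁻¹) (h _ h1)
  have h3 := lmul hl (φ c⁻¹) (hxx z hz)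
  have e : φ c⁻¹ * z - (z + -x * z)
      = -(φ c⁻¹ * (φ c * (z - x * z) - ((z - x * z) + x * (z - x * z)))
        - φ c⁻¹ * (x * (x * z))) := by
    have e1 : φ c⁻¹ * (φ c * (z - x * z)) = z - x * z := by
      rw [← mul_assoc, ← map_mul, inv_mul_cancel, map_one, one_mul]
    have e2 : φ c⁻¹ * (φ c * (z - x * z) - ((z - x * z) + x * (z - x * z)))
        = φ c⁻¹ * (φ c * (z - x * z)) - φ c⁻¹ * ((z - x * z) + x * (z - x * z)) := mul_sub _ _ _
    rw [e2, e1]
    noncomm_ring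
  rw [e]
  exact J.neg_mem (J.sub_mem h2 h3)

theorem rel_mul {φ : Γ →* A} {Z J : Submodule ℤ A} (hl : ⊤ * J ≤ J) {c c' : Γ} {x x' : A}
    (hxZ : ∀ z ∈ Z, x' * z ∈ Z) (hxx : ∀ z ∈ Z, x * (x' * z) ∈ J) (h : Rel φ Z J c x)
    (h' : Rel φ Z J c' x') : Rel φ Z J (c * c') (x + x') := by
  intro z hz
  have h1 : z + x' * z ∈ Z := Z.add_mem hz (hxZ z hz)
  have h2 := lmul hl (φ c) (h' z hz)
  have h3 := h _ h1
  have h4 := hxx z hz
  have e : φ (c * c') * z - (z + (x + x') * z)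
      = φ c * (φ c' * z - (z + x' * z)) + (φ c * (z + x' * z) - ((z + x' * z) + x * (z + x' * z)))
        + x * (x' * z) := by
    rw [map_mul]
    noncomm_ring
  rw [e]
  exact J.add_mem (J.add_mem h2 h3) h4

theorem rel_comm {φ : Γ →* A} {Z J : Submodule ℤ A} (hl : ⊤ * J ≤ J) {g h : Γ} {a b : A}
    (haZ : ∀ z ∈ Z, a * z ∈ Z) (hbZ : ∀ z ∈ Z, b * z ∈ Z)
    (haa : ∀ z ∈ Z, a * (a * z) ∈ J) (hbb : ∀ z ∈ Z, b * (b * z) ∈ J)
    (hba : ∀ z ∈ Z, b * (a * z) ∈ J)
    (hg : Rel φ Z J g a) (hh : Rel φ Z J h b) : Rel φ Z J ⁅g, h⁆ (a * b) := by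
  have hg' := rel_inv hl haZ haa hg
  have hh' := rel_inv hl hbZ hbb hh
  intro z hz
  have z1 : z + -b * z ∈ Z := by
    rw [neg_mul, ← sub_eq_add_neg]; exact Z.sub_mem hz (hbZ z hz)
  have z2 : (z + -b * z) + -a * (z + -b * z) ∈ Z := by
    rw [neg_mul (a := a), ← sub_eq_add_neg]; exact Z.sub_mem z1 (haZ _ z1)
  have z3 : ((z + -b * z) + -a * (z + -b * z)) + b * ((z + -b * z) + -a * (z + -b * z)) ∈ Z :=
    Z.add_mem z2 (hbZ _ z2)
  have r1 := lmul hl (φ g * (φ h * φ g⁻¹)) (hh' z hz)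
  have r2 := lmul hl (φ g * φ h) (hg' _ z1)
  have r3 := lmul hl (φ g) (hh _ z2)
  have r4 := hg _ z3
  have s1 := haa z hz
  have s2 := haa _ (hbZ z hz)
  have s3 := hba z hz
  have s4 := hbb z hz
  have s5 := hba _ (hbZ z hz)
  have s6 := lmul hl a (hba z hz)
  have s7 := lmul hl a (hbb z hz)
  have s8 := lmul hl a (hba _ (hbZ z hz))
  have e : φ ⁅g, h⁆ * z - (z + a * b * z)
      = (φ g * (φ h * φ g⁻¹)) * (φ h⁻¹ * z - (z + -b * z))
        + (φ g * φ h) * (φ g⁻¹ * (z + -b * z) - ((z + -b * z) + -a * (z + -b * z)))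
        + φ g * (φ h * ((z + -b * z) + -a * (z + -b * z))
          - (((z + -b * z) + -a * (z + -b * z)) + b * ((z + -b * z) + -a * (z + -b * z))))
        + (φ g * (((z + -b * z) + -a * (z + -b * z)) + b * ((z + -b * z) + -a * (z + -b * z)))
          - ((((z + -b * z) + -a * (z + -b * z)) + b * ((z + -b * z) + -a * (z + -b * z)))
            + a * (((z + -b * z) + -a * (z + -b * z)) + b * ((z + -b * z) + -a * (z + -b * z)))))
        + (-(a * (a * z)) + a * (a * (b * z)) - b * (a * z) - b * (b * z) + b * (a * (b * z))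
          - a * (b * (a * z)) - a * (b * (b * z)) + a * (b * (a * (b * z)))) := by
    rw [commutatorElement_def, map_mul, map_mul, map_mul]
    noncomm_ring
  rw [e]
  refine J.add_mem (J.add_mem (J.add_mem (J.add_mem r1 r2) r3) r4) ?_
  exact J.add_mem (J.sub_mem (J.sub_mem (J.add_mem (J.sub_mem (J.sub_mem
    (J.add_mem (J.neg_mem s1) s2) s3) s4) s5) s6) s7) s8

/-- the elements of `E` which are, up to `R`, realised by elements of `Q` -/
def GU (φ : Γ →* A) (Q : Subgroup Γ) (E R Z J : Submodule ℤ A) (hl : ⊤ * J ≤ J)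
    (hRE : R ≤ E) (hEZ : E * Z ≤ Z) (hE : E * (E * Z) ≤ J) : Submodule ℤ A :=
  AddSubgroup.toIntSubmodule
    { carrier := {x | x ∈ E ∧ ∃ e ∈ R, ∃ c ∈ Q, Rel φ Z J c (x + e)}
      zero_mem' := ⟨E.zero_mem, 0, R.zero_mem, 1, Q.one_mem, by
        intro z _
        simp⟩
      add_mem' := by
        rintro x y ⟨hx, e, he, c, hc, h⟩ ⟨hy, e', he', c', hc', h'⟩
        refine ⟨E.add_mem hx hy, e + e', R.add_mem he he', c * c', Q.mul_mem hc hc', ?_⟩
        have h1 : x + y + (e + e') = (x + e) + (y + e') := by abel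
        rw [h1]
        have hxe := E.add_mem hx (hRE he)
        have hye := E.add_mem hy (hRE he')
        exact rel_mul hl (fun z hz => hEZ (Submodule.mul_mem_mul hye hz))
          (fun z hz => hE (Submodule.mul_mem_mul hxe (Submodule.mul_mem_mul hye hz))) h h'
      neg_mem' := by
        rintro x ⟨hx, e, he, c, hc, h⟩
        refine ⟨E.neg_mem hx, -e, R.neg_mem he, c⁻¹, Q.inv_mem hc, ?_⟩
        have h1 : -x + -e = -(x + e) := by abel
        rw [h1]
        have hxe := E.add_mem hx (hRE he)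
        exact rel_inv hl (fun z hz => hEZ (Submodule.mul_mem_mul hxe hz))
          (fun z hz => hE (Submodule.mul_mem_mul hxe (Submodule.mul_mem_mul hxe hz))) h }

theorem X_pres (D : ℕ → Submodule ℤ A) (Z : Submodule ℤ A) (hD : ∀ i, D i * Z ≤ Z) :
    ∀ j s, X D s j * Z ≤ Z := by
  intro j
  induction j with
  | zero => intro s; exact hD s
  | succ j ih =>
      intro s
      calc X D s (j + 1) * Z = X D s j * (X D (s + 2 ^ j) j * Z) := by
            show X D s j * X D (s + 2 ^ j) j * Z = _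
            rw [mul_assoc]
        _ ≤ X D s j * Z := mul_le_mul' le_rfl (ih _)
        _ ≤ Z := ih s

theorem exists_mem_derivedU (ψ : Γ →* A) (Z J : Submodule ℤ A)
    (hl : ⊤ * J ≤ J) (hr : J * ⊤ ≤ J) (P : ℕ → Submodule ℤ A)
    (hPZ : ∀ i, P i * Z ≤ Z) (hP : ∀ i j, j ≤ i → P i * P j ≤ J)
    (hg : ∀ i, ∀ x ∈ P i, ∃ g, Rel ψ Z J g x) :
    ∀ j s, ∀ z ∈ X P s j, ∃ g ∈ derivedSeries Γ j, Rel ψ Z J g z := by
  intro j
  induction j with
  | zero =>
      intro s z hz
      obtain ⟨g, hg⟩ := hg s z hz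
      exact ⟨g, by simp, hg⟩
  | succ j ih =>
      intro s z hz
      have hpos : 1 ≤ 2 ^ j := Nat.one_le_two_pow
      have hXX : X P s (j + 1) * X P s (j + 1) ≤ J :=
        X_mul_le P J hl hr hP (j + 1) s s (by
          have : 1 ≤ 2 ^ (j + 1) := Nat.one_le_two_pow
          omega)
      have hJ : ∀ {a b : A} (z : A), a * b ∈ J → a * (b * z) ∈ J := by
        intro a b z hab
        rw [← mul_assoc]
        exact hr (Submodule.mul_mem_mul hab Submodule.mem_top)
      have hz' : z ∈ X P s j * X P (s + 2 ^ j) j := hz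
      have key : z ∈ X P s (j + 1) ∧ ∃ g ∈ derivedSeries Γ (j + 1), Rel ψ Z J g z := by
        refine Submodule.mul_induction_on hz' ?_ ?_
        · intro a ha b hb
          refine ⟨Submodule.mul_mem_mul ha hb, ?_⟩
          obtain ⟨g, hgd, hg1⟩ := ih s a ha
          obtain ⟨h, hhd, hh1⟩ := ih (s + 2 ^ j) b hb
          refine ⟨⁅g, h⁆, ?_, ?_⟩
          · rw [derivedSeries_succ]
            exact Subgroup.commutator_mem_commutator hgd hhd
          · refine rel_comm hl (fun z hz => X_pres P Z hPZ j s (Submodule.mul_mem_mul ha hz))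
              (fun z hz => X_pres P Z hPZ j (s + 2 ^ j) (Submodule.mul_mem_mul hb hz))
              (fun z _ => hJ z ?_) (fun z _ => hJ z ?_) (fun z _ => hJ z ?_) hg1 hh1
            · exact X_mul_le P J hl hr hP j s s (by omega) (Submodule.mul_mem_mul ha ha)
            · exact X_mul_le P J hl hr hP j (s + 2 ^ j) (s + 2 ^ j) (by omega)
                (Submodule.mul_mem_mul hb hb)
            · exact X_mul_le P J hl hr hP j s (s + 2 ^ j) (by omega)
                (Submodule.mul_mem_mul hb ha)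
        · rintro x y ⟨hx, g, hgd, hg1⟩ ⟨hy, h, hhd, hh1⟩
          refine ⟨Submodule.add_mem _ hx hy, g * h, Subgroup.mul_mem _ hgd hhd, ?_⟩
          exact rel_mul hl (fun z hz => X_pres P Z hPZ (j + 1) s (Submodule.mul_mem_mul hy hz))
            (fun z _ => hJ z (hXX (Submodule.mul_mem_mul hx hy))) hg1 hh1
      exact key.2

end NILU

end Pool.Agent.Work.MP_3fbbd3_adj
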