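import Pool.Agent.Work.MP_3fbbd3_adj.NILU

/-!
# Block NILU, second part: the covering
-/

namespace Pool.Agent.Work.MP_3fbbd3_adj

open Submodule

open scoped commutatorElement

universe u v

namespace NILU

open NIL

variable {A : Type u} [Ring A] {Γ : Type v} [Group Γ]

section star

variable [StarRing A]

/-- the elements whose adjoint is in `I` -/
def st (I : Submodule ℤ A) : Submodule ℤ A :=
  AddSubgroup.toIntSubmodule
    { carrier := {x | star x ∈ I}
      zero_mem' := by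
        show star (0 : A) ∈ I
        rw [star_zero]; exact I.zero_mem
      add_mem' := by
        intro a b ha hb
        show star (a + b) ∈ I
        rw [star_add]; exact I.add_mem ha hb
      neg_mem' := by
        intro a ha
        show star (-a) ∈ I
        rw [star_neg]; exact I.neg_mem ha }

theorem mem_st (I : Submodule ℤ A) (x : A) : x ∈ st I ↔ star x ∈ I := Iff.rfl

theorem st_mul {I I' K K' : Submodule ℤ A} (h : I ≤ st I') (h' : K ≤ st K') :
    I * K ≤ st (K' * I') := by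
  rw [Submodule.mul_le]
  intro a ha b hb
  rw [mem_st, star_mul]
  exact Submodule.mul_mem_mul (h' hb) (h ha)

theorem st_pow {T : Submodule ℤ A} (h : T ≤ st T) (l : ℕ) : T ^ l ≤ st (T ^ l) := by
  induction l with
  | zero =>
      rw [pow_zero, Submodule.one_le, mem_st, star_one]
      exact Submodule.one_le.mp le_rfl
  | succ l ih =>
      conv_rhs => rw [pow_succ']
      rw [pow_succ]
      exact st_mul ih h

theorem st_EE {T : Submodule ℤ A} (h : T ≤ st T) (l m : ℕ) : EE T l m ≤ st (EE T m l) := by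
  have h1 : EE T m l = T ^ m * (⊤ * T ^ l) := mul_assoc _ _ _
  rw [h1]
  have h2 : (⊤ : Submodule ℤ A) ≤ st ⊤ := fun x _ => Submodule.mem_top
  exact st_mul (st_mul (st_pow h l) h2) (st_pow h m)

end star

theorem EE_mul_Z (T : Submodule ℤ A) (l m s : ℕ) (h : s ≤ l) : EE T l m * (T ^ s * ⊤) ≤ T ^ s * ⊤ := by
  have e : T ^ l = T ^ s * T ^ (l - s) := by rw [← pow_add]; congr 1; omega
  calc EE T l m * (T ^ s * ⊤) = T ^ s * (T ^ (l - s) * ⊤ * T ^ m * (T ^ s * ⊤)) := by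
        rw [EE, e]; simp only [mul_assoc]
    _ ≤ T ^ s * ⊤ := mul_le_mul' le_rfl le_top

theorem EE_mul_Z' (T : Submodule ℤ A) (l m s k : ℕ) (h : k ≤ m + s) :
    EE T l m * (T ^ s * ⊤) ≤ ⊤ * T ^ k * ⊤ := by
  have := EE_mul T l m s 0 k h
  rw [EE, EE, pow_zero, mul_one] at this
  exact this

theorem T_mul_Z (T : Submodule ℤ A) (s : ℕ) : T * (T ^ s * ⊤) ≤ T ^ s * ⊤ := by
  calc T * (T ^ s * ⊤) = T ^ s * (T * ⊤) := by
        rw [← mul_assoc, ← pow_succ', pow_succ, mul_assoc]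
    _ ≤ T ^ s * ⊤ := mul_le_mul' le_rfl le_top

theorem EE_EE_Z (T : Submodule ℤ A) (l m s k : ℕ) (h : k ≤ m + l) :
    EE T l m * (EE T l m * (T ^ s * ⊤)) ≤ ⊤ * T ^ k * ⊤ := by
  rw [← mul_assoc]
  calc EE T l m * EE T l m * (T ^ s * ⊤) ≤ ⊤ * T ^ k * ⊤ * ⊤ :=
        mul_le_mul' (EE_mul T _ _ _ _ k h) le_top
    _ = ⊤ * T ^ k * ⊤ := by rw [mul_assoc, top_mul_top]

/-- the covering property -/
def CovU (φ : Γ →* A) (W : Submodule ℤ A) (hW : ⊤ * W ≤ W) (Q : Subgroup Γ) (n : ℕ) : Prop :=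
  ∀ F : Set Γ, (∀ g ∈ F, g ∈ Q ∧ φ g - 1 ∈ W ∧ g⁻¹ ∈ F) →
  ∀ k s l m : ℕ, n + 1 ≤ m → k + n ≤ l + m → s ≤ l → k ≤ l + s → 1 ≤ l →
    ∀ x ∈ EE (span ℤ ((fun g => φ g - 1) '' F)) l m,
      ∃ e ∈ EE (span ℤ ((fun g => φ g - 1) '' F)) (l + 1) (m - n), ∃ c ∈ Q ⊓ HL φ W hW,
        Rel φ ((span ℤ ((fun g => φ g - 1) '' F)) ^ s * ⊤)
          (⊤ * (span ℤ ((fun g => φ g - 1) '' F)) ^ k * ⊤) c (x + e)

theorem half {p : ℕ} (hp : p.Prime) (hp2 : p ≠ 2) (I : Submodule ℤ A) {x : A} (hx : x ∈ I)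
    (ht : ∃ n : ℕ, p ^ n • x = 0) : ∃ y ∈ I, x = y + y := by
  obtain ⟨n, hn⟩ := ht
  have hodd : Odd (p ^ n) := (hp.odd_of_ne_two hp2).pow
  obtain ⟨r, hr⟩ := hodd
  refine ⟨(r + 1) • x, I.smul_of_tower_mem (r + 1) hx, ?_⟩
  have h1 : (r + 1) • x + (r + 1) • x = (p ^ n + 1) • x := by
    rw [← add_smul]; congr 1; omega
  rw [h1, add_smul, hn, one_smul, zero_add]

theorem cov_topU [StarRing A] {p : ℕ} (hp : p.Prime) (hp2 : p ≠ 2) (φ : Γ →* A)
    (hst : ∀ g, star (φ g) = φ g⁻¹) (W : Submodule ℤ A)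
    (hW : ⊤ * W ≤ W) (ht : ∀ x ∈ W, ∃ n : ℕ, p ^ n • x = 0)
    (hs : ∀ y ∈ W, star y = -y → ∃ g, φ g * (1 - y) = 1 + y) : CovU φ W hW ⊤ 0 := by
  intro F hF k s l m hm hk hsl hks hl1 x hx
  set T : Submodule ℤ A := span ℤ ((fun g => φ g - 1) '' F) with hT
  have hTW : T ≤ W := by
    rw [hT, span_le]
    rintro _ ⟨g, hg, rfl⟩
    exact (hF g hg).2.1
  have hTs : T ≤ st T := by
    conv_lhs => rw [hT]
    rw [span_le]
    rintro _ ⟨g, hg, rfl⟩
    rw [SetLike.mem_coe, mem_st]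
    show star (φ g - 1) ∈ T
    rw [star_sub, star_one, hst, hT]
    exact subset_span ⟨g⁻¹, (hF g hg).2.2, rfl⟩
  set J : Submodule ℤ A := ⊤ * T ^ k * ⊤ with hJ
  have hl : ⊤ * J ≤ J := by
    rw [hJ, ← mul_assoc, ← mul_assoc, top_mul_top]
  have hxW : x ∈ W := EE_le_of T W hW hTW l m (by omega) hx
  obtain ⟨a, ha, hxa⟩ := half hp hp2 (EE T l m) hx (ht x hxW)
  have haW : a ∈ W := EE_le_of T W hW hTW l m (by omega) ha
  have hsa : star a ∈ EE T m l := st_EE hTs l m ha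
  have hsaW : star a ∈ W := EE_le_of T W hW hTW m l hl1 hsa
  obtain ⟨g, hg⟩ := hs (a - star a) (W.sub_mem haW hsaW) (by rw [star_sub, star_star]; abel)
  refine ⟨0, Submodule.zero_mem _, g, ⟨Subgroup.mem_top g, ?_⟩, ?_⟩
  · show φ g - 1 ∈ W
    have e : φ g - 1 = φ g * (a - star a) + (a - star a) := by
      rw [mul_sub, mul_one, sub_eq_iff_eq_add] at hg
      conv_lhs => rw [hg]
      abel
    rw [e]
    exact W.add_mem (hW (Submodule.mul_mem_mul Submodule.mem_top (W.sub_mem haW hsaW)))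
      (W.sub_mem haW hsaW)
  · intro z hz
    have h1 : star a * z ∈ J := EE_mul_Z' T m l s k (by omega) (Submodule.mul_mem_mul hsa hz)
    have h2 : a * (a * z) ∈ J :=
      EE_EE_Z T l m s k (by omega) (Submodule.mul_mem_mul ha (Submodule.mul_mem_mul ha hz))
    have h3 : star a * (a * z) ∈ J := by
      rw [← mul_assoc]
      have h4 : star a * a ∈ J := EE_mul T m l l m k (by omega) (Submodule.mul_mem_mul hsa ha)
      have hr : J * ⊤ ≤ J := by rw [hJ, mul_assoc, top_mul_top]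
      exact hr (Submodule.mul_mem_mul h4 Submodule.mem_top)
    have e : φ g * z - (z + (x + 0) * z)
        = φ g * (-(star a * z) + a * (a * z) - star a * (a * z))
          + (-(star a * z) + a * (a * z) - star a * (a * z)) := by
      have e1 : φ g * ((1 - (a - star a)) * (z + a * z))
          = (1 + (a - star a)) * (z + a * z) := by rw [← mul_assoc, hg]
      have e2 : z = (1 - (a - star a)) * (z + a * z)
          + (-(star a * z) + a * (a * z) - star a * (a * z)) := by noncomm_ring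
      have e3 : φ g * z = (1 + (a - star a)) * (z + a * z)
          + φ g * (-(star a * z) + a * (a * z) - star a * (a * z)) := by
        conv_lhs => rw [e2]
        rw [mul_add, e1]
      rw [e3, hxa]
      noncomm_ring
    have h5 : -(star a * z) + a * (a * z) - star a * (a * z) ∈ J :=
      J.sub_mem (J.add_mem (J.neg_mem h1) h2) h3
    rw [e]
    exact J.add_mem (lmul hl _ h5) h5

end NILU

end Pool.Agent.Work.MP_3fbbd3_adj
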