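import Pool.Agent.Work.MP_3fbbd3_adj.NILU2

/-!
# Block NILU, third part: the covering for subnormal subgroups
-/

namespace Pool.Agent.Work.MP_3fbbd3_adj

open Submodule

open scoped commutatorElement

universe u v

namespace NILU

open NIL

variable {A : Type u} [Ring A] {Γ : Type v} [Group Γ]

theorem cov_stepU (φ : Γ →* A) (W : Submodule ℤ A) (hW : ⊤ * W ≤ W) (H K : Subgroup Γ)
    (hHK : H ≤ K) (hN : (H.subgroupOf K).Normal) (n : ℕ) (hK : CovU φ W hW K n) :
    CovU φ W hW H (n + 1) := by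
  intro F hF k s l m hm hk hsl hks hl1 x hx
  set T : Submodule ℤ A := span ℤ ((fun g => φ g - 1) '' F) with hT
  have hFK : ∀ g ∈ F, g ∈ K ∧ φ g - 1 ∈ W ∧ g⁻¹ ∈ F :=
    fun g hg => ⟨hHK (hF g hg).1, (hF g hg).2.1, (hF g hg).2.2⟩
  have hlJ : ⊤ * (⊤ * T ^ k * ⊤) ≤ ⊤ * T ^ k * ⊤ := by
    rw [← mul_assoc, ← mul_assoc, top_mul_top]
  have hrJ : (⊤ * T ^ k * ⊤) * ⊤ ≤ ⊤ * T ^ k * ⊤ := by
    rw [mul_assoc, top_mul_top]
  have hEZ : EE T l (m - (n + 1)) * (T ^ s * ⊤) ≤ T ^ s * ⊤ := EE_mul_Z T l _ s hsl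
  have hE : EE T l (m - (n + 1)) * (EE T l (m - (n + 1)) * (T ^ s * ⊤)) ≤ ⊤ * T ^ k * ⊤ :=
    EE_EE_Z T l _ s k (by omega)
  have hRE : EE T (l + 1) (m - (n + 1)) ≤ EE T l (m - (n + 1)) := EE_succ_le T _ _
  have key : EE T l m ≤ GU φ (H ⊓ HL φ W hW) (EE T l (m - (n + 1)))
      (EE T (l + 1) (m - (n + 1))) (T ^ s * ⊤) (⊤ * T ^ k * ⊤) hlJ hRE hEZ hE := by
    obtain ⟨m', rfl⟩ : ∃ m', m = m' + 1 := ⟨m - 1, by omega⟩
    have em : m' + 1 - (n + 1) = m' - n := by omega
    rw [← EE_mul_T, Submodule.mul_le]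
    intro y hy t ht
    have h0 : T ≤ (GU φ (H ⊓ HL φ W hW) (EE T l (m' + 1 - (n + 1)))
        (EE T (l + 1) (m' + 1 - (n + 1))) (T ^ s * ⊤) (⊤ * T ^ k * ⊤) hlJ hRE hEZ hE).comap
        (LinearMap.mulLeft ℤ y) := by
      refine span_le.mpr ?_
      rintro _ ⟨g, hg, rfl⟩
      rw [SetLike.mem_coe, Submodule.mem_comap]
      show y * (φ g - 1) ∈ _
      obtain ⟨e, he, c, hc, h⟩ := hK F hFK k s l m' (by omega) (by omega) hsl hks hl1 y hy
      rw [← hT] at he h
      have htT : φ g - 1 ∈ T := by rw [hT]; exact subset_span ⟨g, hg, rfl⟩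
      have htT' : φ g⁻¹ - 1 ∈ T := by rw [hT]; exact subset_span ⟨g⁻¹, (hF g hg).2.2, rfl⟩
      have e2 : φ g = 1 + (φ g - 1) := by abel
      have e2' : φ g⁻¹ = 1 + (φ g⁻¹ - 1) := by abel
      have e5 : φ g⁻¹ * φ g = 1 := by
        rw [← map_mul, inv_mul_cancel, map_one]
      generalize φ g - 1 = t at htT e2
      generalize φ g⁻¹ - 1 = t' at htT' e2'
      have hu : y + e ∈ EE T l (m' - n) :=
        Submodule.add_mem _ (EE_anti' T l (by omega) hy) (EE_succ_le T _ _ he)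
      obtain ⟨u, hudef⟩ : ∃ u, u = y + e := ⟨_, rfl⟩
      rw [← hudef] at hu h
      have hut : u * t ∈ EE T l (m' - n + 1) := by
        rw [← EE_mul_T]; exact Submodule.mul_mem_mul hu htT
      have htu : t * u ∈ EE T (l + 1) (m' - n) := by
        rw [← T_mul_EE]; exact Submodule.mul_mem_mul htT hu
      have hw : u * t - t * u ∈ EE T l (m' - n) :=
        Submodule.sub_mem _ (EE_succ_le' T _ _ hut) (EE_succ_le T _ _ htu)
      have hyt : y * t ∈ EE T l (m' - n) := by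
        refine EE_anti' T l (show m' - n ≤ m' + 1 by omega) ?_
        rw [← EE_mul_T]; exact Submodule.mul_mem_mul hy htT
      have huZ : ∀ z ∈ T ^ s * ⊤, u * z ∈ T ^ s * ⊤ := fun z hz =>
        EE_mul_Z T l _ s hsl (Submodule.mul_mem_mul hu hz)
      have htZ : ∀ z ∈ T ^ s * ⊤, t * z ∈ T ^ s * ⊤ := fun z hz =>
        T_mul_Z T s (Submodule.mul_mem_mul htT hz)
      have huu : ∀ z ∈ T ^ s * ⊤, u * (u * z) ∈ ⊤ * T ^ k * ⊤ := fun z hz =>
        EE_EE_Z T l (m' - n) s k (by omega)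
          (Submodule.mul_mem_mul hu (Submodule.mul_mem_mul hu hz))
      have hutu : ∀ z ∈ T ^ s * ⊤, u * (t * (u * z)) ∈ ⊤ * T ^ k * ⊤ := by
        intro z hz
        have h1 : u * t * u ∈ ⊤ * T ^ k * ⊤ :=
          EE_mul T l (m' - n + 1) l (m' - n) k (by omega) (Submodule.mul_mem_mul hut hu)
        have e : u * (t * (u * z)) = u * t * u * z := by simp only [mul_assoc]
        rw [e]
        exact hrJ (Submodule.mul_mem_mul h1 Submodule.mem_top)
      have hinv := rel_inv hlJ huZ huu h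
      refine ⟨by rw [em]; exact hyt, e * t - t * u + t' * (u * t - t * u), ?_,
        g⁻¹ * (c * g * c⁻¹), ⟨?_, ?_⟩, ?_⟩
      · rw [em]
        refine Submodule.add_mem _ (Submodule.sub_mem _ ?_ htu) ?_
        · refine EE_succ_le' T _ _ ?_
          rw [← EE_mul_T]; exact Submodule.mul_mem_mul he htT
        · rw [← T_mul_EE]; exact Submodule.mul_mem_mul htT' hw
      · refine H.mul_mem (H.inv_mem (hF g hg).1) ?_
        have := hN.conj_mem ⟨g, hHK (hF g hg).1⟩ (hF g hg).1 ⟨c, hc.1⟩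
        exact this
      · have hgL : g ∈ HL φ W hW := (hF g hg).2.1
        exact Subgroup.mul_mem _ (Subgroup.inv_mem _ hgL)
          (Subgroup.mul_mem _ (Subgroup.mul_mem _ hc.2 hgL) (Subgroup.inv_mem _ hc.2))
      · intro z hz
        have z1 : z + -u * z ∈ T ^ s * ⊤ := by
          rw [neg_mul, ← sub_eq_add_neg]; exact Submodule.sub_mem _ hz (huZ z hz)
        have z2 : (z + -u * z) + t * (z + -u * z) ∈ T ^ s * ⊤ :=
          Submodule.add_mem _ z1 (htZ _ z1)
        have r1 := lmul hlJ (φ g⁻¹ * (φ c * φ g)) (hinv z hz)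
        have r2 := lmul hlJ (φ g⁻¹) (h _ z2)
        have r3 := lmul hlJ (φ g⁻¹) (huu z hz)
        have r4 := lmul hlJ (φ g⁻¹) (hutu z hz)
        have e1 : φ (g⁻¹ * (c * g * c⁻¹)) * z
            - (z + (y * t + (e * t - t * u + t' * (u * t - t * u))) * z)
            = (φ g⁻¹ * (φ c * φ g)) * (φ c⁻¹ * z - (z + -u * z))
              + φ g⁻¹ * (φ c * ((z + -u * z) + t * (z + -u * z))
                - (((z + -u * z) + t * (z + -u * z)) + u * ((z + -u * z) + t * (z + -u * z))))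
              - φ g⁻¹ * (u * (u * z)) - φ g⁻¹ * (u * (t * (u * z))) := by
          have e6 : y = u - e := by rw [hudef]; abel
          have e7 : z = φ g⁻¹ * φ g * z := by rw [e5, one_mul]
          have e8 : φ (g⁻¹ * (c * g * c⁻¹)) = φ g⁻¹ * (φ c * φ g * φ c⁻¹) := by
            simp only [map_mul]
          have e9 : (1 + t') * (1 + t) = 1 := by rw [← e2, ← e2', e5]
          have e10 : t' * t = -t' - t := by
            have : (1 + t') * (1 + t) = 1 + t' + t + t' * t := by noncomm_ring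
            rw [this] at e9
            have h9 : t' * t = (1 + t' + t + t' * t) - (1 + t' + t) := by abel
            rw [h9, e9]; abel
          rw [e8, e6, e2, e2']
          generalize φ c = x1
          generalize φ c⁻¹ = x2
          have e11 : ∀ w : A, t' * (t * w) = -(t' * w) - t * w := by
            intro w
            rw [← mul_assoc, e10]; noncomm_ring
          simp only [mul_add, add_mul, mul_sub, sub_mul, one_mul, mul_one, neg_mul, mul_neg,
            mul_assoc, e11]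
          abel
        rw [e1]
        exact Submodule.sub_mem _ (Submodule.sub_mem _ (Submodule.add_mem _ r1 r2) r3) r4
    exact h0 ht
  exact (key hx).2

theorem covU [StarRing A] {p : ℕ} (hp : p.Prime) (hp2 : p ≠ 2) (φ : Γ →* A)
    (hst : ∀ g, star (φ g) = φ g⁻¹) (W : Submodule ℤ A)
    (hW : ⊤ * W ≤ W) (ht : ∀ x ∈ W, ∃ n : ℕ, p ^ n • x = 0)
    (hs : ∀ y ∈ W, star y = -y → ∃ g, φ g * (1 - y) = 1 + y) (P : Subgroup Γ)
    (hP : P.IsSubnormal) : ∃ n, CovU φ W hW P n := by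
  induction hP with
  | top => exact ⟨0, cov_topU hp hp2 φ hst W hW ht hs⟩
  | step H K hHK _ hN ih =>
      obtain ⟨n, hn⟩ := ih
      exact ⟨n + 1, cov_stepU φ W hW H K hHK hN n hn⟩

end NILU

end Pool.Agent.Work.MP_3fbbd3_adj
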