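import Pool.Agent.Work.MP_3fbbd3_adj.Def4
import Pool.Agent.Work.MP_3fbbd3_adj.SNV

/-!
# Subnormal subgroups of unitary groups: the final plug-in and arbitrary universes
-/

namespace Pool.Agent.Work.MP_3fbbd3_adj

universe u v

theorem blk_UNT (hMSU : S_MSU.{u}) (hREDU : S_REDU.{u}) : S_UNT.{u} := by
  intro p hp hp2 G _ hG hperf hlf A _ _ φ hne hsn htor
  obtain ⟨B, _, _, M, Γ, _, χ, P, π, hAdj, hBM, hst, hPU, hP, hP0, hπ⟩ :=
    hREDU p hp G hG hlf A φ hne hsn htor
  exact SNV.pull π hπ (hMSU p hp hp2 B Γ M χ hAdj hBM hst P hPU hP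
    (SNV.perfect_of_surj π hπ hperf) hP0)

/-- the theorem for a ring in an arbitrary universe -/
theorem unv (hUNT : S_UNT.{max u v}) (p : ℕ) (hp : p.Prime) (hp2 : p ≠ 2) (G : Type u) [Group G]
    (hG : IsPGroup p G) (hperf : commutator G = ⊤)
    (hlf : ∀ s : Set G, s.Finite → ((Subgroup.closure s : Subgroup G) : Set G).Finite)
    (A : Type v) [Ring A] [StarRing A] (φ : G →* unitary A) (hφ : ∃ g, φ g ≠ 1)
    (hS : φ.range.IsSubnormal)
    (htor : ∀ g, ∃ n : ℕ, p ^ n • (((φ g : unitary A) : A) - 1) = 0) :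
    ∃ H : Subgroup G, H ≠ ⊤ ∧ ¬ Group.IsSolvable H := by
  let e : ULift.{v} G ≃* G := MulEquiv.ulift
  let f : ULift.{u} A ≃+* A := ULift.ringEquiv
  let _ : StarRing (ULift.{u} A) :=
    { star := fun x => f.symm (star (f x))
      star_involutive := by
        intro x
        show f.symm (star (f (f.symm (star (f x))))) = x
        rw [f.apply_symm_apply, star_star, f.symm_apply_apply]
      star_mul := by
        intro x y
        show f.symm (star (f (x * y))) = f.symm (star (f y)) * f.symm (star (f x))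
        rw [map_mul, star_mul, map_mul]
      star_add := by
        intro x y
        show f.symm (star (f (x + y))) = f.symm (star (f x)) + f.symm (star (f y))
        rw [map_add, star_add, map_add] }
  have hstar : ∀ x : ULift.{u} A, f (star x) = star (f x) := fun x => f.apply_symm_apply _
  have hmem : ∀ x : ULift.{u} A, x ∈ unitary (ULift.{u} A) ↔ f x ∈ unitary A := by
    intro x
    rw [Unitary.mem_iff, Unitary.mem_iff, ← hstar, ← map_mul, ← map_mul]
    constructor
    · rintro ⟨h1, h2⟩
      rw [h1, h2, map_one]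
      exact ⟨rfl, rfl⟩
    · rintro ⟨h1, h2⟩
      exact ⟨f.injective (by rw [h1, map_one]), f.injective (by rw [h2, map_one])⟩
  let fu : unitary (ULift.{u} A) →* unitary A :=
    { toFun := fun x => ⟨f x.1, (hmem x.1).1 x.2⟩
      map_one' := by apply Subtype.ext; exact map_one f
      map_mul' := by intro x y; apply Subtype.ext; exact map_mul f x.1 y.1 }
  have hfu : ∀ x, ((fu x : unitary A) : A) = f x.1 := fun x => rfl
  let fi : unitary A →* unitary (ULift.{u} A) :=
    { toFun := fun x => ⟨f.symm x.1, (hmem _).2 (by rw [f.apply_symm_apply]; exact x.2)⟩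
      map_one' := by apply Subtype.ext; exact map_one f.symm
      map_mul' := by intro x y; apply Subtype.ext; exact map_mul f.symm x.1 y.1 }
  have hfi : ∀ x, fu (fi x) = x := by
    intro x
    apply Subtype.ext
    exact f.apply_symm_apply x.1
  have hif : ∀ x, fi (fu x) = x := by
    intro x
    apply Subtype.ext
    exact f.symm_apply_apply x.1
  let φ' : ULift.{v} G →* unitary (ULift.{u} A) := fi.comp (φ.comp (e : ULift.{v} G →* G))
  have hφ' : ∀ g, fu (φ' g) = φ (e g) := fun g => hfi _
  have hrange : φ'.range = φ.range.comap fu := by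
    ext x
    rw [Subgroup.mem_comap]
    constructor
    · rintro ⟨g, rfl⟩
      exact ⟨e g, (hφ' g).symm⟩
    · rintro ⟨g, hg⟩
      refine ⟨e.symm g, ?_⟩
      rw [← hif (φ' (e.symm g)), hφ', e.apply_symm_apply, hg, hif]
  apply SNV.pull (e.symm : G →* ULift.{v} G) e.symm.surjective
  refine hUNT p hp hp2 (ULift.{v} G) (hG.of_equiv e.symm)
    (SNV.perfect_of_surj (e.symm : G →* ULift.{v} G) e.symm.surjective hperf) ?_
    (ULift.{u} A) φ' ?_ ?_ ?_
  · intro s hs
    have h1 := hlf (e '' s) (hs.image _)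
    have h2 : (Subgroup.closure s).map (e : ULift.{v} G →* G) = Subgroup.closure (e '' s) := by
      rw [MonoidHom.map_closure]
      rfl
    have h3 : ((Subgroup.closure s : Subgroup (ULift.{v} G)) : Set (ULift.{v} G)) ⊆
        e ⁻¹' ((Subgroup.closure (e '' s) : Subgroup G) : Set G) := by
      intro x hx
      show e x ∈ Subgroup.closure (e '' s)
      rw [← h2]
      exact ⟨x, hx, rfl⟩
    exact (h1.preimage e.injective.injOn).subset h3
  · obtain ⟨g, hg⟩ := hφ
    refine ⟨e.symm g, fun h => hg ?_⟩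
    have h1 := hφ' (e.symm g)
    rw [h, map_one, e.apply_symm_apply] at h1
    exact h1.symm
  · rw [hrange]
    exact SNV.comap_subnormal _ hS
  · intro g
    obtain ⟨n, hn⟩ := htor (e g)
    refine ⟨n, f.injective ?_⟩
    rw [map_nsmul, map_sub, map_one, map_zero, ← hfu, hφ', hn]

end Pool.Agent.Work.MP_3fbbd3_adj
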