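import Pool.Agent.Work.MP_3fbbd3_adj.Main
import Pool.Agent.Work.MP_3fbbd3_adj.AS
import Pool.Agent.Work.MP_3fbbd3_adj.RP
import Pool.Agent.Work.MP_3fbbd3_adj.GT
import Pool.Agent.Work.MP_3fbbd3_adj.NP
import Pool.Agent.Work.MP_3fbbd3_adj.PG

/-!
# Perfect locally finite `p`-groups with a quotient which is closed under unipotent elements
-/

namespace Pool.Agent.Work.MP_3fbbd3_adj

open Submodule

universe u v

/-- a proper subgroup which is not solvable can be pulled back along an epimorphism -/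
theorem pull {G : Type u} [Group G] {K : Type v} [Group K] (π : G →* K)
    (hπ : Function.Surjective π) (h : ∃ H : Subgroup K, H ≠ ⊤ ∧ ¬ Group.IsSolvable H) :
    ∃ H : Subgroup G, H ≠ ⊤ ∧ ¬ Group.IsSolvable H := by
  obtain ⟨H, hH, hHs⟩ := h
  refine ⟨H.comap π, ?_, ?_⟩
  · intro h
    apply hH
    rw [← Subgroup.map_comap_eq_self_of_surjective hπ H, h, ← MonoidHom.range_eq_map,
      MonoidHom.range_eq_top.mpr hπ]
  · intro h
    apply hHs
    have := h
    exact Group.isSolvable_of_surjective (f := π.subgroupComap H)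
      (π.subgroupComap_surjective_of_surjective H hπ)

theorem perfect_of_surj {G : Type u} [Group G] {K : Type v} [Group K] (π : G →* K)
    (hπ : Function.Surjective π) (h : commutator G = ⊤) : commutator K = ⊤ := by
  have h1 : (commutator G).map π = commutator K := by
    rw [commutator_def, Subgroup.map_commutator, ← MonoidHom.range_eq_map,
      MonoidHom.range_eq_top.mpr hπ, ← commutator_def]
  rw [← h1, h, ← MonoidHom.range_eq_map, MonoidHom.range_eq_top.mpr hπ]

/-- the version for homomorphisms, in one universe -/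
theorem uni0 (p : ℕ) (hp : p.Prime) (G : Type u) [Group G] (hG : IsPGroup p G)
    (hperf : commutator G = ⊤)
    (hlf : ∀ s : Set G, s.Finite → ((Subgroup.closure s : Subgroup G) : Set G).Finite)
    (A : Type u) [Ring A] (φ : G →* A) (hφ : ∃ g, φ g ≠ 1)
    (hnil : ∀ x ∈ Submodule.span ℤ (Set.range fun g => φ g - 1), IsNilpotent x →
      ∃ g, φ g = 1 + x) :
    ∃ H : Subgroup G, H ≠ ⊤ ∧ ¬ Group.IsSolvable H := by
  obtain ⟨B, _, M, K, _, χ, π, hA, hM, hπ⟩ :=
    blk_AS (blk_RP blk_GT.{u}) blk_NP.{u} p hp G hG hperf hlf A φ hφ hnil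
  exact pull π hπ (main_adj blk_PG p hp hA hM (perfect_of_surj π hπ hperf))

/-- **Main theorem**, the version for homomorphisms -/
theorem uni (p : ℕ) (hp : p.Prime) (G : Type u) [Group G] (hG : IsPGroup p G)
    (hperf : commutator G = ⊤)
    (hlf : ∀ s : Set G, s.Finite → ((Subgroup.closure s : Subgroup G) : Set G).Finite)
    (A : Type v) [Ring A] (φ : G →* A) (hφ : ∃ g, φ g ≠ 1)
    (hnil : ∀ x ∈ Submodule.span ℤ (Set.range fun g => φ g - 1), IsNilpotent x →
      ∃ g, φ g = 1 + x) :
    ∃ H : Subgroup G, H ≠ ⊤ ∧ ¬ Group.IsSolvable H := by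
  let F : MonoidAlgebra ℤ G →+* A := (MonoidAlgebra.lift ℤ A G φ).toRingHom
  have hF : ∀ g : G, F (MonoidAlgebra.of ℤ G g) = φ g := fun g =>
    MonoidAlgebra.lift_of φ g
  let ι : (MonoidAlgebra ℤ G ⧸ RingHom.ker F) →+* A := RingHom.kerLift F
  have hι : Function.Injective ι := RingHom.kerLift_injective F
  let φ' : G →* (MonoidAlgebra ℤ G ⧸ RingHom.ker F) :=
    (Ideal.Quotient.mk (RingHom.ker F) : MonoidAlgebra ℤ G →* _).comp (MonoidAlgebra.of ℤ G)
  have hφ' : ∀ g, ι (φ' g) = φ g := fun g => hF g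
  refine uni0 p hp G hG hperf hlf _ φ' ?_ ?_
  · obtain ⟨g, hg⟩ := hφ
    refine ⟨g, fun h => hg ?_⟩
    rw [← hφ', h, map_one]
  · intro x hx hxn
    have h1 : ι x ∈ Submodule.span ℤ (Set.range fun g => φ g - 1) := by
      refine Submodule.span_induction
        (p := fun x _ => ι x ∈ Submodule.span ℤ (Set.range fun g => φ g - 1)) ?_ ?_
        (fun x y _ _ hx hy => ?_) (fun a x _ hx => ?_) hx
      · rintro _ ⟨g, rfl⟩
        show ι (φ' g - 1) ∈ _
        rw [map_sub, hφ', map_one]
        exact Submodule.subset_span ⟨g, rfl⟩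
      · rw [map_zero]
        exact Submodule.zero_mem _
      · rw [map_add]
        exact Submodule.add_mem _ hx hy
      · rw [map_zsmul]
        exact Submodule.smul_mem _ a hx
    obtain ⟨g, hg⟩ := hnil (ι x) h1 (hxn.map ι)
    refine ⟨g, hι ?_⟩
    rw [hφ', hg, map_add, map_one]

/-- the version for the group of units of an arbitrary ring -/
theorem uni_units (p : ℕ) (hp : p.Prime) (G : Type u) [Group G] (hG : IsPGroup p G)
    (hperf : commutator G = ⊤)
    (hlf : ∀ s : Set G, s.Finite → ((Subgroup.closure s : Subgroup G) : Set G).Finite)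
    (R : Type v) [Ring R] [Nontrivial Rˣ] (π : G →* Rˣ) (hπ : Function.Surjective π) :
    ∃ H : Subgroup G, H ≠ ⊤ ∧ ¬ Group.IsSolvable H := by
  refine uni p hp G hG hperf hlf R ((Units.coeHom R).comp π) ?_ ?_
  · obtain ⟨u, hu⟩ := exists_ne (1 : Rˣ)
    obtain ⟨g, rfl⟩ := hπ u
    refine ⟨g, fun h => hu (Units.ext ?_)⟩
    exact h
  · intro x _ hx
    obtain ⟨u, hu⟩ := IsNilpotent.isUnit_one_add hx
    obtain ⟨g, rfl⟩ := hπ u
    exact ⟨g, hu⟩

/-- the version for the adjoint group of an arbitrary ring -/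
theorem uni_adj (p : ℕ) (hp : p.Prime) (G : Type u) [Group G] (hG : IsPGroup p G)
    (hperf : commutator G = ⊤)
    (hlf : ∀ s : Set G, s.Finite → ((Subgroup.closure s : Subgroup G) : Set G).Finite)
    (m : Type v) [NonUnitalRing m] [Nontrivial (PreQuasiregular m)ˣ]
    (π : G →* (PreQuasiregular m)ˣ) (hπ : Function.Surjective π) :
    ∃ H : Subgroup G, H ≠ ⊤ ∧ ¬ Group.IsSolvable H := by
  let e := Unitization.unitsFstOne_mulEquiv_quasiregular (A := m) ℤ
  let j : (PreQuasiregular m)ˣ →* Unitization ℤ m :=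
    { toFun := fun u => ((e.symm u).1 : Unitization ℤ m)
      map_one' := by simp
      map_mul' := by intro a b; simp }
  have hj : Function.Injective j := by
    intro a b hab
    apply e.symm.injective
    apply Subtype.ext
    apply Units.ext
    exact hab
  have hfst : ∀ u, (j u).fst = 1 := fun u => (e.symm u).2
  refine uni p hp G hG hperf hlf (Unitization ℤ m) (j.comp π) ?_ ?_
  · obtain ⟨u, hu⟩ := exists_ne (1 : (PreQuasiregular m)ˣ)
    obtain ⟨g, rfl⟩ := hπ u
    refine ⟨g, fun h => hu (hj ?_)⟩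
    rw [map_one]
    exact h
  · intro x hx hxn
    have hx0 : x.fst = 0 := by
      refine Submodule.span_induction (p := fun x _ => x.fst = 0) ?_ rfl
        (fun x y _ _ hx hy => ?_) (fun a x _ hx => ?_) hx
      · rintro _ ⟨g, rfl⟩
        show ((j (π g)) - 1).fst = 0
        rw [sub_eq_add_neg, Unitization.fst_add, Unitization.fst_neg, hfst, Unitization.fst_one,
          add_neg_cancel]
      · rw [Unitization.fst_add, hx, hy, add_zero]
      · rw [Unitization.fst_smul, hx, smul_zero]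
    obtain ⟨w, hw⟩ := IsNilpotent.isUnit_one_add hxn
    have hw1 : (w : Unitization ℤ m).fst = 1 := by
      rw [hw, Unitization.fst_add, Unitization.fst_one, hx0, add_zero]
    obtain ⟨g, hg⟩ := hπ (e ⟨w, hw1⟩)
    refine ⟨g, ?_⟩
    show j (π g) = 1 + x
    rw [hg, ← hw]
    show ((e.symm (e ⟨w, hw1⟩)).1 : Unitization ℤ m) = w
    rw [e.symm_apply_apply]

end Pool.Agent.Work.MP_3fbbd3_adj
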